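import Pool.Agent.CHM.Tate
import Pool.Agent.TJ2.Main

/-!
# The Chow motives of almost all abelian varieties (MP_6c4da4_ag, project CHM)
-/

set_option autoImplicit false

open CategoryTheory MonoidalCategory CartesianMonoidalCategory Limits Polynomial Filter

universe v u w x

namespace CHM

variable {V : Type u} [Category.{v} V] [CartesianMonoidalCategory V]

namespace Mot

variable {T : ChowTheory.{v, u, w} V}

/-- The Lefschetz motive `(point, id, -1)`. -/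
@[reducible] def lef (T : ChowTheory.{v, u, w} V) : Mot T := h T (𝟙_ V) (-1)

/-- `(point, id, m) ⊗ (point, id, n) ≅ 1` for `m + n = 0` -/
theorem twist_inv {m n : ℤ} (hmn : m + n = 0) :
    Nonempty (h T (𝟙_ V) m ⊗ h T (𝟙_ V) n ≅ 𝟙_ (Mot T)) :=
  ⟨eqToIso (h_tensor (𝟙_ V) (𝟙_ V) m n) ≪≫ hIso (λ_ (𝟙_ V)).symm hmn⟩

end Mot

namespace Cohomology

variable {T : ChowTheory.{v, u, w} V} {R : FrobeniusMaps T} (K : Cohomology.{v, u, w, x} T R)

omit K in
theorem frob_lef : R.F.app (Mot.lef T) = (R.q : ℚ) • 𝟙 (Mot.lef T) := by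
  apply Subtype.ext
  rw [R.F_app, R.onMot_val, Mot.smul_val, Mot.id_val]
  change (R.q : ℚ) ^ (-(-1) : ℤ) • T.cp (T.diag (𝟙_ V)) (T.gr' (R.Fr (𝟙_ V))) =
    (R.q : ℚ) • T.diag (𝟙_ V)
  rw [R.Fr_unit, T.gr'_id, T.cp_diag, neg_neg, zpow_one]

/-- The Chow motives attached to abelian varieties over the field with `q` elements.  `M h`, for a
real Weil polynomial `h` in `S`, is the motive `h^1(A)` of an abelian variety `A` with Weil
polynomial `x ^ g h (x + q / x)`: its cohomology is in odd degrees, the Weil polynomial is the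
characteristic polynomial of Frobenius and kills the Frobenius correspondence;
`(M h)' ⊗ L ≅ M h` by a polarisation (`L` the Lefschetz motive); an idempotent of `M h ⊗ M h` of
trace zero is zero (Shermenev, Kimura).  `χ` is the Artin motive of the quadratic character, and
`M (tw h) ≅ χ ⊗ M h` (quadratic twist). -/
structure AbelianMotives (S : Set ℤ[X]) where
  χ : Mot T
  M : ℤ[X] → Mot T
  unitχ : Nonempty (χ ⊗ χ ≅ 𝟙_ (Mot T))
  frobχ : R.onMot χ = -𝟙 χ
  even : ∀ h ∈ S, K.evenPart (M h) = ⊥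
  charpoly : ∀ h ∈ S,
    (K.frobM (M h)).charpoly = (Pool.Agent.TJ2.weil R.q h).map (algebraMap ℤ ℂ)
  root : ∀ h ∈ S, aeval (_root_.Mot.component R.F (M h)) (Pool.Agent.TJ2.weil R.q h) = 0
  pol : ∀ h ∈ S, Nonempty ((M h)ᘁ ⊗ Mot.lef T ≅ M h)
  kimura : ∀ h ∈ S, ∀ e : M h ⊗ M h ⟶ M h ⊗ M h, e ≫ e = e → _root_.Mot.trace e = 0 → e = 0
  twist : ∀ h ∈ S, Nonempty (M (Pool.Agent.TJ2.tw h) ≅ χ ⊗ M h)

/-- the Lefschetz motive, `χ` and the `M h`, `h ∈ S` -/
def AbelianMotives.Obj {K : Cohomology.{v, u, w, x} T R} {S : Set ℤ[X]}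
    (D : K.AbelianMotives S) (Y : Mot T) : Prop :=
  Y = Mot.lef T ∨ Y = D.χ ∨ ∃ h ∈ S, Y = D.M h

theorem even_zero {M : Mot T} (h : K.evenPart M = ⊥) : K.frobenius.even M = 0 := by
  rw [← Multiset.card_eq_zero]
  change Multiset.card (K.onEven (R.onMot M)).charpoly.roots = 0
  rw [← (IsAlgClosed.splits _).natDegree_eq_card_roots, LinearMap.charpoly_natDegree, h,
    finrank_bot]

/-- the structure of `Pool.Agent.TJ2` -/
def AbelianMotives.toAV {K : Cohomology.{v, u, w, x} T R} {S : Set ℤ[X]}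
    (D : K.AbelianMotives S) : Pool.Agent.TJ2.AV K.frobenius R.q S where
  T := Mot.lef T
  T' := Mot.h T (𝟙_ V) 1
  χ := D.χ
  M := D.M
  unitT := Mot.twist_inv (by norm_num)
  frobT := frob_lef
  unitχ := D.unitχ
  frobχ := D.frobχ
  even h hh := K.even_zero (D.even h hh)
  odd h hh := by
    have h1 := K.roots_frobM (D.M h)
    rw [K.even_zero (D.even h hh), zero_add, D.charpoly h hh] at h1
    exact h1.symm
  root := D.root
  pol := D.pol
  kim := D.kimura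
  twist := D.twist

theorem gen_iso' {P : Mot T → Prop} {M N : Mot T} (e : M ≅ N)
    (hM : Pool.Agent.TJ2.Gen P M) : Pool.Agent.TJ2.Gen P N :=
  Pool.Agent.TJ2.Gen.summand M N e.inv e.hom e.inv_hom_id hM

theorem gen_pt {P : Mot T → Prop} (hP : Pool.Agent.TJ2.Gen P (Mot.lef T)) (i : ℤ) :
    Pool.Agent.TJ2.Gen P (Mot.h T (𝟙_ V) i) := by
  have hL' : Pool.Agent.TJ2.Gen P (Mot.h T (𝟙_ V) 1) := by
    have h1 := Pool.Agent.TJ2.Gen.dual _ hP
    have e : (Mot.lef T)ᘁ = Mot.h T (𝟙_ V) 1 := by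
      refine Mot.mk_congr (T.tr_diag _) ?_ _ _ _ _
      rw [T.dim_unit]
      ring
    rwa [e] at h1
  induction i using Int.induction_on with
  | zero => exact Pool.Agent.TJ2.Gen.unit
  | succ i ih =>
    have h1 := Pool.Agent.TJ2.Gen.tensor _ _ ih hL'
    rw [Mot.h_tensor] at h1
    exact gen_iso' (Mot.hIso (λ_ (𝟙_ V)).symm rfl) h1
  | pred i ih =>
    have h1 := Pool.Agent.TJ2.Gen.tensor _ _ ih hP
    rw [Mot.h_tensor] at h1
    exact gen_iso' (Mot.hIso (λ_ (𝟙_ V)).symm (by ring)) h1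

theorem gen_twist' {P : Mot T → Prop} (hP : Pool.Agent.TJ2.Gen P (Mot.lef T)) {X : V}
    (hX : Pool.Agent.TJ2.Gen P (Mot.h T X 0)) (i : ℤ) :
    Pool.Agent.TJ2.Gen P (Mot.h T X i) := by
  have h1 := Pool.Agent.TJ2.Gen.tensor _ _ hX (gen_pt hP i)
  rw [Mot.h_tensor] at h1
  exact gen_iso' (Mot.hIso (ρ_ X).symm (by ring)) h1

/-- the main theorem on almost all abelian varieties -/
theorem almostAll : ∃ S : ℕ → Set ℤ[X],
    (∀ q : ℕ, ∀ h ∈ S q, 1 ≤ h.natDegree ∧ h ∈ Pool.Agent.TJ2.Ord h.natDegree q) ∧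
    (∀ g : ℕ, 1 ≤ g → Tendsto
      (fun q : {q : ℕ // IsPrimePow q} =>
        ((S q ∩ Pool.Agent.TJ2.Ord g q).ncard : ℝ) / (Pool.Agent.TJ2.Ord g q).ncard)
      atTop (nhds 1)) ∧
    ∀ q : ℕ, IsPrimePow q → ∀ (V : Type u) [Category.{v} V] [CartesianMonoidalCategory V]
      (T : ChowTheory.{v, u, w} V) (R : FrobeniusMaps T) (K : Cohomology.{v, u, w, x} T R)
      (_ : R.q = q) (D : K.AbelianMotives (S q)),
      MotP.IsAbelian (Pool.Agent.TJ2.GenCat D.Obj) ∧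
        (∀ M N : Mot T, Pool.Agent.TJ2.Gen D.Obj M → Pool.Agent.TJ2.Gen D.Obj N →
          Mot.numHom M N = ⊥) ∧
        ∀ X : V, Pool.Agent.TJ2.Gen D.Obj (Mot.h T X 0) → ∀ i, T.num X i = ⊥ := by
  obtain ⟨S, h1, h2, h3⟩ := Pool.Agent.TJ2.main.{w, max u w}
  refine ⟨S, h1, h2, ?_⟩
  intro q hq V _ _ T R K hR D
  subst hR
  obtain ⟨h4, h5⟩ := h3 R.q hq (Mot T) K.frobenius D.toAV
  refine ⟨h4, ?_, ?_⟩
  · intro M N hM hN
    rw [eq_bot_iff]
    intro f hf
    rw [Submodule.mem_bot]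
    exact h5 M N f hM hN ((Mot.mem_numHom f).1 hf)
  · intro X hX i
    rw [eq_bot_iff]
    intro a ha
    rw [Submodule.mem_bot]
    have hXi : Pool.Agent.TJ2.Gen D.Obj (Mot.h T X i) :=
      gen_twist' (Pool.Agent.TJ2.Gen.of _ (Or.inl rfl)) hX i
    have h6 : Mot.secEquiv T X i a = 0 := by
      refine h5 _ _ _ Pool.Agent.TJ2.Gen.unit hXi ?_
      intro g
      exact Mot.trace_zero_of_zero _ ((Mot.nt_iff a).2 ha g)
    exact (map_eq_zero_iff _ (Mot.secEquiv T X i).injective).1 h6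

end Cohomology

end CHM
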