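import Mathlib

/-!
# Chow rings of smooth projective varieties (MP_6c4da4_ag, project CHM): the basic structure

`ChowTheory V` lists the facts on Chow groups with rational coefficients which are used: `V` is the
category of the smooth projective varieties over a field `k` (possibly not connected, of pure
dimension), with the product over `k` as cartesian product.  All fields are in Fulton, Intersection
Theory, Chapters 1 - 8.
-/

set_option autoImplicit false

open CategoryTheory MonoidalCategory CartesianMonoidalCategory Limits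

universe v u w

namespace CHM

/-- `g : Z ⟶ Y` is the projection of a product to a factor (up to an isomorphism). -/
def IsProjection {V : Type u} [Category.{v} V] [CartesianMonoidalCategory V] {Z Y : V}
    (g : Z ⟶ Y) : Prop :=
  ∃ (B : V) (e : Z ≅ Y ⊗ B), g = e.hom ≫ fst Y B

/-- Chow groups with rational coefficients of smooth projective varieties over a field.  `V` is the
category of smooth projective varieties of pure dimension, `X ⊗ Y` is the product, `𝟙_ V` the
point. -/
structure ChowTheory (V : Type u) [Category.{v} V] [CartesianMonoidalCategory V] where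
  /-- the dimension -/
  dim : V → ℤ
  dim_unit : dim (𝟙_ V) = 0
  dim_tensor : ∀ X Y : V, dim (X ⊗ Y) = dim X + dim Y
  /-- the Chow ring `CH^*(X)_ℚ` -/
  CH : V → Type w
  [ring : ∀ X, CommRing (CH X)]
  [algebra : ∀ X, Algebra ℚ (CH X)]
  /-- `gr X i = CH^i(X)_ℚ`, the cycles of codimension `i` -/
  gr : ∀ X : V, ℤ → Submodule ℚ (CH X)
  [graded : ∀ X, GradedAlgebra (gr X)]
  /-- the pullback `f^*` -/
  pull : ∀ {X Y : V}, (X ⟶ Y) → (CH Y →ₐ[ℚ] CH X)
  pull_id : ∀ (X : V) (a : CH X), pull (𝟙 X) a = a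
  pull_comp : ∀ {X Y Z : V} (f : X ⟶ Y) (g : Y ⟶ Z) (a : CH Z), pull (f ≫ g) a = pull f (pull g a)
  pull_mem : ∀ {X Y : V} (f : X ⟶ Y) (i : ℤ) (a : CH Y), a ∈ gr Y i → pull f a ∈ gr X i
  /-- the pushforward `f_*` -/
  push : ∀ {X Y : V}, (X ⟶ Y) → (CH X →ₗ[ℚ] CH Y)
  push_id : ∀ (X : V) (a : CH X), push (𝟙 X) a = a
  push_comp : ∀ {X Y Z : V} (f : X ⟶ Y) (g : Y ⟶ Z) (a : CH X), push (f ≫ g) a = push g (push f a)
  push_mem : ∀ {X Y : V} (f : X ⟶ Y) (i : ℤ) (a : CH X), a ∈ gr X i →
    push f a ∈ gr Y (i + dim Y - dim X)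
  /-- the projection formula `f_* (f^* b · a) = b · f_* a` -/
  projection : ∀ {X Y : V} (f : X ⟶ Y) (a : CH X) (b : CH Y), push f (pull f b * a) = b * push f a
  /-- base change: `g^* f_* = f'_* g'^*` for cartesian squares with `g` a projection -/
  base_change : ∀ {P X Y Z : V} (g' : P ⟶ X) (f' : P ⟶ Z) (f : X ⟶ Y) (g : Z ⟶ Y),
    IsPullback g' f' f g → IsProjection g → ∀ a : CH X, pull g (push f a) = push f' (pull g' a)
  /-- the Chow ring of the point is `ℚ` -/
  point : Function.Bijective (algebraMap ℚ (CH (𝟙_ V)))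
  /-- the disjoint union `Z` of two varieties `X`, `Y` of the same dimension:
  `CH^k(W × Z) = CH^k(W × X) × CH^k(W × Y)` -/
  union : ∀ X Y : V, dim X = dim Y → ∃ (Z : V) (i : X ⟶ Z) (j : Y ⟶ Z), dim Z = dim X ∧
    ∀ W : V, (∀ a : CH (W ⊗ Z), pull (W ◁ i) a = 0 → pull (W ◁ j) a = 0 → a = 0) ∧
      ∀ (k : ℤ) (b : CH (W ⊗ X)) (c : CH (W ⊗ Y)), b ∈ gr _ k → c ∈ gr _ k →
        ∃ a ∈ gr (W ⊗ Z) k, pull (W ◁ i) a = b ∧ pull (W ◁ j) a = c
  /-- the projective line `E` and the class `c` of a rational point -/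
  line : ∃ (E : V) (c : CH E), dim E = 1 ∧ c ∈ gr E 1 ∧ push (toUnit E) c = 1

attribute [instance] ChowTheory.ring ChowTheory.algebra ChowTheory.graded

variable {V : Type u} [Category.{v} V] [CartesianMonoidalCategory V] (T : ChowTheory.{v, u, w} V)

namespace ChowTheory

attribute [simp] pull_id push_id

/-- pullback and pushforward along an isomorphism -/
theorem push_iso {X Y : V} (e : X ≅ Y) (a : T.CH X) : T.push e.hom a = T.pull e.inv a := by
  have h := T.base_change e.inv (𝟙 Y) e.hom (𝟙 Y)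
    (IsPullback.of_vert_isIso ⟨by simp⟩) ⟨𝟙_ V, (ρ_ Y).symm, by simp⟩ a
  rwa [T.pull_id, T.push_id] at h

theorem pull_iso {X Y : V} (e : X ≅ Y) (a : T.CH Y) : T.pull e.hom a = T.push e.inv a :=
  (T.push_iso e.symm a).symm

end ChowTheory

end CHM
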