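import Pool.Agent.CHM.Sections
import Pool.Agent.MotP.Eq

/-!
# The bound for the Chow groups in the abelian case (MP_6c4da4_ag, project CHM)
-/

set_option autoImplicit false

open CategoryTheory MonoidalCategory CartesianMonoidalCategory Limits

universe v u w

namespace CHM

variable {V : Type u} [Category.{v} V] [CartesianMonoidalCategory V]

namespace Mot

variable {T : ChowTheory.{v, u, w} V}

/-- numerically trivial cycles of codimension `dim X - i` as numerically trivial morphisms
`h(X)(i) ⟶ 1` -/
theorem mem_num_iff {X : V} {i : ℤ} (b : T.gr X (T.dim X - i)) :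
    b ∈ T.num X (T.dim X - i) ↔ ∀ f : 𝟙_ (Mot T) ⟶ h T X i, f ≫ cosecEquiv T X i b = 0 := by
  constructor
  · intro hb f
    obtain ⟨a, rfl⟩ := (secEquiv T X i).surjective f
    rw [sec_cosec, mul_comm, hb a.1 (T.gr_congr (by ring) a.2), zero_smul]
  · intro hb a ha
    have ha' : a ∈ T.gr X i := T.gr_congr (by ring) ha
    have h1 := hb (secEquiv T X i ⟨a, ha'⟩)
    rw [sec_cosec] at h1
    by_contra hne
    rw [mul_comm] at hne
    have h2 : 𝟙 (𝟙_ (Mot T)) = 0 := by
      rw [← one_smul ℚ (𝟙 (𝟙_ (Mot T))), ← inv_mul_cancel₀ hne, mul_smul, h1, smul_zero]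
    exact unit_ne h2

/-- If the category of Chow motives is abelian, then all Chow groups are finite-dimensional and
their dimension is bounded by the multiplicity of a Frobenius eigenvalue. -/
theorem sections_bound (W : MotP.Frobenius (Mot T)) (hA : MotP.IsAbelian (Mot T)) (X : V) (i : ℤ) :
    Module.Finite ℚ (T.gr X i) ∧
      Module.finrank ℚ (T.gr X i) + Module.finrank ℚ (T.num X (T.dim X - i)) ≤
        (W.even (h T X i)).count 1 := by
  obtain ⟨hK, hCK, hcomp⟩ := hA
  have hc : ∀ {X Y : Mot T} (f : X ⟶ Y), IsIso (Abelian.coimageImageComparison f) :=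
    fun f => hcomp _ _ f
  let _ : Abelian (Mot T) := Abelian.ofCoimageImageComparisonIsIso
  have h1 : Module.Finite ℚ (𝟙_ (Mot T) ⟶ h T X i) := W.toMot.finite_hom _ _
  have h3 := W.toMot.bound (h T X i)
  have h4 : Module.finrank ℚ (T.gr X i) = Module.finrank ℚ (𝟙_ (Mot T) ⟶ h T X i) :=
    (secEquiv T X i).finrank_eq
  have h5 : Module.finrank ℚ (T.num X (T.dim X - i)) =
      Module.finrank ℚ (_root_.Mot.Nt' (h T X i)) := by
    have h6 : (T.num X (T.dim X - i)).map (cosecEquiv T X i).toLinearMap =
        _root_.Mot.Nt' (h T X i) := by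
      ext g
      constructor
      · rintro ⟨b, hb, rfl⟩
        exact (mem_num_iff b).1 hb
      · intro hg
        obtain ⟨b, rfl⟩ := (cosecEquiv T X i).surjective g
        exact ⟨b, (mem_num_iff b).2 hg, rfl⟩
    rw [← h6]
    exact (LinearEquiv.finrank_map_eq (cosecEquiv T X i) _).symm
  refine ⟨Module.Finite.equiv (secEquiv T X i).symm, ?_⟩
  rw [h4, h5]
  exact h3

end Mot

end CHM
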