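import Pool.Agent.CHM.Lef

/-!
# Correspondences acting on Chow groups (MP_6c4da4_ag, project CHM)
-/

set_option autoImplicit false

open CategoryTheory MonoidalCategory CartesianMonoidalCategory Limits

universe v u w x

namespace CHM

variable {V : Type u} [Category.{v} V] [CartesianMonoidalCategory V]

namespace ChowTheory

variable (T : ChowTheory.{v, u, w} V)

/-- The action of a correspondence `f ∈ CH(X × Y)` on cycles: `a ↦ pr₂_* (pr₁^* a · f)`. -/
def corr {X Y : V} (f : T.CH (X ⊗ Y)) : T.CH X →ₗ[ℚ] T.CH Y where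
  toFun a := T.push (snd X Y) (T.pull (fst X Y) a * f)
  map_add' a b := by rw [map_add, add_mul, map_add]
  map_smul' r a := by rw [map_smul, smul_mul_assoc, map_smul]; rfl

theorem corr_apply {X Y : V} (f : T.CH (X ⊗ Y)) (a : T.CH X) :
    T.corr f a = T.push (snd X Y) (T.pull (fst X Y) a * f) := rfl

theorem cp_section {X Y : V} (a : T.CH X) (f : T.CH (X ⊗ Y)) :
    T.cp (T.pull (snd (𝟙_ V) X) a) f = T.pull (snd (𝟙_ V) Y) (T.corr f a) := by
  rw [corr_apply]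
  rw [T.bc (P := (𝟙_ V ⊗ X) ⊗ Y) (lift (fst _ _ ≫ snd _ _) (snd _ _))
    (lift (fst (𝟙_ V ⊗ X) Y ≫ fst (𝟙_ V) X) (snd (𝟙_ V ⊗ X) Y)) (snd X Y) (snd (𝟙_ V) Y)
    (fst (𝟙_ V) Y)
    ⟨lift (snd _ _) (fst _ _), by ext <;> simp, by ext <;> simp⟩
    ⟨lift (lift (toUnit _) (fst _ _ ≫ fst _ _)) (fst _ _ ≫ snd _ _), by ext <;> simp,
      by ext <;> simp⟩ (by simp)]
  unfold cp
  refine T.push_congr rfl ?_
  rw [map_mul, ← T.pull_comp, ← T.pull_comp]
  exact congr_arg₂ (· * ·) (T.pull_congr (by simp) _) rfl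

/-- The correspondence given by the multiplication with a cycle `c` on `X`: the class of `c` on the
diagonal. -/
def mulc {X : V} (c : T.CH X) : T.CH (X ⊗ X) := T.push (lift (𝟙 X) (𝟙 X)) c

theorem corr_mulc {X : V} (c a : T.CH X) : T.corr (T.mulc c) a = a * c := by
  rw [corr_apply, mulc, ← T.projection, ← T.push_comp, ← T.pull_comp, lift_fst, lift_snd,
    T.pull_id, T.push_id]

theorem mulc_mem {X : V} {c : T.CH X} {r : ℤ} (hc : c ∈ T.gr X r) :
    T.mulc c ∈ T.gr (X ⊗ X) (T.dim X + r) := by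
  have h := T.push_mem (lift (𝟙 X) (𝟙 X)) _ _ hc
  have e : r + T.dim (X ⊗ X) - T.dim X = T.dim X + r := by
    rw [T.dim_tensor]
    ring
  exact T.gr_congr e h

end ChowTheory

namespace Cohomology

variable {T : ChowTheory.{v, u, w} V} {R : FrobeniusMaps T} (K : Cohomology.{v, u, w, x} T R)

/-- **Main theorem, for Chow groups.** -/
theorem chow_main (hA : MotP.IsAbelian (Mot T)) {X Y : V} (i r : ℤ) (f : T.CH (X ⊗ Y))
    (hf : f ∈ T.gr (X ⊗ Y) (T.dim X + r))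
    (hinj : ∀ x ∈ K.gr X (2 * i), K.act f x = 0 → x = 0) :
    (∀ a ∈ T.gr X i, T.corr f a = 0 → a = 0) ∧
      ((∀ y ∈ K.gr Y (2 * (i + r)), ∃ x, K.act f x = y) →
        ∀ b ∈ T.gr Y (i + r), ∃ a ∈ T.gr X i, T.corr f a = b) := by
  let F : Mot.h T X i ⟶ Mot.h T Y (i + r) := ⟨f, Mot.mem_hom_h.2 (by
    have e : T.dim X + r = T.dim X + (i + r) - i := by ring
    exact T.gr_congr e hf)⟩
  have hHM : ∀ (Z : V) (n : ℤ) (z : K.H Z), z ∈ K.HM (Mot.h T Z n) := fun Z n z => K.act_diag Z z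
  have h1 := K.hom_main hA F (fun x hx hx0 => by
    apply Subtype.ext
    exact hinj x.1 hx (congrArg Subtype.val hx0))
  have hcomp : ∀ a : T.gr X i, ∀ b : T.gr Y (i + r), T.corr f a.1 = b.1 →
      Mot.secEquiv T X i a ≫ F = Mot.secEquiv T Y (i + r) b := by
    intro a b hab
    apply Subtype.ext
    change T.cp (T.pull (snd (𝟙_ V) X) a.1) f = T.pull (snd (𝟙_ V) Y) b.1
    rw [T.cp_section, hab]
  have hmem : ∀ a ∈ T.gr X i, T.corr f a ∈ T.gr Y (i + r) := by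
    intro a ha
    have h2 := T.push_mem (snd X Y) _ _ (T.mul_mem (T.pull_mem (fst X Y) _ _ ha) hf)
    have e : i + (T.dim X + r) + T.dim Y - T.dim (X ⊗ Y) = i + r := by
      rw [T.dim_tensor]
      ring
    exact T.gr_congr e h2
  refine ⟨?_, ?_⟩
  · intro a ha ha0
    have h2 := hcomp ⟨a, ha⟩ 0 ha0
    rw [map_zero] at h2
    have h3 := h1.1 _ h2
    have h4 := (Mot.secEquiv T X i).map_eq_zero_iff.1 h3
    exact congrArg Subtype.val h4
  · intro hsurj b hb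
    obtain ⟨a, ha⟩ := h1.2 (fun y hy => by
      obtain ⟨x, hx⟩ := hsurj y.1 hy
      exact ⟨⟨x, hHM X i x⟩, Subtype.ext hx⟩) (Mot.secEquiv T Y (i + r) ⟨b, hb⟩)
    obtain ⟨a', rfl⟩ := (Mot.secEquiv T X i).surjective a
    refine ⟨a'.1, a'.2, ?_⟩
    rw [hcomp a' ⟨T.corr f a'.1, hmem _ a'.2⟩ rfl] at ha
    have h3 := (Mot.secEquiv T Y (i + r)).injective ha
    exact congrArg Subtype.val h3

/-- `l ∈ CH^1(X)` satisfies the hard Lefschetz theorem: for `j + k = dim X`, the multiplication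
with `l ^ k` is a bijection of `H^j(X)` onto `H^(j+2k)(X)`. -/
def HardLefschetz (X : V) (l : T.CH X) : Prop :=
  ∀ (j : ℤ) (k : ℕ), j + k = T.dim X →
    (∀ x ∈ K.gr X j, K.act (T.mulc (l ^ k)) x = 0 → x = 0) ∧
      ∀ y ∈ K.gr X (j + 2 * k), ∃ x ∈ K.gr X j, K.act (T.mulc (l ^ k)) x = y

/-- hard Lefschetz for Chow groups -/
theorem chow_lefschetz (hA : MotP.IsAbelian (Mot T)) {X : V} (l : T.CH X) (hl : l ∈ T.gr X 1)
    (hL : K.HardLefschetz X l) (i : ℤ) (k : ℕ) (hik : 2 * i + k = T.dim X) :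
    (∀ a ∈ T.gr X i, a * l ^ k = 0 → a = 0) ∧
      ∀ b ∈ T.gr X (i + k), ∃ a ∈ T.gr X i, a * l ^ k = b := by
  have hlk : l ^ k ∈ T.gr X k := by
    have h := SetLike.pow_mem_graded (A := T.gr X) k hl
    exact T.gr_congr (by simp) h
  obtain ⟨h1, h2⟩ := hL (2 * i) k hik
  have h3 := K.chow_main hA i k (T.mulc (l ^ k)) (T.mulc_mem hlk) h1
  simp only [T.corr_mulc] at h3
  refine ⟨h3.1, h3.2 fun y hy => ?_⟩
  have e : 2 * (i + (k : ℤ)) = 2 * i + 2 * k := by ring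
  rw [e] at hy
  obtain ⟨x, -, hx⟩ := h2 y hy
  exact ⟨x, hx⟩

end Cohomology

namespace ChowTheory

variable (T : ChowTheory.{v, u, w} V)

/-- the graph acts by pullback -/
theorem corr_gr' {X Y : V} (φ : Y ⟶ X) (a : T.CH X) : T.corr (T.gr' φ) a = T.pull φ a := by
  rw [corr_apply, gr', ← T.projection, ← T.push_comp, ← T.pull_comp, lift_fst, lift_snd,
    T.push_id, mul_one]

end ChowTheory

namespace Cohomology

variable {T : ChowTheory.{v, u, w} V} {R : FrobeniusMaps T} (K : Cohomology.{v, u, w, x} T R)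

/-- weak Lefschetz for Chow groups -/
theorem chow_pull (hA : MotP.IsAbelian (Mot T)) {X Y : V} (φ : Y ⟶ X) (i : ℤ)
    (hinj : ∀ x ∈ K.gr X (2 * i), K.act (T.gr' φ) x = 0 → x = 0) :
    (∀ a ∈ T.gr X i, T.pull φ a = 0 → a = 0) ∧
      ((∀ y ∈ K.gr Y (2 * i), ∃ x, K.act (T.gr' φ) x = y) →
        ∀ b ∈ T.gr Y i, ∃ a ∈ T.gr X i, T.pull φ a = b) := by
  have hgr : T.gr' φ ∈ T.gr (X ⊗ Y) (T.dim X + 0) := by
    rw [add_zero]
    exact T.gr'_mem _
  have h := K.chow_main hA i 0 (T.gr' φ) hgr hinj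
  simp only [T.corr_gr', add_zero] at h
  exact h

end Cohomology

end CHM
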