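import Pool.Agent.CHM.Base

/-!
# Correspondences: composition, unit, graphs (MP_6c4da4_ag, project CHM)
-/

set_option autoImplicit false

open CategoryTheory MonoidalCategory CartesianMonoidalCategory Limits

universe v u w

namespace CHM

variable {V : Type u} [Category.{v} V] [CartesianMonoidalCategory V] (T : ChowTheory.{v, u, w} V)

namespace ChowTheory

/-- Base change for a square all of whose objects are products. -/
theorem bc {P X Y Z B : V} (g' : P ⟶ X) (f' : P ⟶ Z) (f : X ⟶ Y) (g : Z ⟶ Y) (s : Z ⟶ B)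
    (hz : IsIso (lift g s)) (hp : IsIso (lift g' (f' ≫ s))) (comm : g' ≫ f = f' ≫ g)
    (a : T.CH X) : T.pull g (T.push f a) = T.push f' (T.pull g' a) := by
  apply T.base_change g' f' f g _ ⟨B, asIso (lift g s), by simp⟩
  refine ⟨⟨comm⟩, ⟨PullbackCone.IsLimit.mk comm
    (fun c => lift c.fst (c.snd ≫ s) ≫ inv (lift g' (f' ≫ s))) ?_ ?_ ?_⟩⟩
  · intro c
    have h : inv (lift g' (f' ≫ s)) ≫ g' = fst _ _ := by
      rw [IsIso.inv_comp_eq]; simp
    rw [Category.assoc, h, lift_fst]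
  · intro c
    rw [← cancel_mono (lift g s)]
    have h1 : inv (lift g' (f' ≫ s)) ≫ g' = fst _ _ := by
      rw [IsIso.inv_comp_eq]; simp
    have h2 : inv (lift g' (f' ≫ s)) ≫ f' ≫ s = snd _ _ := by
      rw [IsIso.inv_comp_eq]; simp
    ext
    · simp only [Category.assoc, lift_fst]
      rw [← comm, reassoc_of% h1, lift_fst_assoc, c.condition]
    · simp only [Category.assoc, lift_snd]
      rw [h2, lift_snd]
  · intro c m h1 h2
    rw [IsIso.eq_comp_inv]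
    ext
    · simpa using h1
    · simp [← h2]

/-- The composition of correspondences. -/
def cp {X Y Z : V} (f : T.CH (X ⊗ Y)) (g : T.CH (Y ⊗ Z)) : T.CH (X ⊗ Z) :=
  T.push (lift (fst (X ⊗ Y) Z ≫ fst X Y) (snd (X ⊗ Y) Z))
    (T.pull (fst (X ⊗ Y) Z) f * T.pull (lift (fst (X ⊗ Y) Z ≫ snd X Y) (snd (X ⊗ Y) Z)) g)

/-- The class of the diagonal. -/
def diag (X : V) : T.CH (X ⊗ X) := T.push (lift (𝟙 X) (𝟙 X)) 1

/-- The class of the transpose of the graph of `φ : Y ⟶ X`, a correspondence from `X` to `Y`. -/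
def gr' {X Y : V} (φ : Y ⟶ X) : T.CH (X ⊗ Y) := T.push (lift φ (𝟙 Y)) 1

theorem cp_assoc {X Y Z W : V} (f : T.CH (X ⊗ Y)) (g : T.CH (Y ⊗ Z)) (h : T.CH (Z ⊗ W)) :
    T.cp (T.cp f g) h = T.cp f (T.cp g h) := by
  unfold cp
  rw [T.bc (fst ((X ⊗ Y) ⊗ Z) W) (lift (fst (X ⊗ Y) Z ≫ fst X Y) (snd (X ⊗ Y) Z) ▷ W) _ _
      (snd (X ⊗ Z) W) (by simp; infer_instance) (by simp; infer_instance) (by simp)]
  rw [T.bc (P := ((X ⊗ Y) ⊗ Z) ⊗ W)
      (lift (lift (fst _ _ ≫ fst _ _ ≫ snd _ _) (fst _ _ ≫ snd _ _)) (snd _ _))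
      (lift (fst _ _ ≫ fst _ _) (snd _ _)) (lift (fst (Y ⊗ Z) W ≫ fst Y Z) (snd (Y ⊗ Z) W))
      (lift (fst (X ⊗ Y) W ≫ snd X Y) (snd (X ⊗ Y) W)) (fst (X ⊗ Y) W ≫ fst X Y)
      ⟨lift (lift (snd _ _) (fst _ _ ≫ fst _ _)) (fst _ _ ≫ snd _ _), by ext <;> simp,
        by ext <;> simp⟩
      ⟨lift (lift (lift (snd _ _) (fst _ _ ≫ fst _ _ ≫ fst _ _)) (fst _ _ ≫ fst _ _ ≫ snd _ _))
        (fst _ _ ≫ snd _ _), by ext <;> simp, by ext <;> simp⟩ (by ext <;> simp)]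
  rw [mul_comm (T.push _ _), ← T.projection, mul_comm (T.pull _ _) (T.pull _ _), ← T.push_comp,
    ← T.projection, ← T.push_comp]
  simp only [map_mul, ← T.pull_comp]
  simp [mul_assoc]

/-- composition with a graph on the right is a pullback -/
theorem cp_gr' {W X Y : V} (a : T.CH (W ⊗ X)) (φ : Y ⟶ X) :
    T.cp a (T.gr' φ) = T.pull (W ◁ φ) a := by
  unfold cp gr'
  rw [T.bc (P := W ⊗ Y) (snd W Y) (lift (W ◁ φ) (snd W Y)) (lift φ (𝟙 Y))
      (lift (fst (W ⊗ X) Y ≫ snd W X) (snd (W ⊗ X) Y)) (fst (W ⊗ X) Y ≫ fst W X)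
      ⟨lift (lift (snd _ _) (fst _ _ ≫ fst _ _)) (fst _ _ ≫ snd _ _), by ext <;> simp,
        by ext <;> simp⟩
      ⟨lift (snd _ _) (fst _ _), by ext <;> simp, by ext <;> simp⟩ (by ext <;> simp)]
  rw [mul_comm (T.pull _ _), mul_comm (T.push _ _), ← T.projection, ← T.push_comp, ← T.pull_comp,
    map_one, mul_one]
  simp

/-- composition with a graph on the left is a pushforward -/
theorem gr'_cp {X Y Z : V} (φ : Y ⟶ X) (b : T.CH (Y ⊗ Z)) :
    T.cp (T.gr' φ) b = T.push (φ ▷ Z) b := by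
  unfold cp gr'
  rw [T.bc (P := Y ⊗ Z) (fst Y Z) (lift φ (𝟙 Y) ▷ Z) (lift φ (𝟙 Y))
      (fst (X ⊗ Y) Z) (snd (X ⊗ Y) Z)
      (by simp; infer_instance) (by simp; infer_instance) (by simp)]
  rw [mul_comm (T.push _ _), ← T.projection, ← T.push_comp, ← T.pull_comp, map_one, mul_one]
  have h : φ ▷ Z = lift (fst Y Z ≫ φ) (snd Y Z) := by ext <;> simp
  rw [h]
  simp

theorem cp_diag {X Y : V} (a : T.CH (X ⊗ Y)) : T.cp a (T.diag Y) = a := by
  have h := T.cp_gr' a (𝟙 Y)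
  rw [gr'] at h
  rw [diag, h, MonoidalCategory.whiskerLeft_id, T.pull_id]

theorem diag_cp {X Y : V} (a : T.CH (X ⊗ Y)) : T.cp (T.diag X) a = a := by
  have h := T.gr'_cp (𝟙 X) a
  rw [gr'] at h
  rw [diag, h, MonoidalCategory.id_whiskerRight, T.push_id]

theorem gr'_id (X : V) : T.gr' (𝟙 X) = T.diag X := rfl

theorem gr'_comp {X Y Z : V} (φ : Y ⟶ X) (ψ : Z ⟶ Y) :
    T.cp (T.gr' φ) (T.gr' ψ) = T.gr' (ψ ≫ φ) := by
  rw [T.gr'_cp, gr', ← T.push_comp, gr']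
  simp

/-- linearity of the composition -/
theorem add_cp {X Y Z : V} (f f' : T.CH (X ⊗ Y)) (g : T.CH (Y ⊗ Z)) :
    T.cp (f + f') g = T.cp f g + T.cp f' g := by
  simp [cp, add_mul]

theorem cp_add {X Y Z : V} (f : T.CH (X ⊗ Y)) (g g' : T.CH (Y ⊗ Z)) :
    T.cp f (g + g') = T.cp f g + T.cp f g' := by
  simp [cp, mul_add]

theorem smul_cp {X Y Z : V} (r : ℚ) (f : T.CH (X ⊗ Y)) (g : T.CH (Y ⊗ Z)) :
    T.cp (r • f) g = r • T.cp f g := by
  simp [cp]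

theorem cp_smul {X Y Z : V} (r : ℚ) (f : T.CH (X ⊗ Y)) (g : T.CH (Y ⊗ Z)) :
    T.cp f (r • g) = r • T.cp f g := by
  simp [cp]

/-- the transpose of a correspondence -/
def tr {X Y : V} (f : T.CH (X ⊗ Y)) : T.CH (Y ⊗ X) := T.pull (lift (snd Y X) (fst Y X)) f

theorem tr_tr {X Y : V} (f : T.CH (X ⊗ Y)) : T.tr (T.tr f) = f := by
  rw [tr, tr, ← T.pull_comp]
  simp

/-- push forward along a morphism after a reparametrisation of the source -/
theorem push_reparam {A B C : V} (p : A ⟶ C) (e : B ⟶ A) (he : IsIso e) (a : T.CH A) :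
    T.push p a = T.push (e ≫ p) (T.pull e a) := by
  rw [T.push_comp]
  have h := T.push_iso (asIso e) (T.pull e a)
  rw [asIso_hom, asIso_inv, ← T.pull_comp, IsIso.inv_hom_id, T.pull_id] at h
  rw [h]

/-- pullback along an isomorphism of a pushforward -/
theorem pull_push_iso {A B C : V} (p : A ⟶ C) (e : B ⟶ C) (he : IsIso e) (a : T.CH A) :
    T.pull e (T.push p a) = T.push (p ≫ inv e) a := by
  rw [T.push_comp]
  have h := T.push_iso (asIso e).symm (T.push p a)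
  simpa using h.symm

theorem tr_cp {X Y Z : V} (f : T.CH (X ⊗ Y)) (g : T.CH (Y ⊗ Z)) :
    T.tr (T.cp f g) = T.cp (T.tr g) (T.tr f) := by
  unfold cp tr
  have h1 : IsIso (lift (snd Z X) (fst Z X)) :=
    ⟨lift (snd X Z) (fst X Z), by ext <;> simp, by ext <;> simp⟩
  have h2 : inv (lift (snd Z X) (fst Z X)) = lift (snd X Z) (fst X Z) := by
    rw [IsIso.inv_eq_of_hom_inv_id]
    ext <;> simp
  rw [T.pull_push_iso _ _ h1, h2]
  have h3 : IsIso (lift (lift (snd (Z ⊗ Y) X) (fst (Z ⊗ Y) X ≫ snd Z Y)) (fst (Z ⊗ Y) X ≫ fst Z Y) :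
      (Z ⊗ Y) ⊗ X ⟶ (X ⊗ Y) ⊗ Z) :=
    ⟨lift (lift (snd _ _) (fst _ _ ≫ snd _ _)) (fst _ _ ≫ fst _ _), by ext <;> simp,
      by ext <;> simp⟩
  rw [T.push_reparam _ _ h3]
  simp [← T.pull_comp, mul_comm]

end ChowTheory

end CHM
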