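import Pool.Agent.CHM.Chow

/-!
# Cohomology detects Chow groups, in the abelian case (MP_6c4da4_ag, project CHM)
-/

set_option autoImplicit false

open CategoryTheory MonoidalCategory CartesianMonoidalCategory Limits

universe v u w x

namespace CHM

variable {V : Type u} [Category.{v} V] [CartesianMonoidalCategory V]

namespace Cohomology

variable {T : ChowTheory.{v, u, w} V} {R : FrobeniusMaps T} (K : Cohomology.{v, u, w, x} T R)

/-- morphisms of Chow motives which are injective (bijective) on cohomology -/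
theorem detect_motives (hA : MotP.IsAbelian (Mot T)) {M N : Mot T} (f : M ⟶ N)
    (hf : ∀ x, K.act M.p x = x → K.act f.1 x = 0 → x = 0) :
    Mono f ∧ ((∀ y, K.act N.p y = y → ∃ x, K.act M.p x = x ∧ K.act f.1 x = y) → IsIso f) := by
  have h1 : ∀ x : K.HM M, K.HMmap f x = 0 → x = 0 := fun x hx =>
    Subtype.ext (hf x.1 x.2 (congrArg Subtype.val hx))
  refine ⟨K.mono_of hA f (K.splitMono_of_injective f h1), fun hs => ?_⟩
  refine K.iso_of hA f (K.splitMono_of_injective f h1) (K.splitEpi_of_surjective f fun y => ?_)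
  obtain ⟨x, hx, hxy⟩ := hs y.1 y.2
  exact ⟨⟨x, hx⟩, Subtype.ext hxy⟩

/-- From hard Lefschetz: cycles of dimension `i` which are orthogonal to `CH^i` are zero if the
Lefschetz form on `CH^i` is non-degenerate. -/
theorem chow_num (hA : MotP.IsAbelian (Mot T)) {X : V} (l : T.CH X) (hl : l ∈ T.gr X 1)
    (hL : K.HardLefschetz X l) (i : ℤ) (k : ℕ) (hik : 2 * i + k = T.dim X)
    (hI : ∀ a ∈ T.gr X i, (∀ c ∈ T.gr X i, T.deg (a * l ^ k * c) = 0) → a = 0) :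
    ∀ b ∈ T.gr X (i + k), (∀ c ∈ T.gr X i, T.deg (b * c) = 0) → b = 0 := by
  intro b hb hbc
  obtain ⟨a, ha, rfl⟩ := (K.chow_lefschetz hA l hl hL i k hik).2 b hb
  rw [hI a ha hbc, zero_mul]

/-- The four parts together. -/
theorem detect (hA : MotP.IsAbelian (Mot T)) :
    (∀ (M N : Mot T) (f : M ⟶ N), (∀ x, K.act M.p x = x → K.act f.1 x = 0 → x = 0) →
      Mono f ∧ ((∀ y, K.act N.p y = y → ∃ x, K.act M.p x = x ∧ K.act f.1 x = y) → IsIso f)) ∧
    (∀ (X Y : V) (i r : ℤ) (f : T.CH (X ⊗ Y)), f ∈ T.gr (X ⊗ Y) (T.dim X + r) →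
      (∀ x ∈ K.gr X (2 * i), K.act f x = 0 → x = 0) →
      (∀ a ∈ T.gr X i, T.corr f a = 0 → a = 0) ∧
        ((∀ y ∈ K.gr Y (2 * (i + r)), ∃ x, K.act f x = y) →
          ∀ b ∈ T.gr Y (i + r), ∃ a ∈ T.gr X i, T.corr f a = b)) ∧
    (∀ (X Y : V) (φ : Y ⟶ X) (i : ℤ), (∀ x ∈ K.gr X (2 * i), K.act (T.gr' φ) x = 0 → x = 0) →
      (∀ a ∈ T.gr X i, T.pull φ a = 0 → a = 0) ∧
        ((∀ y ∈ K.gr Y (2 * i), ∃ x, K.act (T.gr' φ) x = y) →
          ∀ b ∈ T.gr Y i, ∃ a ∈ T.gr X i, T.pull φ a = b)) ∧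
    (∀ (X : V) (l : T.CH X), l ∈ T.gr X 1 → K.HardLefschetz X l → ∀ (i : ℤ) (k : ℕ),
      2 * i + k = T.dim X →
        (∀ a ∈ T.gr X i, a * l ^ k = 0 → a = 0) ∧
        (∀ b ∈ T.gr X (i + k), ∃ a ∈ T.gr X i, a * l ^ k = b) ∧
        ((∀ a ∈ T.gr X i, (∀ c ∈ T.gr X i, T.deg (a * l ^ k * c) = 0) → a = 0) →
          ∀ b ∈ T.gr X (i + k), (∀ c ∈ T.gr X i, T.deg (b * c) = 0) → b = 0)) :=
  ⟨fun _ _ f hf => K.detect_motives hA f hf, fun _ _ i r f hf h => K.chow_main hA i r f hf h,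
    fun _ _ φ i h => K.chow_pull hA φ i h, fun _ l hl hL i k hik =>
    ⟨(K.chow_lefschetz hA l hl hL i k hik).1, (K.chow_lefschetz hA l hl hL i k hik).2,
      K.chow_num hA l hl hL i k hik⟩⟩

end Cohomology

end CHM
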