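import Pool.Agent.CHM.Tate

/-!
# Consequences of the abelianness of the category of Chow motives (MP_6c4da4_ag, project CHM)
-/

set_option autoImplicit false

open CategoryTheory MonoidalCategory CartesianMonoidalCategory Limits

universe v u w x

namespace CHM

variable {V : Type u} [Category.{v} V] [CartesianMonoidalCategory V]

namespace Cohomology

variable {T : ChowTheory.{v, u, w} V} {R : FrobeniusMaps T} (K : Cohomology.{v, u, w, x} T R)

/-- If the Chow motives form an abelian category, all Chow groups are finite-dimensional, and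
`dim CH^i(X) + dim {numerically trivial cycles of dimension i}` is at most the multiplicity of the
eigenvalue `q ^ i` of Frobenius on `H^{2i}(X)`. -/
theorem sectionsBound (hA : MotP.IsAbelian (Mot T)) (X : V) (i : ℤ) :
    Module.Finite ℚ (T.gr X i) ∧
      Module.finrank ℚ (T.gr X i) + Module.finrank ℚ (T.num X (T.dim X - i)) ≤ K.mult X i := by
  have h := Mot.sections_bound K.frobenius hA X i
  rwa [K.count_even] at h

theorem card_even (M : Mot T) :
    Multiset.card (K.frobenius.even M) = Module.finrank ℂ (K.evenPart M) := by
  change Multiset.card (K.onEven (R.onMot M)).charpoly.roots = _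
  rw [← (IsAlgClosed.splits _).natDegree_eq_card_roots, LinearMap.charpoly_natDegree]

theorem card_odd (M : Mot T) :
    Multiset.card (K.frobenius.odd M) = Module.finrank ℂ (K.oddPart M) := by
  change Multiset.card (K.onOdd (R.onMot M)).charpoly.roots = _
  rw [← (IsAlgClosed.splits _).natDegree_eq_card_roots, LinearMap.charpoly_natDegree]

/-- If the Chow motives form an abelian category, every Chow motive `M` is finite-dimensional in
the sense of Kimura and O'Sullivan: `M ≅ A ⊞ B` where the exterior power of `A` of degree
`dim H^even(M) + 1` and the symmetric power of `B` of degree `dim H^odd(M) + 1` vanish. -/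
theorem kimura (hA : MotP.IsAbelian (Mot T)) (M : Mot T) :
    ∃ A B : Mot T, Nonempty (M ≅ A ⊞ B) ∧
      _root_.Mot.ExteriorPowerZero A (Module.finrank ℂ (K.evenPart M) + 1) ∧
      _root_.Mot.SymmetricPowerZero B (Module.finrank ℂ (K.oddPart M) + 1) := by
  obtain ⟨hK, hCK, hcomp⟩ := hA
  have hc : ∀ {X Y : Mot T} (f : X ⟶ Y), IsIso (Abelian.coimageImageComparison f) :=
    fun f => hcomp _ _ f
  let _ : Abelian (Mot T) := Abelian.ofCoimageImageComparisonIsIso
  obtain ⟨A, B, ⟨e⟩, h1, h2⟩ := K.frobenius.toMot.kimura M
  have h1' : _root_.Mot.ExteriorPowerZero A (Multiset.card (K.frobenius.even M) + 1) := h1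
  have h2' : _root_.Mot.SymmetricPowerZero B (Multiset.card (K.frobenius.odd M) + 1) := h2
  rw [card_even] at h1'
  rw [card_odd] at h2'
  exact ⟨A, B, ⟨e ≪≫ biprod.uniqueUpToIso A B (BinaryBiproduct.isBilimit A B)⟩, h1', h2'⟩

end Cohomology

end CHM
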