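import Pool.Agent.CHM.Trace

/-!
# The Frobenius endomorphisms and their action on Chow motives (MP_6c4da4_ag, project CHM)
-/

set_option autoImplicit false

open CategoryTheory MonoidalCategory CartesianMonoidalCategory Limits

universe v u w

namespace CHM

variable {V : Type u} [Category.{v} V] [CartesianMonoidalCategory V]

/-- The Frobenius endomorphisms of the smooth projective varieties over the field with `q`
elements: `Fr X` is the identity on the topological space and the power `q` on functions.  They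
commute with all morphisms, `Fr X ^*` is the multiplication by `q ^ i` on `CH^i(X)`, and the degree
of `Fr X` is `q ^ dim X` (Fulton, Intersection Theory, Chapter 1). -/
structure FrobeniusMaps (T : ChowTheory.{v, u, w} V) where
  q : ℕ
  one_lt : 1 < q
  Fr : ∀ X : V, X ⟶ X
  natural : ∀ {X Y : V} (f : X ⟶ Y), f ≫ Fr Y = Fr X ≫ f
  pull_Fr : ∀ (X : V) (i : ℤ) (a : T.CH X), a ∈ T.gr X i → T.pull (Fr X) a = (q : ℚ) ^ i • a
  push_Fr : ∀ X : V, T.push (Fr X) 1 = (q : ℚ) ^ T.dim X • (1 : T.CH X)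

namespace FrobeniusMaps

variable {T : ChowTheory.{v, u, w} V} (R : FrobeniusMaps T)

theorem q_ne : (R.q : ℚ) ≠ 0 := by
  have := R.one_lt
  positivity

theorem Fr_unit : R.Fr (𝟙_ V) = 𝟙 (𝟙_ V) := by ext

theorem Fr_tensor (X Y : V) : R.Fr (X ⊗ Y) = (R.Fr X ⊗ₘ R.Fr Y) := by
  ext
  · rw [tensorHom_fst, R.natural]
  · rw [tensorHom_snd, R.natural]

/-- `(Fr × 1)_* (Fr × 1)^*` is the multiplication by the degree. -/
theorem push_pull (X Y : V) (b : T.CH (X ⊗ Y)) :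
    T.push (R.Fr X ▷ Y) (T.pull (R.Fr X ▷ Y) b) = (R.q : ℚ) ^ T.dim X • b := by
  have h1 : T.push (R.Fr X ▷ Y) 1 = (R.q : ℚ) ^ T.dim X • (1 : T.CH (X ⊗ Y)) := by
    have h := T.bc (P := X ⊗ Y) (fst X Y) (R.Fr X ▷ Y) (R.Fr X) (fst X Y) (snd X Y)
      (by simp; infer_instance) (by simp; infer_instance) (by simp) 1
    rw [T.pull_one, R.push_Fr, map_smul, T.pull_one] at h
    exact h.symm
  have h2 := T.projection (R.Fr X ▷ Y) 1 b
  rw [mul_one, h1, mul_smul_comm, mul_one] at h2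
  exact h2

/-- the key relation between `(Fr × 1)_*` and `(1 × Fr)^*` on `CH^i(X × Y)` -/
theorem push_eq (X Y : V) (i : ℤ) (f : T.CH (X ⊗ Y)) (hf : f ∈ T.gr (X ⊗ Y) i) :
    T.push (R.Fr X ▷ Y) f = (R.q : ℚ) ^ (T.dim X - i) • T.pull (X ◁ R.Fr Y) f := by
  have h1 : T.pull (R.Fr X ▷ Y) (T.pull (X ◁ R.Fr Y) f) = (R.q : ℚ) ^ i • f := by
    rw [← R.pull_Fr _ _ _ hf, ← T.pull_comp]
    refine T.pull_congr ?_ _
    rw [R.Fr_tensor]
    ext <;> simp
  have h2 := R.push_pull X Y (T.pull (X ◁ R.Fr Y) f)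
  rw [h1, map_smul] at h2
  rw [zpow_sub₀ R.q_ne, div_eq_mul_inv, mul_comm, mul_smul, ← h2, smul_smul,
    inv_mul_cancel₀ (zpow_ne_zero _ R.q_ne), one_smul]

/-- the graph of Frobenius commutes with correspondences up to the power `q` -/
theorem gr'_comm {X Y : V} {i : ℤ} {f : T.CH (X ⊗ Y)} (hf : f ∈ T.gr (X ⊗ Y) i) :
    T.cp (T.gr' (R.Fr X)) f = (R.q : ℚ) ^ (T.dim X - i) • T.cp f (T.gr' (R.Fr Y)) := by
  rw [T.gr'_cp, T.cp_gr', R.push_eq X Y i f hf]

/-- `Fr ^* p` commutes with `p`. -/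
theorem cp_p_gr' (M : Mot T) : T.cp (T.gr' (R.Fr M.X)) M.p = T.cp M.p (T.gr' (R.Fr M.X)) := by
  rw [R.gr'_comm M.deg, sub_self, zpow_zero, one_smul]

/-- The Frobenius endomorphism of the motive `(X, p, m)`: `q ^ (-m)` times the graph of Frobenius,
composed with `p`. -/
noncomputable def onMot (M : Mot T) : M ⟶ M :=
  ⟨(R.q : ℚ) ^ (-M.m) • T.cp M.p (T.gr' (R.Fr M.X)), by
    refine ⟨?_, ?_⟩
    · refine Submodule.smul_mem _ _ ?_
      have h1 := T.cp_mem M.deg (T.gr'_mem (R.Fr M.X))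
      have e : T.dim M.X + T.dim M.X - T.dim M.X = T.dim M.X + M.m - M.m := by ring
      rwa [e] at h1
    · rw [T.cp_smul, T.smul_cp, ← T.cp_assoc, M.idem, T.cp_assoc, R.cp_p_gr', ← T.cp_assoc,
        M.idem]⟩

theorem onMot_val (M : Mot T) :
    (R.onMot M).1 = (R.q : ℚ) ^ (-M.m) • T.cp M.p (T.gr' (R.Fr M.X)) := rfl

theorem onMot_natural {M N : Mot T} (f : M ⟶ N) : f ≫ R.onMot N = R.onMot M ≫ f := by
  apply Subtype.ext
  rw [Mot.comp_val, Mot.comp_val, onMot_val, onMot_val, T.cp_smul, T.smul_cp, ← T.cp_assoc,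
    Mot.cp_p f.2, T.cp_assoc, R.gr'_comm f.2.1, T.cp_smul, ← T.cp_assoc, Mot.p_cp f.2, smul_smul,
    ← zpow_add₀ R.q_ne]
  congr 2
  ring

theorem onMot_unit : R.onMot (𝟙_ (Mot T)) = 𝟙 (𝟙_ (Mot T)) := by
  apply Subtype.ext
  rw [onMot_val, Mot.id_val]
  change (R.q : ℚ) ^ (-0 : ℤ) • T.cp (T.diag (𝟙_ V)) (T.gr' (R.Fr (𝟙_ V))) = T.diag (𝟙_ V)
  rw [R.Fr_unit, T.gr'_id, T.cp_diag, neg_zero, zpow_zero, one_smul]

theorem onMot_tensor (M N : Mot T) : R.onMot (M ⊗ N) = (R.onMot M ⊗ₘ R.onMot N) := by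
  apply Subtype.ext
  rw [Mot.tensorHom_val, onMot_val, onMot_val, onMot_val]
  change (R.q : ℚ) ^ (-(M.m + N.m)) • T.cp (T.ten M.p N.p) (T.gr' (R.Fr (M.X ⊗ N.X))) = _
  have h1 : ∀ (r s : ℚ) (f : T.CH (M.X ⊗ M.X)) (g : T.CH (N.X ⊗ N.X)),
      T.ten (r • f) (s • g) = (r * s) • T.ten f g := by
    intro r s f g
    unfold ChowTheory.ten
    rw [map_smul, map_smul, smul_mul_smul_comm]
  rw [h1, ← T.ten_cp, T.ten_gr', R.Fr_tensor, ← zpow_add₀ R.q_ne]
  congr 2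
  ring

/-- The Frobenius endomorphism as a natural endomorphism of the identity functor. -/
noncomputable def F : 𝟭 (Mot T) ⟶ 𝟭 (Mot T) where
  app := R.onMot
  naturality _ _ f := R.onMot_natural f

theorem F_app (M : Mot T) : R.F.app M = R.onMot M := rfl

end FrobeniusMaps

end CHM
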