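import Pool.Agent.CHM.Bound
import Pool.Agent.Mot73.Main

/-!
# Rational and numerical equivalence in the abelian case (MP_6c4da4_ag, project CHM)
-/

set_option autoImplicit false

open CategoryTheory MonoidalCategory CartesianMonoidalCategory Limits

universe v u w

namespace CHM

section general

open _root_.Mot MotP.M73

variable {C : Type u} [Category.{v} C] [Preadditive C] [Linear ℚ C] [MonoidalCategory C]
  [SymmetricCategory C] [MonoidalPreadditive C] [MonoidalLinear ℚ C] [RightRigidCategory C]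
  (W : MotP.Frobenius C)

theorem t_iso {X Y : C} (e : X ≅ Y) (n : ℕ) : t W Y n = t W X n := by
  rw [t_retract W e.inv e.hom e.inv_hom_id, e.hom_inv_id, Category.id_comp]
  rfl

/-- isomorphic objects have the same multiplicity of the eigenvalue `1` -/
theorem mult_iso {X Y : C} (e : X ≅ Y) : mult W X = mult W Y := by
  classical
  obtain ⟨P, h1, hP⟩ := exP ((W.even X + W.odd X + (W.even Y + W.odd Y)).toFinset)
  have e1 := mult_eq W X P h1 (fun z hz => hP z (by simp [hz])) (fun z hz => hP z (by simp [hz]))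
  have e2 := mult_eq W Y P h1 (fun z hz => hP z (by simp [hz])) (fun z hz => hP z (by simp [hz]))
  have h2 : (mult W X : ℂ) = mult W Y := by
    rw [← e1, ← e2]
    refine Finset.sum_congr rfl (fun k _ => ?_)
    rw [t_iso W e]
  exact_mod_cast h2

/-- sections of isomorphic objects -/
def secCongr {X Y : C} (e : X ≅ Y) : (𝟙_ C ⟶ X) ≃ₗ[ℚ] (𝟙_ C ⟶ Y) where
  toFun f := f ≫ e.hom
  invFun f := f ≫ e.inv
  left_inv f := by simp
  right_inv f := by simp
  map_add' f g := by simp
  map_smul' r f := by simp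

/-- isomorphic objects have the same dimension of the space of sections modulo the numerically
trivial ones -/
theorem rank_iso {X Y : C} (e : X ≅ Y) :
    Module.rank ℚ ((𝟙_ C ⟶ X) ⧸ MotP.ntSections X) =
      Module.rank ℚ ((𝟙_ C ⟶ Y) ⧸ MotP.ntSections Y) := by
  refine (Submodule.Quotient.equiv (MotP.ntSections X) (MotP.ntSections Y)
    (secCongr e) ?_).rank_eq
  ext f
  constructor
  · rintro ⟨f', hf', rfl⟩ g
    have h1 := hf' (e.hom ≫ g)
    change (f' ≫ e.hom) ≫ g = 0
    rw [Category.assoc]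
    exact h1
  · intro hf
    refine ⟨f ≫ e.inv, ?_, (secCongr e).right_inv f⟩
    intro g
    have h1 := hf (e.inv ≫ g)
    rw [Category.assoc]
    exact h1

theorem tate_unit [IsIdempotentComplete C] :
    Module.rank ℚ ((𝟙_ C ⟶ 𝟙_ C) ⧸ MotP.ntSections (𝟙_ C)) = (mult W (𝟙_ C) : ℕ) := by
  refine le_antisymm (rank_le W _) ?_
  rw [mult_unit, Nat.cast_one, Cardinal.one_le_iff_ne_zero]
  rw [← pos_iff_ne_zero, rank_pos_iff_nontrivial]
  refine Submodule.Quotient.nontrivial_iff.mpr ?_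
  intro h
  have h1 : 𝟙 (𝟙_ C) ∈ MotP.ntSections (𝟙_ C) := by
    rw [h]
    exact Submodule.mem_top
  have h2 := h1 (𝟙 (𝟙_ C))
  rw [Category.comp_id] at h2
  exact W.unit_ne h2

/-- invertible objects have the Tate property -/
theorem tateSquare_of_inv [IsIdempotentComplete C] {L : C} (e : L ⊗ Lᘁ ≅ 𝟙_ C) :
    Mot84.TateSquare W L := by
  unfold Mot84.TateSquare
  rw [rank_iso e, tate_unit W]
  congr 1
  exact (mult_iso W e).symm

end general

variable {V : Type u} [Category.{v} V] [CartesianMonoidalCategory V]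

namespace Mot

variable {T : ChowTheory.{v, u, w} V}

theorem mk_congr {X : V} {p p' : T.CH (X ⊗ X)} {m m' : ℤ} (hp : p = p') (hm : m = m')
    (deg : p ∈ T.gr (X ⊗ X) (T.dim X)) (idem : T.cp p p = p)
    (deg' : p' ∈ T.gr (X ⊗ X) (T.dim X)) (idem' : T.cp p' p' = p') :
    (⟨X, p, m, deg, idem⟩ : Mot T) = ⟨X, p', m', deg', idem'⟩ := by
  subst hp
  subst hm
  rfl

/-- `h(X)(m) ⊗ h(Y)(n) = h(X × Y)(m + n)` -/
theorem h_tensor (X Y : V) (m n : ℤ) : h T X m ⊗ h T Y n = h T (X ⊗ Y) (m + n) :=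
  mk_congr (T.ten_diag X Y) rfl _ _ _ _

/-- `h(X)(m) ⊗ h(X)(m)' = h(X × X)(dim X)` -/
theorem h_square (X : V) (m : ℤ) : h T X m ⊗ (h T X m)ᘁ = h T (X ⊗ X) (T.dim X) := by
  refine mk_congr ?_ ?_ _ _ _ _
  · change T.ten (T.diag X) (T.tr (T.diag X)) = _
    rw [T.tr_diag, T.ten_diag]
  · change m + (T.dim X - m) = T.dim X
    ring

/-- isomorphic varieties have isomorphic motives -/
def hIso {X Y : V} (e : Y ≅ X) {m n : ℤ} (hm : m = n) : h T X m ≅ h T Y n :=
  gIso (M := h T X m) (N := h T Y n) e hm (by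
    change T.cp (T.diag X) (T.gr' e.hom) = T.cp (T.gr' e.hom) (T.diag Y)
    rw [T.diag_cp, T.cp_diag])

/-- The numerically trivial sections of `h(X)(i)` are the numerically trivial cycles. -/
theorem nt_iff {X : V} {i : ℤ} (a : T.gr X i) :
    secEquiv T X i a ∈ MotP.ntSections (h T X i) ↔ a ∈ T.num X i := by
  constructor
  · intro ha b hb
    have h1 := ha (cosecEquiv T X i ⟨b, hb⟩)
    rw [sec_cosec] at h1
    by_contra hne
    have h2 : 𝟙 (𝟙_ (Mot T)) = 0 := by
      rw [← one_smul ℚ (𝟙 (𝟙_ (Mot T))), ← inv_mul_cancel₀ hne, mul_smul, h1, smul_zero]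
    exact unit_ne h2
  · intro ha g
    obtain ⟨b, rfl⟩ := (cosecEquiv T X i).surjective g
    rw [sec_cosec, ha b.1 b.2, zero_smul]

theorem rank_num (X : V) (i : ℤ) :
    Module.rank ℚ ((𝟙_ (Mot T) ⟶ h T X i) ⧸ MotP.ntSections (h T X i)) =
      Module.rank ℚ (T.gr X i ⧸ T.num X i) := by
  refine (Submodule.Quotient.equiv (T.num X i) (MotP.ntSections (h T X i))
    (secEquiv T X i) ?_).rank_eq.symm
  ext f
  constructor
  · rintro ⟨a, ha, rfl⟩
    exact (nt_iff a).2 ha
  · intro hf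
    obtain ⟨a, rfl⟩ := (secEquiv T X i).surjective f
    exact ⟨a, (nt_iff a).1 hf, rfl⟩

/-- The Tate property for `h(X)(m) ⊗ h(X)(m)'` is the one of `X × X` in codimension `dim X`. -/
theorem tateSquare_iff (W : MotP.Frobenius (Mot T)) (X : V) (m : ℤ) :
    Mot84.TateSquare W (h T X m) ↔
      Module.rank ℚ (T.gr (X ⊗ X) (T.dim X) ⧸ T.num (X ⊗ X) (T.dim X)) =
        ((W.even (h T (X ⊗ X) (T.dim X))).count 1 : ℕ) := by
  unfold Mot84.TateSquare
  rw [h_square, rank_num]

/-- The Tate twists of the unit are generated. -/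
theorem gen_twist (W : MotP.Frobenius (Mot T)) (i : ℤ) :
    Mot73.Generated W (h T (𝟙_ V) i) := by
  refine Mot73.Generated.tate _ (tateSquare_of_inv W ?_)
  exact eqToIso (h_square (𝟙_ V) i) ≪≫ hIso (λ_ (𝟙_ V)).symm T.dim_unit

theorem gen_iso {W : MotP.Frobenius (Mot T)} {M N : Mot T} (e : M ≅ N)
    (hM : Mot73.Generated W M) : Mot73.Generated W N :=
  Mot73.Generated.summand M N e.inv e.hom e.inv_hom_id hM

theorem gen_shift {W : MotP.Frobenius (Mot T)} {X : V} {m : ℤ}
    (hX : Mot73.Generated W (h T X m)) (n : ℤ) : Mot73.Generated W (h T X n) := by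
  have h1 := Mot73.Generated.tensor _ _ hX (gen_twist W (n - m))
  rw [h_tensor] at h1
  exact gen_iso (hIso (ρ_ X).symm (by ring)) h1

end Mot

end CHM
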