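import Pool.Agent.CHM.Final
import Pool.Agent.GGap.FinC

/-!
# The growth of Chow groups (MP_6c4da4_ag, project CHM)
-/

set_option autoImplicit false

open CategoryTheory MonoidalCategory CartesianMonoidalCategory Limits

universe v u w x

namespace CHM

section general

open _root_.Mot MotP.M73

variable {C : Type u} [Category.{v} C] [Preadditive C] [Linear ℚ C] [MonoidalCategory C]
  [SymmetricCategory C] [MonoidalPreadditive C] [MonoidalLinear ℚ C] [RightRigidCategory C]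
  [IsIdempotentComplete C] (W : MotP.Frobenius C)

omit [SymmetricCategory C] [MonoidalPreadditive C] [MonoidalLinear ℚ C] [RightRigidCategory C]
  [IsIdempotentComplete C] in
/-- the sections modulo the numerically trivial ones are subadditive -/
theorem rank_split {X Y Z : C} (i : Y ⟶ X) (p : X ⟶ Y) (j : Z ⟶ X) (q : X ⟶ Z)
    (hs : p ≫ i + q ≫ j = 𝟙 X) :
    Module.rank ℚ ((𝟙_ C ⟶ X) ⧸ MotP.ntSections X) ≤
      Module.rank ℚ ((𝟙_ C ⟶ Y) ⧸ MotP.ntSections Y) +
        Module.rank ℚ ((𝟙_ C ⟶ Z) ⧸ MotP.ntSections Z) := by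
  have hY : MotP.ntSections X ≤ (MotP.ntSections Y).comap (Linear.rightComp ℚ (𝟙_ C) p) := by
    intro h hh k
    have e1 : (h ≫ p) ≫ k = h ≫ (p ≫ k) := Category.assoc _ _ _
    exact e1.trans (hh (p ≫ k))
  have hZ : MotP.ntSections X ≤ (MotP.ntSections Z).comap (Linear.rightComp ℚ (𝟙_ C) q) := by
    intro h hh k
    have e1 : (h ≫ q) ≫ k = h ≫ (q ≫ k) := Category.assoc _ _ _
    exact e1.trans (hh (q ≫ k))
  let φ : ((𝟙_ C ⟶ X) ⧸ MotP.ntSections X) →ₗ[ℚ]
      ((𝟙_ C ⟶ Y) ⧸ MotP.ntSections Y) × ((𝟙_ C ⟶ Z) ⧸ MotP.ntSections Z) :=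
    LinearMap.prod (Submodule.mapQ _ _ _ hY) (Submodule.mapQ _ _ _ hZ)
  have hφ : Function.Injective φ := by
    rw [injective_iff_map_eq_zero]
    intro y hy
    obtain ⟨h, rfl⟩ := Submodule.Quotient.mk_surjective _ y
    have h1 : Submodule.mapQ _ _ _ hY (Submodule.Quotient.mk h) = 0 := congrArg Prod.fst hy
    have h2 : Submodule.mapQ _ _ _ hZ (Submodule.Quotient.mk h) = 0 := congrArg Prod.snd hy
    rw [Submodule.mapQ_apply, Submodule.Quotient.mk_eq_zero] at h1 h2
    rw [Submodule.Quotient.mk_eq_zero]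
    intro k
    have e1 : (h ≫ p) ≫ (i ≫ k) = 0 := h1 (i ≫ k)
    have e2 : (h ≫ q) ≫ (j ≫ k) = 0 := h2 (j ≫ k)
    have e3 : h ≫ k = (h ≫ p) ≫ (i ≫ k) + (h ≫ q) ≫ (j ≫ k) := by
      calc h ≫ k = (h ≫ (p ≫ i + q ≫ j)) ≫ k := by rw [hs, Category.comp_id]
        _ = _ := by
          simp only [Preadditive.comp_add, Preadditive.add_comp, Category.assoc]
    rw [e3, e1, e2, add_zero]
  refine (LinearMap.rank_le_of_injective φ hφ).trans ?_
  rw [rank_prod']

/-- The Tate property passes to direct summands. -/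
theorem tate_summand {X Y : C} (i : Y ⟶ X) (p : X ⟶ Y) (h : i ≫ p = 𝟙 Y)
    (hX : Module.rank ℚ ((𝟙_ C ⟶ X) ⧸ MotP.ntSections X) = ((W.even X).count 1 : ℕ)) :
    Module.rank ℚ ((𝟙_ C ⟶ Y) ⧸ MotP.ntSections Y) = ((W.even Y).count 1 : ℕ) := by
  have h4 : (𝟙 X - p ≫ i) ≫ (𝟙 X - p ≫ i) = 𝟙 X - p ≫ i := by
    rw [Preadditive.sub_comp, Preadditive.comp_sub, Preadditive.comp_sub, Category.id_comp,
      Category.comp_id, Category.id_comp, Category.assoc, ← Category.assoc i p, h,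
      Category.id_comp]
    abel
  obtain ⟨Z, j, q, h5, h6⟩ := IsIdempotentComplete.idempotents_split X _ h4
  have hs : p ≫ i + q ≫ j = 𝟙 X := by
    rw [h6]
    abel
  have h7 := mult_add W (t_split W i p h j q h5 hs)
  have h8 := rank_split i p j q hs
  have h9 := rank_le W Y
  have h10 := rank_le W Z
  change _ = ((mult W X : ℕ) : Cardinal) at hX
  change _ = ((mult W Y : ℕ) : Cardinal)
  refine le_antisymm h9 ?_
  rw [hX, h7] at h8
  obtain ⟨a, ha⟩ := Cardinal.lt_aleph0.1 (lt_of_le_of_lt h9 Cardinal.natCast_lt_aleph0)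
  obtain ⟨b, hb⟩ := Cardinal.lt_aleph0.1 (lt_of_le_of_lt h10 Cardinal.natCast_lt_aleph0)
  rw [ha, hb] at h8
  rw [ha] at h9 ⊢
  rw [hb] at h10
  norm_cast at h8 h9 h10 ⊢
  omega

end general

variable {V : Type u} [Category.{v} V] [CartesianMonoidalCategory V]

/-- The power `X^r` of a variety. -/
def pow (X : V) : ℕ → V
  | 0 => 𝟙_ V
  | r + 1 => pow X r ⊗ X

namespace Mot

variable {T : ChowTheory.{v, u, w} V}

/-- `h(X)^(⊗ r) = h(X^r)` -/
theorem T_h (X : V) (r : ℕ) : _root_.Mot.T (h T X 0) r = h T (pow X r) 0 := by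
  induction r with
  | zero => rfl
  | succ r ih =>
    change _root_.Mot.T (h T X 0) r ⊗ h T X 0 = _
    rw [ih, h_tensor]
    rfl

/-- endomorphisms of `h(X)(m)` are the correspondences of degree `0` -/
def endEquiv (T : ChowTheory.{v, u, w} V) (X : V) (m : ℤ) :
    T.gr (X ⊗ X) (T.dim X) ≃ₗ[ℚ] (h T X m ⟶ h T X m) where
  toFun a := ⟨a.1, mem_hom_h.2 (T.gr_congr (by ring) a.2)⟩
  map_add' a b := rfl
  map_smul' r a := rfl
  invFun f := ⟨f.1, T.gr_congr (by ring) (mem_hom_h.1 f.2)⟩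
  left_inv a := rfl
  right_inv f := rfl

theorem numTrivial_end {X : V} {m : ℤ} (a : T.gr (X ⊗ X) (T.dim X)) :
    MotP.NumTrivial (endEquiv T X m a) ↔ a ∈ T.num (X ⊗ X) (T.dim X) := by
  rw [numTrivial_iff]
  constructor
  · intro h b hb
    refine h b ?_
    refine T.gr_congr ?_ hb
    change T.dim (X ⊗ X) - T.dim X = T.dim (X ⊗ X) - (T.dim X + m - m)
    ring
  · intro h b hb
    refine h b ?_
    refine T.gr_congr ?_ hb
    change T.dim (X ⊗ X) - (T.dim X + m - m) = T.dim (X ⊗ X) - T.dim X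
    ring

end Mot

namespace ChowTheory

variable (T : ChowTheory.{v, u, w} V)

/-- The iterated composition `f ∘ ... ∘ f` (`n` factors) of a correspondence from `X` to `X`. -/
def cpow {X : V} (f : T.CH (X ⊗ X)) : ℕ → T.CH (X ⊗ X)
  | 0 => T.diag X
  | n + 1 => T.cp (cpow f n) f

end ChowTheory

namespace Mot

variable {T : ChowTheory.{v, u, w} V}

theorem pow_val {X : V} {m : ℤ} (f : End (h T X m)) (n : ℕ) :
    (f ^ n : End (h T X m)).1 = T.cpow f.1 n := by
  induction n with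
  | zero => rfl
  | succ n ih =>
    rw [pow_succ']
    change T.cp (f ^ n : End (h T X m)).1 f.1 = T.cp (T.cpow f.1 n) f.1
    rw [ih]

end Mot

namespace Cohomology

variable {T : ChowTheory.{v, u, w} V} {R : FrobeniusMaps T} (K : Cohomology.{v, u, w, x} T R)

/-- The sum of the Betti numbers of `X` in even degrees. -/
noncomputable def evenBetti (X : V) : ℕ := Module.finrank ℂ (K.evenPart (Mot.h T X 0))

/-- The sum of the Betti numbers of `X` in odd degrees. -/
noncomputable def oddBetti (X : V) : ℕ := Module.finrank ℂ (K.oddPart (Mot.h T X 0))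

/-- The inequality
`(r + 1) ^ (e ^ 2 + o ^ 2 + 4) * dim CH^(r d)(X^r × X^r) < (e + o + 1) ^ (2 r)`, where `d` is the
dimension of `X` and `e`, `o` are the sums of the Betti numbers in even and in odd degrees. -/
def Small (X : V) (r : ℕ) : Prop :=
  (((r + 1) ^ (K.evenBetti X ^ 2 + K.oddBetti X ^ 2 + 4) : ℕ) : Cardinal.{w}) *
    Module.rank ℚ (T.gr (pow X r ⊗ pow X r) (T.dim (pow X r))) <
      (((K.evenBetti X + K.oddBetti X + 1) ^ (2 * r) : ℕ) : Cardinal.{w})

theorem inter_zero (M : Mot T) : K.frobenius.even M ∩ K.frobenius.odd M = 0 := by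
  ext z
  rw [Multiset.count_inter, Multiset.count_zero]
  by_cases h1 : z ∈ K.frobenius.even M
  · have h2 : (K.frobenius.odd M).count z = 0 :=
      Multiset.count_eq_zero.2 (fun h2 => K.even_odd_disjoint h1 h2)
    rw [h2, min_zero]
  · rw [Multiset.count_eq_zero.2 h1, zero_min]

theorem evenNumber_eq (M : Mot T) : MotP.GGap.evenNumber K.frobenius M =
    Module.finrank ℂ (K.evenPart M) := by
  rw [← card_even, MotP.GGap.evenNumber]
  congr 1
  ext z
  rw [Multiset.count_sub]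
  by_cases h1 : z ∈ K.frobenius.even M
  · have h2 : (K.frobenius.odd M).count z = 0 :=
      Multiset.count_eq_zero.2 (fun h2 => K.even_odd_disjoint h1 h2)
    rw [h2, Nat.sub_zero]
  · rw [Multiset.count_eq_zero.2 h1, Nat.zero_sub]

theorem oddNumber_eq (M : Mot T) : MotP.GGap.oddNumber K.frobenius M =
    Module.finrank ℂ (K.oddPart M) := by
  rw [← card_odd, MotP.GGap.oddNumber]
  congr 1
  ext z
  rw [Multiset.count_sub]
  by_cases h1 : z ∈ K.frobenius.odd M
  · have h2 : (K.frobenius.even M).count z = 0 :=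
      Multiset.count_eq_zero.2 (fun h2 => K.even_odd_disjoint h2 h1)
    rw [h2, Nat.sub_zero]
  · rw [Multiset.count_eq_zero.2 h1, Nat.zero_sub]

theorem small_iff (X : V) (r : ℕ) :
    K.Small X r ↔ MotP.GGap.Small K.frobenius (Mot.h T X 0) r := by
  unfold Small MotP.GGap.Small MotP.GGap.number
  rw [evenNumber_eq, oddNumber_eq, Mot.T_h, ← (Mot.endEquiv T (pow X r) 0).rank_eq]
  rfl

/-- the sum of the Betti numbers -/
theorem betti_add (X : V) : K.evenBetti X + K.oddBetti X = Module.finrank ℂ (K.H X) := by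
  rw [evenBetti, oddBetti, ← Submodule.finrank_sup_add_finrank_inf_eq]
  have h1 : K.evenPart (Mot.h T X 0) ⊓ K.oddPart (Mot.h T X 0) = ⊥ := by
    rw [eq_bot_iff]
    rintro y ⟨h1, h2⟩
    have h3 : y = -y := by
      rw [← (K.mem_oddPart.1 h2).2]
      exact (K.mem_evenPart.1 h1).2.symm
    rw [Submodule.mem_bot]
    have h4 : (2 : ℂ) • y = 0 := by
      rw [two_smul]
      nth_rewrite 1 [h3]
      exact neg_add_cancel y
    rcases smul_eq_zero.1 h4 with h5 | h5
    · norm_num at h5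
    · exact h5
  have h2 : K.evenPart (Mot.h T X 0) ⊔ K.oddPart (Mot.h T X 0) = ⊤ := by
    rw [eq_top_iff]
    intro y _
    have h7 : y = (2⁻¹ : ℂ) • (y + K.sgn X y) + (2⁻¹ : ℂ) • (y - K.sgn X y) := by
      rw [← smul_add, add_add_sub_cancel, ← two_smul ℂ y, smul_smul]
      norm_num
    rw [h7]
    refine Submodule.add_mem_sup ?_ ?_
    · rw [mem_evenPart]
      refine ⟨K.act_diag X _, ?_⟩
      change K.sgn X _ = _
      rw [map_smul, map_add, K.sgn_sgn, add_comm]
    · rw [mem_oddPart]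
      refine ⟨K.act_diag X _, ?_⟩
      change K.sgn X _ = _
      rw [map_smul, map_sub, K.sgn_sgn, ← smul_neg, neg_sub]
  rw [h1, h2, finrank_bot, add_zero, finrank_top]

theorem mult_le (X : V) (i : ℤ) : K.mult X i ≤ Module.finrank ℂ (K.H X) := by
  have h1 : K.mult X i ≤ (K.frob X (2 * i)).charpoly.natDegree := by
    unfold mult
    rw [← Polynomial.count_roots]
    exact (Multiset.count_le_card _ _).trans (Polynomial.card_roots' _)
  rw [LinearMap.charpoly_natDegree] at h1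
  exact h1.trans (Submodule.finrank_le _)

theorem finrank_tensor (X Y : V) : Module.finrank ℂ (K.H (X ⊗ Y)) =
    Module.finrank ℂ (K.H X) * Module.finrank ℂ (K.H Y) := by
  rw [← (K.kunneth X Y).finrank_eq, Module.finrank_tensorProduct]

theorem number_eq (X : V) : MotP.GGap.number K.frobenius (Mot.h T X 0) =
    Module.finrank ℂ (K.H X) := by
  rw [← betti_add, MotP.GGap.number, evenNumber_eq, oddNumber_eq]
  rfl

theorem finrank_one : Module.finrank ℂ (K.H (𝟙_ V)) = 1 := by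
  rw [← K.number_eq (𝟙_ V)]
  exact (MotP.GGap.t_TVA (Mot T) (MotP.GGap.ofFrobenius K.frobenius)).2.1

theorem finrank_pow (X : V) (r : ℕ) :
    Module.finrank ℂ (K.H (pow X r)) = Module.finrank ℂ (K.H X) ^ r := by
  induction r with
  | zero =>
    rw [pow_zero]
    exact K.finrank_one
  | succ r ih =>
    rw [pow_succ, ← ih]
    exact K.finrank_tensor _ _

/-- a bound for the dimensions of the Chow groups implies the inequality `Small` -/
theorem small_of_bound (c : ℕ) (h : ∀ (X : V) (i : ℤ),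
    Module.rank ℚ (T.gr X i) ≤ ((c * Module.finrank ℂ (K.H X) : ℕ) : Cardinal.{w})) (X : V) :
    ∃ r, 0 < r ∧ K.Small X r := by
  obtain ⟨r, hr, hr2⟩ := MotP.GGap.t_GRW c (K.evenBetti X ^ 2 + K.oddBetti X ^ 2 + 4)
    (K.evenBetti X + K.oddBetti X)
  refine ⟨r, hr, ?_⟩
  have h5 : Module.rank ℚ (T.gr (pow X r ⊗ pow X r) (T.dim (pow X r))) ≤
      ((c * (K.evenBetti X + K.oddBetti X) ^ (2 * r) : ℕ) : Cardinal.{w}) := by
    refine (h _ _).trans ?_
    rw [finrank_tensor, finrank_pow, betti_add, ← pow_add, two_mul]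
  unfold Small
  refine lt_of_le_of_lt (mul_le_mul_right h5 _) ?_
  have h6 : (r + 1) ^ (K.evenBetti X ^ 2 + K.oddBetti X ^ 2 + 4) *
      (c * (K.evenBetti X + K.oddBetti X) ^ (2 * r)) <
        (K.evenBetti X + K.oddBetti X + 1) ^ (2 * r) := by
    calc _ = c * (r + 1) ^ (K.evenBetti X ^ 2 + K.oddBetti X ^ 2 + 4) *
          (K.evenBetti X + K.oddBetti X) ^ (2 * r) := by ring
      _ < _ := hr2
  exact_mod_cast h6

/-- The gap theorem: numerically trivial correspondences are nilpotent. -/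
theorem nilpotent_of_small (X : V) (r : ℕ) (hr : 0 < r) (h : K.Small X r)
    (f : T.gr (X ⊗ X) (T.dim X)) (hf : f ∈ T.num (X ⊗ X) (T.dim X)) :
    ∃ n, T.cpow f.1 n = 0 := by
  obtain ⟨n, hn⟩ := MotP.GGap.gap K.frobenius (Mot.h T X 0) r hr ((K.small_iff X r).1 h)
    (Mot.endEquiv T X 0 f) ((Mot.numTrivial_end f).2 hf)
  refine ⟨n, ?_⟩
  have h1 := congrArg Subtype.val hn
  rw [Mot.pow_val] at h1
  exact h1

/-- the strong form of the Tate conjecture for all varieties gives it for all motives -/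
theorem strongTate (hT : ∀ (X : V) (i : ℤ),
    Module.rank ℚ (T.gr X i ⧸ T.num X i) = ((K.mult X i : ℕ) : Cardinal.{w})) :
    K.frobenius.StrongTate := by
  intro M
  obtain ⟨i, p, h⟩ := Mot.retract_h M
  refine tate_summand K.frobenius i p h ?_
  rw [Mot.rank_num, hT, count_even]

/-- if the numerically trivial correspondences of all varieties are nilpotent and the groups of
correspondences are finite-dimensional, then the same holds for all motives -/
theorem nil_motives (h : ∀ (X : V) (f : T.gr (X ⊗ X) (T.dim X)),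
    f ∈ T.num (X ⊗ X) (T.dim X) → ∃ n, T.cpow f.1 n = 0) (M : Mot T) (f : End M)
    (hf : MotP.NumTrivial (f : M ⟶ M)) : IsNilpotent f := by
  obtain ⟨i, p, hip⟩ := Mot.retract_h M
  have hg : MotP.NumTrivial (p ≫ (f : M ⟶ M) ≫ i) := by
    intro g
    have h1 := hf (i ≫ g ≫ p)
    rw [Mot.trace_zero_iff] at h1 ⊢
    have e1 : ((p ≫ (f : M ⟶ M) ≫ i) ≫ g).1 = T.cp p.1 ((f : M ⟶ M) ≫ i ≫ g).1 := by
      rw [← Mot.comp_val]
      congr 1
      simp only [Category.assoc]
    have e2 : ((f : M ⟶ M) ≫ i ≫ g ≫ p).1 = T.cp ((f : M ⟶ M) ≫ i ≫ g).1 p.1 := by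
      rw [← Mot.comp_val]
      congr 1
      simp only [Category.assoc]
    rw [e2] at h1
    rw [e1, T.trc_comm]
    exact h1
  obtain ⟨a, ha⟩ := (Mot.endEquiv T M.X M.m).surjective (p ≫ (f : M ⟶ M) ≫ i)
  rw [← ha, Mot.numTrivial_end] at hg
  obtain ⟨n, hn⟩ := h M.X a hg
  obtain ⟨G, hG⟩ : ∃ G : End (Mot.h T M.X M.m), (G : Mot.h T M.X M.m ⟶ Mot.h T M.X M.m) =
    Mot.endEquiv T M.X M.m a := ⟨_, rfl⟩
  have h1 : G ^ n = 0 := by
    apply Subtype.ext
    rw [Mot.pow_val]
    have h2 : G.1 = a.1 := congrArg Subtype.val hG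
    rw [h2]
    exact hn
  have hG2 : (G : Mot.h T M.X M.m ⟶ Mot.h T M.X M.m) = p ≫ (f : M ⟶ M) ≫ i := hG.trans ha
  have key : ∀ n : ℕ, (f ^ (n + 1) : End M) =
      (i ≫ (G ^ n : End (Mot.h T M.X M.m)) ≫ p) ≫ (f : M ⟶ M) := by
    intro n
    induction n with
    | zero =>
      have e : (G ^ 0 : End (Mot.h T M.X M.m)) = 𝟙 _ := pow_zero _
      rw [e, Category.id_comp, hip, Category.id_comp, zero_add, pow_one]
    | succ n ih =>
      have e1 : (f ^ (n + 1 + 1) : End M) = (f ^ (n + 1) : End M) ≫ (f : M ⟶ M) :=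
        pow_succ' f (n + 1)
      have e2 : (G ^ (n + 1) : End (Mot.h T M.X M.m)) =
          (G ^ n : End (Mot.h T M.X M.m)) ≫ (G : Mot.h T M.X M.m ⟶ Mot.h T M.X M.m) :=
        pow_succ' G n
      rw [e1, e2, ih, hG2]
      simp only [Category.assoc]
      rw [← Category.assoc i p, hip, Category.id_comp]
  refine ⟨n + 1, ?_⟩
  rw [key n, h1]
  change (i ≫ (0 : Mot.h T M.X M.m ⟶ Mot.h T M.X M.m) ≫ p) ≫ (f : M ⟶ M) = (0 : M ⟶ M)
  rw [Limits.zero_comp, Limits.comp_zero, Limits.zero_comp]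

theorem finite_motives (h : ∀ X : V, Module.Finite ℚ (T.gr (X ⊗ X) (T.dim X))) (M : Mot T) :
    Module.Finite ℚ (M ⟶ M) := by
  obtain ⟨i, p, hip⟩ := Mot.retract_h M
  have h1 := h M.X
  have h2 : Module.Finite ℚ (Mot.h T M.X M.m ⟶ Mot.h T M.X M.m) :=
    Module.Finite.equiv (Mot.endEquiv T M.X M.m)
  let φ : (M ⟶ M) →ₗ[ℚ] (Mot.h T M.X M.m ⟶ Mot.h T M.X M.m) :=
    { toFun := fun f => p ≫ f ≫ i
      map_add' := fun f g => by rw [Preadditive.add_comp, Preadditive.comp_add]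
      map_smul' := fun r f => by rw [Linear.smul_comp, Linear.comp_smul, RingHom.id_apply] }
  refine Module.Finite.of_injective φ ?_
  intro f g hfg
  have h3 : i ≫ (p ≫ f ≫ i) ≫ p = i ≫ (p ≫ g ≫ i) ≫ p := by
    change i ≫ φ f ≫ p = i ≫ φ g ≫ p
    rw [hfg]
  simp only [Category.assoc] at h3
  rw [hip, Category.comp_id, Category.comp_id, ← Category.assoc, ← Category.assoc i p, hip,
    Category.id_comp, Category.id_comp] at h3
  exact h3

/-- The growth criterion for the abelianness of the category of Chow motives. -/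
theorem growth :
    (MotP.IsAbelian (Mot T) → ∀ X : V,
      (∀ i, Module.Finite ℚ (T.gr X i) ∧ Module.finrank ℚ (T.gr X i) +
        Module.finrank ℚ (T.num X (T.dim X - i)) ≤ K.mult X i) ∧ ∃ r, 0 < r ∧ K.Small X r) ∧
    (∀ (X : V) (r : ℕ), 0 < r → K.Small X r → ∀ f ∈ T.num (X ⊗ X) (T.dim X),
      ∃ n, T.cpow f.1 n = 0) ∧
    ((∀ (X : V) (i : ℤ),
        Module.rank ℚ (T.gr X i ⧸ T.num X i) = ((K.mult X i : ℕ) : Cardinal.{w})) →
      [MotP.IsAbelian (Mot T),
        ∃ c : ℕ, ∀ (X : V) (i : ℤ),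
          Module.rank ℚ (T.gr X i) ≤ ((c * Module.finrank ℂ (K.H X) : ℕ) : Cardinal.{w}),
        ∀ X : V, ∃ r, 0 < r ∧ K.Small X r].TFAE) := by
  have h13 : MotP.IsAbelian (Mot T) → ∀ (X : V) (i : ℤ),
      Module.rank ℚ (T.gr X i) ≤ ((1 * Module.finrank ℂ (K.H X) : ℕ) : Cardinal.{w}) := by
    intro hA X i
    obtain ⟨h1, h2⟩ := K.sectionsBound hA X i
    rw [← Module.finrank_eq_rank, one_mul]
    have h3 := K.mult_le X i
    exact_mod_cast (Nat.le_trans (Nat.le_add_right _ _) h2).trans h3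
  refine ⟨fun hA X => ⟨K.sectionsBound hA X, K.small_of_bound 1 (h13 hA) X⟩,
    fun X r hr hs f hf => K.nilpotent_of_small X r hr hs f hf, fun hT => ?_⟩
  tfae_have 1 → 2 := fun hA => ⟨1, h13 hA⟩
  tfae_have 2 → 3 := fun ⟨c, hc⟩ X => K.small_of_bound c hc X
  tfae_have 3 → 1 := by
    intro h
    have hS := K.strongTate hT
    have hfin : ∀ X : V, Module.Finite ℚ (T.gr (X ⊗ X) (T.dim X)) := by
      intro X
      obtain ⟨r, hr, hs⟩ := h X
      have h1 := (K.small_iff X r).1 hs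
      have h2 : Module.Finite ℚ (Mot.h T X 0 ⟶ Mot.h T X 0) :=
        (MotP.GGap.t_EMB (Mot T)).1 _ r hr h1.finite
      exact Module.Finite.equiv (Mot.endEquiv T X 0).symm
    have hnum : ∀ (M N : Mot T) (f : M ⟶ N), MotP.NumTrivial f → f = 0 := by
      refine MotP.GGap.t_NIL (Mot T) (MotP.GGap.ofFrobenius K.frobenius) hS
        (finite_motives hfin) ?_
      intro M f hf
      refine nil_motives ?_ M f hf
      intro X g hg
      obtain ⟨r, hr, hs⟩ := h X
      exact K.nilpotent_of_small X r hr hs g hg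
    have e : (MotP.IsAbelian (Mot T) ∧ K.frobenius.StrongTate) ↔
        ((∀ (M N : Mot T) (f : M ⟶ N), MotP.NumTrivial f → f = 0) ∧ K.frobenius.StrongTate) :=
      (MotP.equivalence K.frobenius).out 1 2
    exact (e.2 ⟨hnum, hS⟩).1
  tfae_finish

end Cohomology

end CHM
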