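import Pool.Agent.CHM.Real

/-!
# Correspondences which are injective or bijective on cohomology in one degree
(MP_6c4da4_ag, project CHM)
-/

set_option autoImplicit false

open CategoryTheory MonoidalCategory CartesianMonoidalCategory Limits TensorProduct Polynomial

universe v u w x

namespace CHM

section idem

/-- An idempotent polynomial which projects to the generalized eigenspace of the eigenvalue `1`. -/
theorem exists_idem (P : ℚ[X]) (hP : P ≠ 0) : ∃ (k : ℕ) (E G H : ℚ[X]),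
    (X - C 1) ^ k * E = G * P ∧ E - E * E = H * P ∧ E.eval 1 = 1 := by
  obtain ⟨Q, hQ, hdvd⟩ := Polynomial.exists_eq_pow_rootMultiplicity_mul_and_not_dvd P hP 1
  set m := P.rootMultiplicity 1 with hm
  have hcop : IsCoprime ((X - C 1 : ℚ[X]) ^ (m + 1)) Q := by
    apply IsCoprime.pow_left
    exact (Polynomial.irreducible_X_sub_C (1 : ℚ)).coprime_iff_not_dvd.2 hdvd
  obtain ⟨u, v, huv⟩ := hcop
  refine ⟨m + 1, v * Q, v * (X - C 1), v * u * (X - C 1), ?_, ?_, ?_⟩
  · rw [hQ]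
    ring
  · have h1 : v * Q - v * Q * (v * Q) = v * Q * (u * (X - C 1) ^ (m + 1)) := by
      have h2 : u * (X - C 1) ^ (m + 1) = 1 - v * Q := by rw [← huv]; ring
      rw [h2]
      ring
    rw [h1, hQ]
    ring
  · have h2 : v * Q = 1 - u * (X - C 1) ^ (m + 1) := by rw [← huv]; ring
    rw [h2]
    simp

end idem

variable {V : Type u} [Category.{v} V] [CartesianMonoidalCategory V]

namespace Cohomology

variable {T : ChowTheory.{v, u, w} V} {R : FrobeniusMaps T} (K : Cohomology.{v, u, w, x} T R)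

/-- Frobenius as an element of the ring of endomorphisms. -/
noncomputable def Fe (R : FrobeniusMaps T) (M : Mot T) : End M := R.onMot M

theorem aeval_nat {M N : Mot T} (f : M ⟶ N) (P : ℚ[X]) :
    f ≫ (aeval (Fe R N) P : End N) = (aeval (Fe R M) P : End M) ≫ f := by
  induction P using Polynomial.induction_on' with
  | add P Q hP hQ =>
    rw [map_add, map_add]
    have h1 : f ≫ ((aeval (Fe R N) P + aeval (Fe R N) Q : End N) : N ⟶ N) =
        f ≫ (aeval (Fe R N) P : End N) + f ≫ (aeval (Fe R N) Q : End N) :=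
      Preadditive.comp_add _ _ _ _ _ _
    have h2 : ((aeval (Fe R M) P + aeval (Fe R M) Q : End M) : M ⟶ M) ≫ f =
        (aeval (Fe R M) P : End M) ≫ f + (aeval (Fe R M) Q : End M) ≫ f :=
      Preadditive.add_comp _ _ _ _ _ _
    rw [h1, h2, hP, hQ]
  | monomial n a =>
    rw [aeval_monomial, aeval_monomial]
    have h0 : f ≫ ((Fe R N ^ n : End N) : N ⟶ N) = ((Fe R M ^ n : End M) : M ⟶ M) ≫ f := by
      induction n with
      | zero => exact (Category.comp_id f).trans (Category.id_comp f).symm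
      | succ n ih =>
        rw [pow_succ, pow_succ]
        change f ≫ (Fe R N ≫ (Fe R N ^ n : End N)) = (Fe R M ≫ (Fe R M ^ n : End M)) ≫ f
        rw [← Category.assoc, show f ≫ Fe R N = Fe R M ≫ f from R.onMot_natural f,
          Category.assoc, ih, Category.assoc]
    have h1 : f ≫ ((algebraMap ℚ (End N) a * Fe R N ^ n : End N) : N ⟶ N) =
        a • (f ≫ ((Fe R N ^ n : End N) : N ⟶ N)) := by
      rw [← Algebra.smul_def]
      exact Linear.comp_smul _ _ _ _ _ _
    have h2 : ((algebraMap ℚ (End M) a * Fe R M ^ n : End M) : M ⟶ M) ≫ f =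
        a • (((Fe R M ^ n : End M) : M ⟶ M) ≫ f) := by
      rw [← Algebra.smul_def]
      exact Linear.smul_comp _ _ _ _ _ _
    rw [h1, h2, h0]

theorem Fe_unit : Fe R (𝟙_ (Mot T)) = 1 := R.onMot_unit

theorem aeval_unit (P : ℚ[X]) : (aeval (Fe R (𝟙_ (Mot T))) P : End (𝟙_ (Mot T))) =
    algebraMap ℚ _ (P.eval 1) := by
  rw [Fe_unit]
  have h := Polynomial.aeval_algebraMap_apply_eq_algebraMap_eval (A := End (𝟙_ (Mot T))) (1 : ℚ) P
  rwa [map_one] at h

/-- The action on cohomology as a homomorphism of rings. -/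
noncomputable def HMring (M : Mot T) : End M →+* Module.End ℂ (K.HM M) where
  toFun f := K.HMmap f
  map_one' := by
    ext x
    exact congrArg Subtype.val (K.HMmap_id M x)
  map_mul' f g := by
    ext x
    exact congrArg Subtype.val (K.HMmap_comp (g : M ⟶ M) f x)
  map_zero' := by
    ext x
    exact congrArg Subtype.val (K.HMmap_zero M M x)
  map_add' f g := by
    ext x
    change K.act (f.1 + g.1) x.1 = K.act f.1 x.1 + K.act g.1 x.1
    rw [map_add]
    rfl

theorem HMring_apply (M : Mot T) (f : End M) (x : K.HM M) :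
    K.HMring M f x = K.HMmap (f : M ⟶ M) x := rfl

/-- `q ^ (-m)` times Frobenius on `H X` -/
noncomputable def psi (X : V) (m : ℤ) : Module.End ℂ (K.H X) :=
  ((R.q : ℂ) ^ (-m)) • K.act (T.gr' (R.Fr X))

theorem psi_mem {X : V} {m j : ℤ} {y : K.H X} (hy : y ∈ K.gr X j) : K.psi X m y ∈ K.gr X j := by
  refine Submodule.smul_mem _ _ ?_
  have hgr : T.gr' (R.Fr X) ∈ T.gr (X ⊗ X) (T.dim X + 0) := by
    rw [add_zero]
    exact T.gr'_mem _
  have h2 := K.act_mem 0 j _ y hgr hy
  rwa [mul_zero, add_zero] at h2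

theorem psi_fix {X : V} {m j : ℤ} {y : K.H X} (hy : y ∈ K.gr X j) (h : K.psi X m y = y)
    (hj : j ≠ 2 * m) : y = 0 := by
  by_contra hne
  have hq : (R.q : ℂ) ≠ 0 := by
    have := R.q_ne
    exact_mod_cast this
  have h1 : K.act (T.gr' (R.Fr X)) y = (R.q : ℂ) ^ m • y := by
    conv_rhs => rw [← h]
    rw [psi, LinearMap.smul_apply, smul_smul, ← zpow_add₀ hq, add_neg_cancel, zpow_zero, one_smul]
  have hw := K.weight X j y ((R.q : ℂ) ^ m) hy hne h1
  rw [norm_zpow, Complex.norm_natCast, ← zpow_natCast, ← zpow_mul] at hw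
  have hq1 : (1 : ℝ) < R.q := by exact_mod_cast R.one_lt
  have h5 : m * (2 : ℕ) = j := zpow_right_injective₀ (by linarith) (ne_of_gt hq1) hw
  apply hj
  rw [← h5]
  push_cast
  ring

theorem psi_nil {X : V} {m j : ℤ} (hj : j ≠ 2 * m) (k : ℕ) : ∀ y : K.H X, y ∈ K.gr X j →
    ((K.psi X m - 1) ^ k) y = 0 → y = 0 := by
  induction k with
  | zero =>
    intro y _ h
    simpa using h
  | succ k ih =>
    intro y hy h
    rw [pow_succ] at h
    have h1 := ih ((K.psi X m - 1) y) (sub_mem (K.psi_mem hy) hy) h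
    exact K.psi_fix hy (sub_eq_zero.1 h1) hj

theorem psi_pow_mem {X : V} {m j : ℤ} (k : ℕ) : ∀ y : K.H X, y ∈ K.gr X j →
    ((K.psi X m - 1) ^ k) y ∈ K.gr X j := by
  induction k with
  | zero =>
    intro y hy
    simpa using hy
  | succ k ih =>
    intro y hy
    rw [pow_succ]
    exact ih ((K.psi X m - 1) y) (sub_mem (K.psi_mem hy) hy)

/-- the generalized eigenspace of the eigenvalue `1` of Frobenius of `(X, p, m)` lies in
`H^(2m)(X)` -/
theorem gen_eig (M : Mot T) (k : ℕ) (x : K.HM M)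
    (h : ((K.HMring M (Fe R M) - 1) ^ k) x = 0) : x.1 ∈ K.gr M.X (2 * M.m) := by
  have h1 : ∀ (n : ℕ) (x : K.HM M), (((K.HMring M (Fe R M) - 1) ^ n) x).1 =
      ((K.psi M.X M.m - 1) ^ n) x.1 := by
    intro n
    induction n with
    | zero =>
      intro x
      rfl
    | succ n ih =>
      intro x
      rw [pow_succ, pow_succ]
      change (((K.HMring M (Fe R M) - 1) ^ n) ((K.HMring M (Fe R M) - 1) x)).1 = _
      rw [ih]
      have h2 : ((K.HMring M (Fe R M) - 1) x).1 = (K.psi M.X M.m - 1) x.1 := by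
        change K.act (R.onMot M).1 x.1 - x.1 = K.psi M.X M.m x.1 - x.1
        rw [K.act_onMot M x.1 x.2]
        rfl
      rw [h2]
      rfl
  have h2 : ((K.psi M.X M.m - 1) ^ k) x.1 = 0 := by
    rw [← h1, h]
    rfl
  obtain ⟨s, y, hy, hxy⟩ := K.exists_sum M.X x.1
  have h3 : ∀ j ∈ s, ((K.psi M.X M.m - 1) ^ k) (y j) = 0 := by
    refine K.sum_eq_zero M.X s (fun j => ((K.psi M.X M.m - 1) ^ k) (y j))
      (fun j => K.psi_pow_mem k _ (hy j)) ?_
    rw [← map_sum, ← hxy, h2]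
  rw [hxy]
  refine sum_mem fun j hj => ?_
  by_cases hjm : j = 2 * M.m
  · rw [← hjm]
    exact hy j
  · rw [K.psi_nil hjm k (y j) (hy j) (h3 j hj)]
    exact zero_mem _

/-- a splitting of the part of a motive on which Frobenius has the generalized eigenvalue `1` -/
theorem exists_split (hA : MotP.IsAbelian (Mot T)) (M N : Mot T) :
    ∃ E : ℚ[X], E.eval 1 = 1 ∧
      (∀ L : Mot T, L = M ∨ L = N → (aeval (Fe R L) (E * E) : End L) = aeval (Fe R L) E) ∧
      (∀ L : Mot T, L = M ∨ L = N → ∀ x : K.HM L,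
        K.HMmap (aeval (Fe R L) E : End L) x = x → x.1 ∈ K.gr L.X (2 * L.m)) := by
  obtain ⟨hK, hCK, hcomp⟩ := hA
  have hc : ∀ {X Y : Mot T} (f : X ⟶ Y), IsIso (Abelian.coimageImageComparison f) :=
    fun f => hcomp _ _ f
  let _ : Abelian (Mot T) := Abelian.ofCoimageImageComparisonIsIso
  have hint : ∀ L : Mot T, IsIntegral ℚ (Fe R L) := by
    intro L
    have h1 : Module.Finite ℚ (End L) := K.frobenius.toMot.finite_hom L L
    exact IsIntegral.of_finite ℚ _
  have hne : ∀ L : Mot T, minpoly ℚ (Fe R L) ≠ 0 := fun L => minpoly.ne_zero (hint L)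
  obtain ⟨k, E, G, H, h1, h2, h3⟩ := exists_idem (minpoly ℚ (Fe R M) * minpoly ℚ (Fe R N))
    (mul_ne_zero (hne M) (hne N))
  have hP : ∀ L : Mot T, L = M ∨ L = N →
      (aeval (Fe R L) (minpoly ℚ (Fe R M) * minpoly ℚ (Fe R N)) : End L) = 0 := by
    rintro L (rfl | rfl)
    · rw [map_mul, minpoly.aeval, zero_mul]
    · rw [map_mul, minpoly.aeval, mul_zero]
  refine ⟨E, h3, ?_, ?_⟩
  · intro L hL
    have h4 := congrArg (aeval (Fe R L)) h2
    rw [map_sub, map_mul (aeval (Fe R L)) H, hP L hL, mul_zero, sub_eq_zero] at h4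
    exact h4.symm
  · intro L hL x hx
    refine K.gen_eig L k x ?_
    have h4 := congrArg (fun p => K.HMring L (aeval (Fe R L) p) x) h1
    simp only [map_mul, map_pow, map_sub, aeval_X, hP L hL, mul_zero, map_zero] at h4
    have h5 : K.HMring L (aeval (Fe R L) (C 1 : ℚ[X])) = 1 := by
      rw [aeval_C, map_one, map_one]
    rw [h5] at h4
    change ((K.HMring L (Fe R L) - 1) ^ k) (K.HMmap (aeval (Fe R L) E : End L) x) = 0 at h4
    rwa [hx] at h4

/-- **Main theorem, for motives.**  Let the category of Chow motives be abelian and let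
`f : (X, p, m) ⟶ (Y, q, n)` be injective on the part of the cohomology in degree `2m`.  Then `f` is
injective on `Hom(1, -)`.  If moreover the part of the cohomology of `(Y, q, n)` in degree `2n` is
in the image of `f`, then `f` is surjective on `Hom(1, -)`. -/
theorem hom_main (hA : MotP.IsAbelian (Mot T)) {M N : Mot T} (f : M ⟶ N)
    (hf : ∀ x : K.HM M, x.1 ∈ K.gr M.X (2 * M.m) → K.HMmap f x = 0 → x = 0) :
    (∀ a : 𝟙_ (Mot T) ⟶ M, a ≫ f = 0 → a = 0) ∧
      ((∀ y : K.HM N, y.1 ∈ K.gr N.X (2 * N.m) → ∃ x : K.HM M, K.HMmap f x = y) →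
        ∀ b : 𝟙_ (Mot T) ⟶ N, ∃ a, a ≫ f = b) := by
  obtain ⟨E, hE1, hE2, hE3⟩ := K.exists_split hA M N
  have hsplit : ∀ L : Mot T, L = M ∨ L = N → ∃ (Y : Mot T) (i : Y ⟶ L) (p : L ⟶ Y),
      i ≫ p = 𝟙 Y ∧ p ≫ i = (aeval (Fe R L) E : End L) := by
    intro L hL
    refine IsIdempotentComplete.idempotents_split L (aeval (Fe R L) E : End L) ?_
    have h := hE2 L hL
    rw [map_mul] at h
    exact h
  have hunit : ∀ (L : Mot T) (a : 𝟙_ (Mot T) ⟶ L), a ≫ (aeval (Fe R L) E : End L) = a := by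
    intro L a
    rw [aeval_nat, aeval_unit, hE1, map_one]
    exact Category.id_comp a
  obtain ⟨M', i, p, hip, hpi⟩ := hsplit M (Or.inl rfl)
  obtain ⟨N', j, s, hjs, hsj⟩ := hsplit N (Or.inr rfl)
  have hfe : f ≫ s ≫ j = p ≫ i ≫ f := by
    rw [hsj, aeval_nat, ← hpi, Category.assoc]
  have hMi : ∀ x : K.HM M', (K.HMmap i x).1 ∈ K.gr M.X (2 * M.m) := by
    intro x
    apply hE3 M (Or.inl rfl)
    rw [← hpi, K.HMmap_comp, ← K.HMmap_comp i p, hip, K.HMmap_id]
  have hNj : ∀ y : K.HM N', (K.HMmap j y).1 ∈ K.gr N.X (2 * N.m) := by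
    intro y
    apply hE3 N (Or.inr rfl)
    rw [← hsj, K.HMmap_comp, ← K.HMmap_comp j s, hjs, K.HMmap_id]
  -- the morphism between the parts
  have hinj : ∀ x : K.HM M', K.HMmap (i ≫ f ≫ s) x = 0 → x = 0 := by
    intro x hx
    have h1 : K.HMmap f (K.HMmap i x) = 0 := by
      have h2 : i ≫ f = (i ≫ f ≫ s) ≫ j := by
        rw [Category.assoc, Category.assoc, hfe, ← Category.assoc i p, hip, Category.id_comp]
      rw [← K.HMmap_comp, h2, K.HMmap_comp, hx, map_zero]
    have h3 := hf _ (hMi x) h1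
    have h4 : K.HMmap p (K.HMmap i x) = x := by
      rw [← K.HMmap_comp, hip, K.HMmap_id]
    rw [← h4, h3, map_zero]
  have hmono : Mono (i ≫ f ≫ s) := K.mono_of hA _ (K.splitMono_of_injective _ hinj)
  have hap : ∀ a : 𝟙_ (Mot T) ⟶ M, (a ≫ p) ≫ i = a := by
    intro a
    rw [Category.assoc, hpi, hunit]
  have hbs : ∀ b : 𝟙_ (Mot T) ⟶ N, (b ≫ s) ≫ j = b := by
    intro b
    rw [Category.assoc, hsj, hunit]
  refine ⟨?_, ?_⟩
  · intro a ha
    have h1 : (a ≫ p) ≫ (i ≫ f ≫ s) = 0 := by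
      rw [← Category.assoc (a ≫ p), hap, ← Category.assoc, ha, Limits.zero_comp]
    have h2 : a ≫ p = 0 := (cancel_mono (i ≫ f ≫ s)).1 (by rw [h1, Limits.zero_comp])
    rw [← hap a, h2, Limits.zero_comp]
  · intro hsurj b
    have hs2 : ∀ y : K.HM N', ∃ x : K.HM M', K.HMmap (i ≫ f ≫ s) x = y := by
      intro y
      obtain ⟨x, hx⟩ := hsurj _ (hNj y)
      refine ⟨K.HMmap p x, ?_⟩
      have h1 : p ≫ i ≫ f ≫ s = f ≫ s := by
        have h2 := congrArg (fun g => g ≫ s) hfe
        simp only [Category.assoc] at h2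
        rw [hjs, Category.comp_id] at h2
        exact h2.symm
      rw [← K.HMmap_comp, h1, K.HMmap_comp, hx, ← K.HMmap_comp, hjs, K.HMmap_id]
    have hiso : IsIso (i ≫ f ≫ s) := K.iso_of hA _ (K.splitMono_of_injective _ hinj)
      (K.splitEpi_of_surjective _ hs2)
    refine ⟨(b ≫ s) ≫ inv (i ≫ f ≫ s) ≫ i, ?_⟩
    have h2 : i ≫ f = (i ≫ f ≫ s) ≫ j := by
      rw [Category.assoc, Category.assoc, hfe, ← Category.assoc i p, hip, Category.id_comp]
    have h3 : ((b ≫ s) ≫ inv (i ≫ f ≫ s) ≫ i) ≫ f = (b ≫ s) ≫ inv (i ≫ f ≫ s) ≫ (i ≫ f) := by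
      simp only [Category.assoc]
    rw [h3, h2, IsIso.inv_hom_id_assoc, hbs]

end Cohomology

end CHM
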