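import Mathlib

/-!
# Linear algebra: traces of powers, alternating traces (MP_6c4da4_ag, project CHM)
-/

set_option autoImplicit false

open Polynomial

universe u

namespace CHM

namespace Lin

section Mat

variable {n : Type u} [Fintype n] [DecidableEq n] (A : Matrix n n ℂ)

theorem card_roots_charpoly : Multiset.card A.charpoly.roots = Fintype.card n := by
  rw [← (IsAlgClosed.splits A.charpoly).natDegree_eq_card_roots, Matrix.charpoly_natDegree_eq_dim]

/-- `p ↦ det p(A)`. -/
noncomputable def phi : ℂ[X] →* ℂ where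
  toFun p := (aeval A p).det
  map_one' := by simp
  map_mul' p q := by simp

/-- `p ↦ ∏ p(x)` over the roots of the characteristic polynomial. -/
noncomputable def psi (R : Multiset ℂ) : ℂ[X] →* ℂ where
  toFun p := (R.map (fun x => eval x p)).prod
  map_one' := by simp
  map_mul' p q := by simp

theorem phi_C (c : ℂ) : phi A (C c) = psi A.charpoly.roots (C c) := by
  show (aeval A (C c)).det = (A.charpoly.roots.map (fun x => eval x (C c))).prod
  simp only [eval_C, Multiset.map_const', Multiset.prod_replicate, card_roots_charpoly]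
  rw [aeval_C, Algebra.algebraMap_eq_smul_one, Matrix.det_smul, Matrix.det_one, mul_one]

theorem phi_X_sub (a : ℂ) : phi A (X - C a) = psi A.charpoly.roots (X - C a) := by
  show (aeval A (X - C a)).det = (A.charpoly.roots.map (fun x => eval x (X - C a))).prod
  have h1 : aeval A (X - C a) = -(Matrix.scalar n a - A) := by
    rw [map_sub, aeval_X, aeval_C, neg_sub]
    rfl
  have h2 : A.charpoly.eval a = (A.charpoly.roots.map (fun x => a - x)).prod := by
    conv_lhs => rw [(IsAlgClosed.splits A.charpoly).eq_prod_roots_of_monic A.charpoly_monic]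
    rw [eval_multiset_prod, Multiset.map_map]
    congr 1
    apply Multiset.map_congr rfl
    intro x _
    simp
  rw [h1, Matrix.det_neg, ← Matrix.eval_charpoly, h2]
  have h3 : (A.charpoly.roots.map (fun x => eval x (X - C a))) =
      (A.charpoly.roots.map (fun x => (-1) * (a - x))) := by
    apply Multiset.map_congr rfl
    intro x _
    simp
  rw [h3, Multiset.prod_map_mul]
  simp [card_roots_charpoly]

theorem det_aeval (p : ℂ[X]) :
    (aeval A p).det = (A.charpoly.roots.map (fun x => eval x p)).prod := by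
  show phi A p = psi A.charpoly.roots p
  have h := (IsAlgClosed.splits p).eq_prod_roots
  rw [h, map_mul, map_mul, phi_C, map_multiset_prod, map_multiset_prod, Multiset.map_map,
    Multiset.map_map]
  congr 2
  apply Multiset.map_congr rfl
  intro a _
  exact phi_X_sub A a

theorem charpoly_pow (k : ℕ) :
    (A ^ k).charpoly = (A.charpoly.roots.map (fun x => X - C (x ^ k))).prod := by
  apply Polynomial.funext
  intro z
  rw [Matrix.eval_charpoly]
  have h1 : Matrix.scalar n z - A ^ k = aeval A (C z - X ^ k) := by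
    rw [map_sub, map_pow, aeval_X, aeval_C]
    rfl
  rw [h1, det_aeval, eval_multiset_prod, Multiset.map_map]
  congr 1
  apply Multiset.map_congr rfl
  intro x _
  simp

theorem trace_pow (k : ℕ) :
    (A ^ k).trace = (A.charpoly.roots.map (fun x => x ^ k)).sum := by
  rw [Matrix.trace_eq_sum_roots_charpoly, charpoly_pow]
  congr 1
  have := Polynomial.roots_multiset_prod_X_sub_C (A.charpoly.roots.map (fun x => x ^ k))
  rw [Multiset.map_map] at this
  exact this

end Mat

variable {W : Type u} [AddCommGroup W] [Module ℂ W] [Module.Finite ℂ W]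

/-- the trace of a power is the sum of the powers of the eigenvalues -/
theorem trace_pow_eq (B : W →ₗ[ℂ] W) (k : ℕ) :
    LinearMap.trace ℂ W (B ^ k) = (B.charpoly.roots.map (fun x => x ^ k)).sum := by
  classical
  let b := Module.finBasis ℂ W
  rw [← LinearMap.charpoly_toMatrix B b, ← trace_pow, LinearMap.trace_eq_matrix_trace ℂ b]
  congr 1
  exact map_pow (LinearMap.toMatrixAlgEquiv b) B k

/-- The alternating trace.  `s` is an involution, `e` an idempotent, `A = e A` commutes with
`s`, and `e` commutes with `s`. -/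
theorem trace_sgn (s e A : W →ₗ[ℂ] W) (hs : s ∘ₗ s = LinearMap.id) (hes : s ∘ₗ e = e ∘ₗ s)
    (he : e ∘ₗ A = A) (hsA : s ∘ₗ A = A ∘ₗ s) (P N : Submodule ℂ W)
    (hP : ∀ x, x ∈ P ↔ e x = x ∧ s x = x) (hN : ∀ x, x ∈ N ↔ e x = x ∧ s x = -x)
    (hAP : ∀ x ∈ P, A x ∈ P) (hAN : ∀ x ∈ N, A x ∈ N) :
    LinearMap.trace ℂ W (s ∘ₗ A) =
      LinearMap.trace ℂ P (A.restrict hAP) - LinearMap.trace ℂ N (A.restrict hAN) := by
  have hs' : ∀ x, s (s x) = x := fun x => LinearMap.congr_fun hs x
  have hsA' : ∀ x, s (A x) = A (s x) := fun x => LinearMap.congr_fun hsA x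
  have heA : ∀ x, e (A x) = A x := fun x => LinearMap.congr_fun he x
  have hes' : ∀ x, s (e x) = e (s x) := fun x => LinearMap.congr_fun hes x
  let A₁ : W →ₗ[ℂ] W := (2⁻¹ : ℂ) • (A + s ∘ₗ A)
  let A₂ : W →ₗ[ℂ] W := (2⁻¹ : ℂ) • (A - s ∘ₗ A)
  have h1 : ∀ x, A₁ x ∈ P := by
    intro x
    rw [hP]
    change e ((2⁻¹ : ℂ) • (A x + s (A x))) = (2⁻¹ : ℂ) • (A x + s (A x)) ∧
      s ((2⁻¹ : ℂ) • (A x + s (A x))) = (2⁻¹ : ℂ) • (A x + s (A x))
    refine ⟨?_, ?_⟩
    · rw [map_smul, map_add, ← hes', heA]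
    · rw [map_smul, map_add, hs', add_comm]
  have h2 : ∀ x, A₂ x ∈ N := by
    intro x
    rw [hN]
    change e ((2⁻¹ : ℂ) • (A x - s (A x))) = (2⁻¹ : ℂ) • (A x - s (A x)) ∧
      s ((2⁻¹ : ℂ) • (A x - s (A x))) = -((2⁻¹ : ℂ) • (A x - s (A x)))
    refine ⟨?_, ?_⟩
    · rw [map_smul, map_sub, ← hes', heA]
    · rw [map_smul, map_sub, hs', ← smul_neg, neg_sub]
  have h3 : LinearMap.trace ℂ P (A.restrict hAP) = LinearMap.trace ℂ W A₁ := by
    rw [← LinearMap.trace_restrict_eq_of_forall_mem P A₁ h1]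
    congr 1
    ext x
    have hx := (hP x).1 x.2
    change A x = (2⁻¹ : ℂ) • (A x + s (A x))
    rw [hsA', hx.2, ← two_smul ℂ, smul_smul]
    norm_num
  have h4 : LinearMap.trace ℂ N (A.restrict hAN) = LinearMap.trace ℂ W A₂ := by
    rw [← LinearMap.trace_restrict_eq_of_forall_mem N A₂ h2]
    congr 1
    ext x
    have hx := (hN x).1 x.2
    change A x = (2⁻¹ : ℂ) • (A x - s (A x))
    rw [hsA', hx.2, map_neg, sub_neg_eq_add, ← two_smul ℂ, smul_smul]
    norm_num
  rw [h3, h4, ← map_sub]
  congr 1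
  ext x
  change s (A x) = (2⁻¹ : ℂ) • (A x + s (A x)) - (2⁻¹ : ℂ) • (A x - s (A x))
  rw [← smul_sub]
  have : A x + s (A x) - (A x - s (A x)) = (2 : ℂ) • s (A x) := by
    rw [two_smul]
    abel
  rw [this, smul_smul]
  norm_num

end Lin

end CHM
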