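import Pool.Agent.CHM.Mot

/-!
# The tensor product of Chow motives (MP_6c4da4_ag, project CHM)
-/

set_option autoImplicit false

open CategoryTheory MonoidalCategory CartesianMonoidalCategory Limits

universe v u w

namespace CHM

variable {V : Type u} [Category.{v} V] [CartesianMonoidalCategory V]

namespace Mot

variable {T : ChowTheory.{v, u, w} V}

/-- The morphism of motives given by the transposed graph of `φ : N.X ⟶ M.X`. -/
def gmap {M N : Mot T} (φ : N.X ⟶ M.X) (hm : M.m = N.m)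
    (h : T.cp M.p (T.gr' φ) = T.cp (T.gr' φ) N.p) : M ⟶ N :=
  ⟨T.cp M.p (T.gr' φ), by
    refine ⟨?_, ?_⟩
    · have h1 := T.cp_mem M.deg (T.gr'_mem φ)
      have e : T.dim M.X + T.dim M.X - T.dim M.X = T.dim M.X + N.m - M.m := by
        rw [hm]; ring
      rwa [e] at h1
    · rw [← T.cp_assoc, M.idem, T.cp_assoc, ← h, ← T.cp_assoc, M.idem]⟩

theorem gmap_val {M N : Mot T} (φ : N.X ⟶ M.X) (hm : M.m = N.m)
    (h : T.cp M.p (T.gr' φ) = T.cp (T.gr' φ) N.p) : (gmap φ hm h).1 = T.cp M.p (T.gr' φ) := rfl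

theorem gmap_comp {M N L : Mot T} (φ : N.X ⟶ M.X) (hm : M.m = N.m)
    (h : T.cp M.p (T.gr' φ) = T.cp (T.gr' φ) N.p) (ψ : L.X ⟶ N.X) (hn : N.m = L.m)
    (h' : T.cp N.p (T.gr' ψ) = T.cp (T.gr' ψ) L.p) :
    (gmap φ hm h ≫ gmap ψ hn h').1 = T.cp M.p (T.gr' (ψ ≫ φ)) := by
  rw [comp_val, gmap_val, gmap_val, ← T.cp_assoc, T.cp_assoc M.p, ← h, ← T.cp_assoc M.p, M.idem,
    T.cp_assoc, T.gr'_comp]

theorem gmap_cond {M N L : Mot T} {φ : N.X ⟶ M.X}
    (h : T.cp M.p (T.gr' φ) = T.cp (T.gr' φ) N.p) {ψ : L.X ⟶ N.X}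
    (h' : T.cp N.p (T.gr' ψ) = T.cp (T.gr' ψ) L.p) :
    T.cp M.p (T.gr' (ψ ≫ φ)) = T.cp (T.gr' (ψ ≫ φ)) L.p := by
  rw [← T.gr'_comp, ← T.cp_assoc, h, T.cp_assoc, h', T.cp_assoc]

theorem gmap_comp' {M N L : Mot T} (φ : N.X ⟶ M.X) (hm : M.m = N.m)
    (h : T.cp M.p (T.gr' φ) = T.cp (T.gr' φ) N.p) (ψ : L.X ⟶ N.X) (hn : N.m = L.m)
    (h' : T.cp N.p (T.gr' ψ) = T.cp (T.gr' ψ) L.p) :
    gmap φ hm h ≫ gmap ψ hn h' = gmap (ψ ≫ φ) (hm.trans hn) (gmap_cond h h') :=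
  Subtype.ext (gmap_comp φ hm h ψ hn h')

theorem gmap_congr {M N : Mot T} {φ ψ : N.X ⟶ M.X} (e : φ = ψ) (hm : M.m = N.m)
    (h : T.cp M.p (T.gr' φ) = T.cp (T.gr' φ) N.p) (hm' : M.m = N.m)
    (h' : T.cp M.p (T.gr' ψ) = T.cp (T.gr' ψ) N.p) : gmap φ hm h = gmap ψ hm' h' := by
  subst e
  rfl

/-- naturality of the morphisms `gmap` -/
theorem gmap_nat {M N M' N' : Mot T} (F : M ⟶ M') (G : N ⟶ N') (φ : N.X ⟶ M.X) (hm : M.m = N.m)
    (h : T.cp M.p (T.gr' φ) = T.cp (T.gr' φ) N.p) (φ' : N'.X ⟶ M'.X) (hm' : M'.m = N'.m)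
    (h' : T.cp M'.p (T.gr' φ') = T.cp (T.gr' φ') N'.p)
    (e : T.cp F.1 (T.gr' φ') = T.cp (T.gr' φ) G.1) :
    F ≫ gmap φ' hm' h' = gmap φ hm h ≫ G := by
  apply Subtype.ext
  rw [comp_val, comp_val, gmap_val, gmap_val, ← T.cp_assoc, cp_p F.2, e, T.cp_assoc, ← e,
    ← T.cp_assoc, p_cp F.2]

theorem gmap_symm {M N : Mot T} (φ : N.X ≅ M.X)
    (h : T.cp M.p (T.gr' φ.hom) = T.cp (T.gr' φ.hom) N.p) :
    T.cp N.p (T.gr' φ.inv) = T.cp (T.gr' φ.inv) M.p := by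
  have h1 : T.cp (T.gr' φ.inv) (T.gr' φ.hom) = T.diag N.X := by
    rw [T.gr'_comp, Iso.hom_inv_id, T.gr'_id]
  have h2 : T.cp (T.gr' φ.hom) (T.gr' φ.inv) = T.diag M.X := by
    rw [T.gr'_comp, Iso.inv_hom_id, T.gr'_id]
  rw [← T.diag_cp (T.cp N.p (T.gr' φ.inv)), ← h1, T.cp_assoc (T.gr' φ.inv),
    ← T.cp_assoc (T.gr' φ.hom) N.p, ← h, T.cp_assoc M.p, h2, T.cp_diag]

/-- The isomorphism of motives given by an isomorphism of varieties. -/
def gIso {M N : Mot T} (φ : N.X ≅ M.X) (hm : M.m = N.m)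
    (h : T.cp M.p (T.gr' φ.hom) = T.cp (T.gr' φ.hom) N.p) : M ≅ N where
  hom := gmap φ.hom hm h
  inv := gmap φ.inv hm.symm (gmap_symm φ h)
  hom_inv_id := by
    apply Subtype.ext
    rw [gmap_comp, Iso.inv_hom_id, T.gr'_id, T.cp_diag, id_val]
  inv_hom_id := by
    apply Subtype.ext
    rw [gmap_comp, Iso.hom_inv_id, T.gr'_id, T.cp_diag, id_val]

/-- The tensor product `(X, p, m) ⊗ (Y, q, n) = (X × Y, p × q, m + n)`. -/
@[reducible] def tObj (M N : Mot T) : Mot T where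
  X := M.X ⊗ N.X
  p := T.ten M.p N.p
  m := M.m + N.m
  deg := by
    rw [T.dim_tensor]
    exact T.ten_mem M.deg N.deg
  idem := by rw [T.ten_cp, M.idem, N.idem]

/-- The unit motive `(point, id, 0)`. -/
@[reducible] def one (T : ChowTheory.{v, u, w} V) : Mot T where
  X := 𝟙_ V
  p := T.diag _
  m := 0
  deg := T.diag_mem _
  idem := T.cp_diag _

/-- The tensor product of morphisms of motives. -/
def tHom {M N M' N' : Mot T} (f : M ⟶ N) (g : M' ⟶ N') : tObj M M' ⟶ tObj N N' :=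
  ⟨T.ten f.1 g.1, by
    refine ⟨?_, ?_⟩
    · have h := T.ten_mem f.2.1 g.2.1
      have e : T.dim M.X + N.m - M.m + (T.dim M'.X + N'.m - M'.m) =
          T.dim (tObj M M').X + (tObj N N').m - (tObj M M').m := by
        simp only [T.dim_tensor]
        ring
      rwa [e] at h
    · simp only [tObj]
      rw [T.ten_cp, T.ten_cp, f.2.2, g.2.2]⟩

theorem tHom_val {M N M' N' : Mot T} (f : M ⟶ N) (g : M' ⟶ N') :
    (tHom f g).1 = T.ten f.1 g.1 := rfl

instance : MonoidalCategoryStruct (Mot T) where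
  tensorObj := tObj
  tensorUnit := one T
  tensorHom f g := tHom f g
  whiskerLeft M _ _ f := tHom (𝟙 M) f
  whiskerRight f M := tHom f (𝟙 M)
  associator M N L := gIso (α_ M.X N.X L.X).symm (add_assoc _ _ _) (T.ten_assoc _ _ _)
  leftUnitor M := gIso (λ_ M.X).symm (zero_add _) (T.ten_left _)
  rightUnitor M := gIso (ρ_ M.X).symm (add_zero _) (T.ten_right _)

theorem tensorHom_val {M N M' N' : Mot T} (f : M ⟶ N) (g : M' ⟶ N') :
    (f ⊗ₘ g).1 = T.ten f.1 g.1 := rfl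

theorem whiskerLeft_val (M : Mot T) {N N' : Mot T} (f : N ⟶ N') :
    (M ◁ f).1 = T.ten M.p f.1 := rfl

theorem whiskerRight_val {N N' : Mot T} (f : N ⟶ N') (M : Mot T) :
    (f ▷ M).1 = T.ten f.1 M.p := rfl

theorem associator_hom_val (M N L : Mot T) :
    (α_ M N L).hom.1 = T.cp (T.ten (T.ten M.p N.p) L.p) (T.gr' (α_ M.X N.X L.X).inv) := rfl

theorem associator_inv_val (M N L : Mot T) :
    (α_ M N L).inv.1 = T.cp (T.ten M.p (T.ten N.p L.p)) (T.gr' (α_ M.X N.X L.X).hom) := rfl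

theorem leftUnitor_hom_val (M : Mot T) :
    (λ_ M).hom.1 = T.cp (T.ten (T.diag _) M.p) (T.gr' (λ_ M.X).inv) := rfl

theorem leftUnitor_inv_val (M : Mot T) :
    (λ_ M).inv.1 = T.cp M.p (T.gr' (λ_ M.X).hom) := rfl

theorem rightUnitor_hom_val (M : Mot T) :
    (ρ_ M).hom.1 = T.cp (T.ten M.p (T.diag _)) (T.gr' (ρ_ M.X).inv) := rfl

theorem rightUnitor_inv_val (M : Mot T) :
    (ρ_ M).inv.1 = T.cp M.p (T.gr' (ρ_ M.X).hom) := rfl

theorem gmap_id {M : Mot T} (hm : M.m = M.m)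
    (h : T.cp M.p (T.gr' (𝟙 M.X)) = T.cp (T.gr' (𝟙 M.X)) M.p) : 𝟙 M = gmap (𝟙 M.X) hm h :=
  Subtype.ext (T.cp_diag _).symm

theorem gmap_tensor {M N M' N' : Mot T} (φ : N.X ⟶ M.X) (hm : M.m = N.m)
    (h : T.cp M.p (T.gr' φ) = T.cp (T.gr' φ) N.p) (ψ : N'.X ⟶ M'.X) (hm' : M'.m = N'.m)
    (h' : T.cp M'.p (T.gr' ψ) = T.cp (T.gr' ψ) N'.p) :
    (gmap φ hm h ⊗ₘ gmap ψ hm' h') = gmap (M := M ⊗ M') (N := N ⊗ N') (φ ⊗ₘ ψ)
      (by change M.m + M'.m = N.m + N'.m; rw [hm, hm'])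
      (by
        change T.cp (T.ten M.p M'.p) _ = T.cp _ (T.ten N.p N'.p)
        rw [← T.ten_gr', T.ten_cp, T.ten_cp, h, h']) := by
  apply Subtype.ext
  rw [tensorHom_val, gmap_val, gmap_val, gmap_val, ← T.ten_cp, T.ten_gr']
  rfl

theorem id_cond (M : Mot T) : T.cp M.p (T.gr' (𝟙 M.X)) = T.cp (T.gr' (𝟙 M.X)) M.p := by
  rw [T.gr'_id, T.cp_diag, T.diag_cp]

theorem assoc_eq (M N L : Mot T) : (α_ M N L).hom =
    gmap (M := (M ⊗ N) ⊗ L) (N := M ⊗ (N ⊗ L)) (α_ M.X N.X L.X).inv (add_assoc _ _ _)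
      (T.ten_assoc _ _ _) := rfl

theorem left_eq (M : Mot T) : (λ_ M).hom =
    gmap (M := 𝟙_ (Mot T) ⊗ M) (N := M) (λ_ M.X).inv (zero_add _) (T.ten_left _) := rfl

theorem right_eq (M : Mot T) : (ρ_ M).hom =
    gmap (M := M ⊗ 𝟙_ (Mot T)) (N := M) (ρ_ M.X).inv (add_zero _) (T.ten_right _) := rfl

instance : MonoidalCategory (Mot T) := MonoidalCategory.ofTensorHom
  (id_tensorHom_id := fun M N => rfl)
  (id_tensorHom := fun M _ _ f => rfl)
  (tensorHom_id := fun f M => rfl)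
  (tensorHom_comp_tensorHom := fun f f' g g' => Subtype.ext (T.ten_cp _ _ _ _))
  (associator_naturality := fun f g h => gmap_nat _ _ _ (add_assoc _ _ _) (T.ten_assoc _ _ _) _
    (add_assoc _ _ _) (T.ten_assoc _ _ _) (T.ten_assoc _ _ _))
  (leftUnitor_naturality := fun f => gmap_nat _ _ _ (zero_add _) (T.ten_left _) _
    (zero_add _) (T.ten_left _) (T.ten_left _))
  (rightUnitor_naturality := fun f => gmap_nat _ _ _ (add_zero _) (T.ten_right _) _
    (add_zero _) (T.ten_right _) (T.ten_right _))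
  (pentagon := by
    intro M N L K
    rw [assoc_eq, assoc_eq, assoc_eq, assoc_eq, assoc_eq, gmap_id rfl (id_cond M),
      gmap_id rfl (id_cond K), gmap_tensor, gmap_tensor, gmap_comp', gmap_comp', gmap_comp']
    apply gmap_congr
    have key : ((𝟙 M.X ⊗ₘ (α_ N.X L.X K.X).inv) ≫ (α_ M.X (N.X ⊗ L.X) K.X).inv) ≫
        ((α_ M.X N.X L.X).inv ⊗ₘ 𝟙 K.X) =
        (α_ M.X N.X (L.X ⊗ K.X)).inv ≫ (α_ (M.X ⊗ N.X) L.X K.X).inv := by
      ext <;> simp
    exact key)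
  (triangle := by
    intro M N
    rw [assoc_eq, left_eq, right_eq, gmap_id rfl (id_cond M),
      gmap_id rfl (id_cond N), gmap_tensor, gmap_tensor, gmap_comp']
    apply gmap_congr
    have key : (𝟙 M.X ⊗ₘ (λ_ N.X).inv) ≫ (α_ M.X (𝟙_ V) N.X).inv =
        ((ρ_ M.X).inv ⊗ₘ 𝟙 N.X) := by
      ext <;> simp
    exact key)

/-- The symmetry of the tensor product. -/
def braid (M N : Mot T) : M ⊗ N ≅ N ⊗ M :=
  gIso (M := M ⊗ N) (N := N ⊗ M) (ChowTheory.swap M.X N.X).symm (add_comm _ _) (T.ten_swap _ _)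

theorem braid_eq (M N : Mot T) : (braid M N).hom =
    gmap (M := M ⊗ N) (N := N ⊗ M) (ChowTheory.swap M.X N.X).inv (add_comm _ _)
      (T.ten_swap _ _) := rfl

theorem assoc_inv_eq (M N L : Mot T) : (α_ M N L).inv =
    gmap (M := M ⊗ (N ⊗ L)) (N := (M ⊗ N) ⊗ L) (α_ M.X N.X L.X).hom (add_assoc _ _ _).symm
      (gmap_symm (M := (M ⊗ N) ⊗ L) (N := M ⊗ (N ⊗ L)) (α_ M.X N.X L.X).symm
        (T.ten_assoc _ _ _)) := rfl

instance : SymmetricCategory (Mot T) where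
  braiding := braid
  braiding_naturality_right M N L f := by
    rw [← id_tensorHom, ← tensorHom_id, braid_eq, braid_eq]
    exact gmap_nat _ _ _ _ _ _ _ _ (T.ten_swap _ _)
  braiding_naturality_left f L := by
    rw [← id_tensorHom, ← tensorHom_id, braid_eq, braid_eq]
    exact gmap_nat _ _ _ _ _ _ _ _ (T.ten_swap _ _)
  hexagon_forward M N L := by
    rw [← id_tensorHom, ← tensorHom_id, braid_eq, braid_eq, braid_eq, assoc_eq, assoc_eq, assoc_eq,
      gmap_id rfl (id_cond N), gmap_id rfl (id_cond L), gmap_tensor, gmap_tensor, gmap_comp',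
      gmap_comp', gmap_comp', gmap_comp']
    apply gmap_congr
    have key : ((α_ N.X L.X M.X).inv ≫ (ChowTheory.swap M.X (N.X ⊗ L.X)).inv) ≫
        (α_ M.X N.X L.X).inv =
        ((𝟙 N.X ⊗ₘ (ChowTheory.swap M.X L.X).inv) ≫ (α_ N.X M.X L.X).inv) ≫
          ((ChowTheory.swap M.X N.X).inv ⊗ₘ 𝟙 L.X) := by
      ext <;> simp [ChowTheory.swap]
    exact key
  hexagon_reverse M N L := by
    rw [← id_tensorHom, ← tensorHom_id, braid_eq, braid_eq, braid_eq, assoc_inv_eq, assoc_inv_eq,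
      assoc_inv_eq, gmap_id rfl (id_cond M), gmap_id rfl (id_cond N), gmap_tensor, gmap_tensor,
      gmap_comp', gmap_comp', gmap_comp', gmap_comp']
    apply gmap_congr
    have key : ((α_ L.X M.X N.X).hom ≫ (ChowTheory.swap (M.X ⊗ N.X) L.X).inv) ≫
        (α_ M.X N.X L.X).hom =
        (((ChowTheory.swap M.X L.X).inv ⊗ₘ 𝟙 N.X) ≫ (α_ M.X L.X N.X).hom) ≫
          (𝟙 M.X ⊗ₘ (ChowTheory.swap N.X L.X).inv) := by
      ext <;> simp [ChowTheory.swap]
    exact key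
  symmetry M N := by
    rw [braid_eq, braid_eq, gmap_comp', gmap_id (M := M ⊗ N) rfl (id_cond _)]
    apply gmap_congr
    have key : (ChowTheory.swap N.X M.X).inv ≫ (ChowTheory.swap M.X N.X).inv =
        𝟙 (M.X ⊗ N.X) := by
      ext <;> simp [ChowTheory.swap]
    exact key

instance : MonoidalPreadditive (Mot T) where
  whiskerLeft_zero := Subtype.ext (by
    rw [whiskerLeft_val, zero_val, zero_val, ChowTheory.ten, map_zero, mul_zero])
  zero_whiskerRight := Subtype.ext (by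
    rw [whiskerRight_val, zero_val, zero_val, ChowTheory.ten, map_zero, zero_mul])
  whiskerLeft_add f g := Subtype.ext (by
    simp only [whiskerLeft_val, add_val, ChowTheory.ten, map_add, mul_add])
  add_whiskerRight f g := Subtype.ext (by
    simp only [whiskerRight_val, add_val, ChowTheory.ten, map_add, add_mul])

instance : MonoidalLinear ℚ (Mot T) where
  whiskerLeft_smul M _ _ r f := Subtype.ext (by
    simp only [whiskerLeft_val, smul_val, ChowTheory.ten, map_smul, mul_smul_comm])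
  smul_whiskerRight r _ _ f M := Subtype.ext (by
    simp only [whiskerRight_val, smul_val, ChowTheory.ten, map_smul, smul_mul_assoc])

end Mot

end CHM
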