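import Pool.Agent.CHM.Tensor

/-!
# Chow motives: triples `(X, p, m)` (MP_6c4da4_ag, project CHM)
-/

set_option autoImplicit false

open CategoryTheory MonoidalCategory CartesianMonoidalCategory Limits

universe v u w

namespace CHM

variable {V : Type u} [Category.{v} V] [CartesianMonoidalCategory V]

namespace ChowTheory

variable (T : ChowTheory.{v, u, w} V)

theorem one_mem (X : V) : (1 : T.CH X) ∈ T.gr X 0 := SetLike.GradedOne.one_mem

theorem mul_mem {X : V} {i j : ℤ} {a b : T.CH X} (ha : a ∈ T.gr X i) (hb : b ∈ T.gr X j) :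
    a * b ∈ T.gr X (i + j) := SetLike.GradedMul.mul_mem ha hb

theorem cp_mem {X Y Z : V} {i j : ℤ} {f : T.CH (X ⊗ Y)} {g : T.CH (Y ⊗ Z)}
    (hf : f ∈ T.gr (X ⊗ Y) i) (hg : g ∈ T.gr (Y ⊗ Z) j) :
    T.cp f g ∈ T.gr (X ⊗ Z) (i + j - T.dim Y) := by
  have h := T.push_mem (lift (fst (X ⊗ Y) Z ≫ fst X Y) (snd (X ⊗ Y) Z)) _ _
    (T.mul_mem (T.pull_mem (fst (X ⊗ Y) Z) _ _ hf)
      (T.pull_mem (lift (fst (X ⊗ Y) Z ≫ snd X Y) (snd (X ⊗ Y) Z)) _ _ hg))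
  have e : i + j + T.dim (X ⊗ Z) - T.dim ((X ⊗ Y) ⊗ Z) = i + j - T.dim Y := by
    simp only [T.dim_tensor]
    ring
  rwa [e] at h

theorem gr'_mem {X Y : V} (φ : Y ⟶ X) : T.gr' φ ∈ T.gr (X ⊗ Y) (T.dim X) := by
  have h := T.push_mem (lift φ (𝟙 Y)) _ _ (T.one_mem Y)
  have e : 0 + T.dim (X ⊗ Y) - T.dim Y = T.dim X := by
    simp only [T.dim_tensor]
    ring
  rwa [e] at h

theorem diag_mem (X : V) : T.diag X ∈ T.gr (X ⊗ X) (T.dim X) := T.gr'_mem (𝟙 X)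

theorem ten_mem {X Y X' Y' : V} {i j : ℤ} {f : T.CH (X ⊗ Y)} {f' : T.CH (X' ⊗ Y')}
    (hf : f ∈ T.gr _ i) (hf' : f' ∈ T.gr _ j) : T.ten f f' ∈ T.gr _ (i + j) :=
  T.mul_mem (T.pull_mem _ _ _ hf) (T.pull_mem _ _ _ hf')

end ChowTheory

/-- Chow motives with rational coefficients: triples `(X, p, m)` with `X` smooth projective, `p` an
idempotent correspondence of degree `0` from `X` to `X` and `m` an integer. -/
structure Mot (T : ChowTheory.{v, u, w} V) where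
  X : V
  p : T.CH (X ⊗ X)
  m : ℤ
  deg : p ∈ T.gr (X ⊗ X) (T.dim X)
  idem : T.cp p p = p

namespace Mot

variable {T : ChowTheory.{v, u, w} V}

/-- The morphisms `(X, p, m) ⟶ (Y, q, n)`: the correspondences `f` of degree `n - m`, that is in
`CH^(dim X + n - m) (X × Y)`, with `q ∘ f ∘ p = f`. -/
def hom (M N : Mot T) : Submodule ℚ (T.CH (M.X ⊗ N.X)) where
  carrier := {f | f ∈ T.gr (M.X ⊗ N.X) (T.dim M.X + N.m - M.m) ∧ T.cp (T.cp M.p f) N.p = f}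
  add_mem' {a b} ha hb := ⟨add_mem ha.1 hb.1, by rw [T.cp_add, T.add_cp, ha.2, hb.2]⟩
  zero_mem' := ⟨zero_mem _, by simp [ChowTheory.cp]⟩
  smul_mem' r a ha := ⟨Submodule.smul_mem _ r ha.1, by rw [T.cp_smul, T.smul_cp, ha.2]⟩

theorem mem_hom {M N : Mot T} {f : T.CH (M.X ⊗ N.X)} : f ∈ hom M N ↔
    f ∈ T.gr (M.X ⊗ N.X) (T.dim M.X + N.m - M.m) ∧ T.cp (T.cp M.p f) N.p = f := Iff.rfl

theorem p_cp {M N : Mot T} {f : T.CH (M.X ⊗ N.X)} (h : f ∈ hom M N) : T.cp M.p f = f := by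
  rw [← h.2, T.cp_assoc, ← T.cp_assoc M.p M.p, M.idem]

theorem cp_p {M N : Mot T} {f : T.CH (M.X ⊗ N.X)} (h : f ∈ hom M N) : T.cp f N.p = f := by
  rw [← h.2, T.cp_assoc, N.idem]

theorem cp_mem_hom {M N L : Mot T} {f : T.CH (M.X ⊗ N.X)} {g : T.CH (N.X ⊗ L.X)}
    (hf : f ∈ hom M N) (hg : g ∈ hom N L) : T.cp f g ∈ hom M L := by
  refine ⟨?_, ?_⟩
  · have h := T.cp_mem hf.1 hg.1
    have e : T.dim M.X + N.m - M.m + (T.dim N.X + L.m - N.m) - T.dim N.X =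
      T.dim M.X + L.m - M.m := by ring
    rwa [e] at h
  · rw [← T.cp_assoc, p_cp hf, T.cp_assoc, cp_p hg]

theorem p_mem_hom (M : Mot T) : M.p ∈ hom M M := by
  refine ⟨?_, by rw [M.idem, M.idem]⟩
  have h := M.deg
  have e : T.dim M.X + M.m - M.m = T.dim M.X := by ring
  rwa [e]

instance : Category (Mot T) where
  Hom M N := hom M N
  id M := ⟨M.p, M.p_mem_hom⟩
  comp f g := ⟨T.cp f.1 g.1, cp_mem_hom f.2 g.2⟩
  id_comp f := Subtype.ext (p_cp f.2)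
  comp_id f := Subtype.ext (cp_p f.2)
  assoc f g h := Subtype.ext (T.cp_assoc f.1 g.1 h.1)

theorem id_val (M : Mot T) : (𝟙 M : M ⟶ M).1 = M.p := rfl

theorem comp_val {M N L : Mot T} (f : M ⟶ N) (g : N ⟶ L) : (f ≫ g).1 = T.cp f.1 g.1 := rfl

@[ext]
theorem hom_ext' {M N : Mot T} (f g : M ⟶ N) (h : f.1 = g.1) : f = g := Subtype.ext h

instance : Preadditive (Mot T) where
  homGroup M N := inferInstanceAs (AddCommGroup (hom M N))
  add_comp _ _ _ f f' g := Subtype.ext (T.add_cp f.1 f'.1 g.1)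
  comp_add _ _ _ f g g' := Subtype.ext (T.cp_add f.1 g.1 g'.1)

instance : Linear ℚ (Mot T) where
  homModule M N := inferInstanceAs (Module ℚ (hom M N))
  smul_comp _ _ _ r f g := Subtype.ext (T.smul_cp r f.1 g.1)
  comp_smul _ _ _ f r g := Subtype.ext (T.cp_smul r f.1 g.1)

theorem add_val {M N : Mot T} (f g : M ⟶ N) : (f + g).1 = f.1 + g.1 := rfl

theorem smul_val {M N : Mot T} (r : ℚ) (f : M ⟶ N) : (r • f).1 = r • f.1 := rfl

theorem zero_val (M N : Mot T) : (0 : M ⟶ N).1 = 0 := rfl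

end Mot

end CHM
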