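import Pool.Agent.CHM.Weil
import Pool.Agent.CHM.Bound

/-!
# The multiplicity of the eigenvalue `q ^ i` of Frobenius on `H^{2i}(X)`
(MP_6c4da4_ag, project CHM)
-/

set_option autoImplicit false

open CategoryTheory MonoidalCategory CartesianMonoidalCategory Limits

universe v u w x

namespace CHM

/-- generalized eigenspaces of restrictions -/
theorem rootMultiplicity_congr {E : Type x} [AddCommGroup E] [Module ℂ E] [Module.Finite ℂ E]
    (A B : Module.End ℂ E) (P Q : Submodule ℂ E) (hA : ∀ x ∈ P, A x ∈ P) (hB : ∀ x ∈ Q, B x ∈ Q)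
    (a b : ℂ) (h : P ⊓ A.maxGenEigenspace a = Q ⊓ B.maxGenEigenspace b) :
    (LinearMap.restrict A hA).charpoly.rootMultiplicity a =
      (LinearMap.restrict B hB).charpoly.rootMultiplicity b := by
  have h2 : ∀ (A : Module.End ℂ E) (P : Submodule ℂ E) (hA : ∀ x ∈ P, A x ∈ P) (a : ℂ),
      (LinearMap.restrict A hA).charpoly.rootMultiplicity a =
        Module.finrank ℂ (P ⊓ A.maxGenEigenspace a : Submodule ℂ E) := by
    intro A P hA a
    have h3 := LinearMap.finrank_maxGenEigenspace_eq (LinearMap.restrict A hA) a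
    have h4 : Module.End.maxGenEigenspace (LinearMap.restrict A hA) a =
        Submodule.comap P.subtype (A.maxGenEigenspace a) :=
      Module.End.genEigenspace_restrict A P ⊤ a hA
    rw [← h3, h4, ← Submodule.map_comap_subtype]
    exact (Submodule.equivMapOfInjective P.subtype P.injective_subtype _).finrank_eq
  rw [h2 A P hA a, h2 B Q hB b, h]

theorem scale_pow {E : Type x} [AddCommGroup E] [Module ℂ E] (A B : Module.End ℂ E) (c d : ℂ)
    (hcd : c * d = 1) (hA : A = c • B) (n : ℕ) :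
    (A - (1 : ℂ) • 1) ^ n = c ^ n • (B - d • 1) ^ n := by
  have h1 : A - (1 : ℂ) • 1 = c • (B - d • 1) := by
    rw [smul_sub, smul_smul, hcd, hA]
  rw [h1, smul_pow]

variable {V : Type u} [Category.{v} V] [CartesianMonoidalCategory V]

namespace Cohomology

variable {T : ChowTheory.{v, u, w} V} {R : FrobeniusMaps T} (K : Cohomology.{v, u, w, x} T R)

/-- The action of the Frobenius endomorphism on the total cohomology. -/
def fr (X : V) : K.H X →ₗ[ℂ] K.H X := K.act (T.gr' (R.Fr X))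

theorem fr_mem (X : V) (j : ℤ) : ∀ x ∈ K.gr X j, K.fr X x ∈ K.gr X j := by
  intro x hx
  have h1 := K.act_mem 0 j (T.gr' (R.Fr X)) x (T.gr_congr (by ring) (T.gr'_mem _)) hx
  rwa [mul_zero, add_zero] at h1

/-- The Frobenius endomorphism on `H^j(X)`. -/
def frob (X : V) (j : ℤ) : K.gr X j →ₗ[ℂ] K.gr X j := (K.fr X).restrict (K.fr_mem X j)

/-- The multiplicity of the eigenvalue `q ^ i` of Frobenius on `H^{2i}(X)`: its multiplicity as a
root of the characteristic polynomial. -/
noncomputable def mult (X : V) (i : ℤ) : ℕ :=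
  (K.frob X (2 * i)).charpoly.rootMultiplicity ((R.q : ℂ) ^ i)

theorem sub_pow_mem (X : V) (c : ℂ) (j : ℤ) (n : ℕ) (x : K.H X) (hx : x ∈ K.gr X j) :
    (((K.fr X : Module.End ℂ (K.H X)) - c • 1) ^ n) x ∈ K.gr X j := by
  induction n with
  | zero => exact hx
  | succ n ih =>
    rw [pow_succ']
    exact sub_mem (K.fr_mem X j _ ih) (Submodule.smul_mem _ _ ih)

/-- a homogeneous generalized eigenvector for `q ^ i` has degree `2i` -/
theorem degree_of_gen (X : V) (i j : ℤ) (n : ℕ) : ∀ x ∈ K.gr X j, x ≠ 0 →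
    (((K.fr X : Module.End ℂ (K.H X)) - ((R.q : ℂ) ^ i) • 1) ^ n) x = 0 → j = 2 * i := by
  induction n with
  | zero =>
    intro x _ hx0 h
    exact absurd h hx0
  | succ n ih =>
    intro x hx hx0 h
    by_cases h0 : (((K.fr X : Module.End ℂ (K.H X)) - ((R.q : ℂ) ^ i) • 1) ^ n) x = 0
    · exact ih x hx hx0 h0
    · have h1 := K.sub_pow_mem X ((R.q : ℂ) ^ i) j n x hx
      rw [pow_succ'] at h
      have h2 : K.fr X ((((K.fr X : Module.End ℂ (K.H X)) - ((R.q : ℂ) ^ i) • 1) ^ n) x) =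
          (R.q : ℂ) ^ i • ((((K.fr X : Module.End ℂ (K.H X)) - ((R.q : ℂ) ^ i) • 1) ^ n) x) :=
        sub_eq_zero.1 h
      have hw := K.weight X j _ _ h1 h0 h2
      rw [norm_zpow, Complex.norm_natCast, ← zpow_natCast, ← zpow_mul] at hw
      have hq1 : (1 : ℝ) < R.q := by exact_mod_cast R.one_lt
      have h5 := zpow_right_injective₀ (by linarith) (ne_of_gt hq1) hw
      push_cast at h5
      rw [← h5]
      ring

/-- The multiplicity of the eigenvalue `1` of the motive `h(X)(i)` is the multiplicity of the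
eigenvalue `q ^ i` of Frobenius on `H^{2i}(X)`. -/
theorem count_even (X : V) (i : ℤ) :
    (K.frobenius.even (Mot.h T X i)).count 1 = K.mult X i := by
  have hq : (R.q : ℂ) ≠ 0 := by
    have := R.q_ne
    exact_mod_cast this
  have hid : ∀ x : K.H X, K.act (Mot.h T X i).p x = x := K.act_diag X
  have hA : ∀ x : K.H X, K.act (R.onMot (Mot.h T X i)).1 x = ((R.q : ℂ) ^ (-i)) • K.fr X x :=
    fun x => K.act_onMot (Mot.h T X i) x (hid x)
  have hpow : ∀ (n : ℕ) (x : K.H X),
      (((K.act (R.onMot (Mot.h T X i)).1 : Module.End ℂ (K.H X)) - (1 : ℂ) • 1) ^ n) x =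
        (((R.q : ℂ) ^ (-i)) ^ n) •
          (((K.fr X : Module.End ℂ (K.H X)) - ((R.q : ℂ) ^ i) • 1) ^ n) x := by
    intro n x
    have h1 := scale_pow (K.act (R.onMot (Mot.h T X i)).1 : Module.End ℂ (K.H X))
      (K.fr X : Module.End ℂ (K.H X)) ((R.q : ℂ) ^ (-i)) ((R.q : ℂ) ^ i)
      (by rw [← zpow_add₀ hq, neg_add_cancel, zpow_zero]) (LinearMap.ext hA) n
    rw [h1]
    rfl
  change (K.onEven (R.onMot (Mot.h T X i))).charpoly.roots.count 1 = _
  rw [Polynomial.count_roots]
  refine rootMultiplicity_congr _ _ _ _ _ _ _ _ ?_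
  ext x
  rw [Submodule.mem_inf, Submodule.mem_inf, Module.End.mem_maxGenEigenspace,
    Module.End.mem_maxGenEigenspace, K.mem_evenPart]
  constructor
  · rintro ⟨-, n, hn⟩
    rw [hpow] at hn
    have hn' : (((K.fr X : Module.End ℂ (K.H X)) - ((R.q : ℂ) ^ i) • 1) ^ n) x = 0 := by
      rcases smul_eq_zero.1 hn with h1 | h1
      · exact absurd h1 (pow_ne_zero _ (zpow_ne_zero _ hq))
      · exact h1
    refine ⟨?_, n, hn'⟩
    obtain ⟨s, y, hy, hxy⟩ := K.exists_sum X x
    rw [hxy] at hn' ⊢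
    refine Submodule.sum_mem _ (fun j hj => ?_)
    by_cases h0 : y j = 0
    · rw [h0]
      exact zero_mem _
    · have h2 := K.sum_eq_zero X s (fun j => (((K.fr X : Module.End ℂ (K.H X)) -
        ((R.q : ℂ) ^ i) • 1) ^ n) (y j)) (fun j => K.sub_pow_mem X _ j n _ (hy j))
        (by rw [← map_sum]; exact hn') j hj
      have h3 := K.degree_of_gen X i j n (y j) (hy j) h0 h2
      rw [← h3]
      exact hy j
  · rintro ⟨hx, n, hn⟩
    refine ⟨⟨hid x, ?_⟩, n, ?_⟩
    · rw [K.sgn_apply X _ x hx, zpow_mul]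
      norm_num
    · rw [hpow, hn, smul_zero]

end Cohomology

end CHM
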