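import Pool.Agent.CHM.Good

/-!
# Numerically trivial morphisms of Chow motives are numerically trivial cycles
(MP_6c4da4_ag, project CHM)
-/

set_option autoImplicit false

open CategoryTheory MonoidalCategory CartesianMonoidalCategory Limits

universe v u w

namespace CHM

variable {V : Type u} [Category.{v} V] [CartesianMonoidalCategory V]

namespace ChowTheory

variable (T : ChowTheory.{v, u, w} V)

/-- the degree of a cycle, restricted to the diagonal: the trace of a correspondence -/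
noncomputable def trc {X : V} (f : T.CH (X ⊗ X)) : ℚ := T.deg (T.pull (lift (𝟙 X) (𝟙 X)) f)

/-- `tr (g ∘ f) = deg (f · transpose of g)` -/
theorem trc_cp {X Y : V} (f : T.CH (X ⊗ Y)) (g : T.CH (Y ⊗ X)) :
    T.trc (T.cp f g) = T.deg (f * T.tr g) := by
  have h1 : T.cp (T.coev f) (T.ev (T.tr g)) = algebraMap ℚ _ (T.trc (T.cp f g)) := by
    have h : T.ev (T.tr g) = T.cp (T.ten (T.diag X) g) (T.ev (T.diag X)) := by
      rw [T.ten_ev, T.cp_diag, T.diag_cp]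
    rw [h, ← T.cp_assoc, T.coev_ten, T.tr_diag, T.diag_cp, T.coev_ev, trc]
  have h2 : T.cp (T.coev f) (T.ev (T.tr g)) = algebraMap ℚ _ (T.deg (f * T.tr g)) := by
    change T.cp (T.pull (snd (𝟙_ V) (X ⊗ Y)) f) (T.pull (fst (X ⊗ Y) (𝟙_ V)) (T.tr g)) = _
    rw [T.cp_pt, ← T.algebraMap_deg, Algebra.algebraMap_eq_smul_one, map_smul,
      Algebra.algebraMap_eq_smul_one, ← T.diag_unit, ChowTheory.diag]
  rw [h2] at h1
  have i : IsIso (lift (𝟙 (𝟙_ V)) (𝟙 (𝟙_ V))) := ⟨fst _ _, by simp, by ext⟩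
  have h3 := congrArg (T.pull (lift (𝟙 (𝟙_ V)) (𝟙 (𝟙_ V)))) h1
  rw [AlgHom.commutes, AlgHom.commutes] at h3
  exact (T.point.1 h3).symm

theorem deg_tr {X Y : V} (f : T.CH (X ⊗ Y)) : T.deg (T.tr f) = T.deg f := by
  have h1 : T.push (toUnit (Y ⊗ X)) (T.tr f) = T.push (toUnit (X ⊗ Y)) f := by
    rw [tr, T.push_reparam _ _ (isIso_swap X Y)]
    refine T.push_congr (by ext) ?_
    rw [← T.pull_comp]
    have e : lift (snd X Y) (fst X Y) ≫ lift (snd Y X) (fst Y X) = 𝟙 _ := by ext <;> simp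
    rw [e, T.pull_id]
  have h2 := T.algebraMap_deg (T.tr f)
  rw [h1, ← T.algebraMap_deg] at h2
  exact T.point.1 h2

theorem trc_comm {X Y : V} (f : T.CH (X ⊗ Y)) (g : T.CH (Y ⊗ X)) :
    T.trc (T.cp f g) = T.trc (T.cp g f) := by
  rw [trc_cp, trc_cp, ← T.deg_tr (f * T.tr g)]
  have h : T.tr (f * T.tr g) = T.tr f * T.tr (T.tr g) := map_mul _ _ _
  rw [h, T.tr_tr, mul_comm]

end ChowTheory

namespace Mot

variable {T : ChowTheory.{v, u, w} V}

theorem trace_zero_iff {M : Mot T} (f : M ⟶ M) : _root_.Mot.trace f = 0 ↔ T.trc f.1 = 0 := by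
  rw [trace_eq]
  constructor
  · intro h
    by_contra hne
    have h2 : 𝟙 (𝟙_ (Mot T)) = 0 := by
      rw [← one_smul ℚ (𝟙 (𝟙_ (Mot T))), ← inv_mul_cancel₀ hne, mul_smul]
      change (T.trc f.1)⁻¹ • (T.deg (T.pull (lift (𝟙 M.X) (𝟙 M.X)) f.1) • 𝟙 (𝟙_ (Mot T))) = 0
      rw [h, smul_zero]
    exact unit_ne h2
  · intro h
    change T.trc f.1 • 𝟙 (𝟙_ (Mot T)) = 0
    rw [h, zero_smul]

/-- A morphism `(X, p, m) ⟶ (Y, q, n)` is numerically trivial if and only if it is numerically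
trivial as a cycle on `X × Y`. -/
theorem numTrivial_iff {M N : Mot T} (f : M ⟶ N) : MotP.NumTrivial f ↔
    (⟨f.1, f.2.1⟩ : T.gr (M.X ⊗ N.X) (T.dim M.X + N.m - M.m)) ∈
      T.num (M.X ⊗ N.X) (T.dim M.X + N.m - M.m) := by
  constructor
  · intro hf b hb
    have hg : T.tr b ∈ T.gr (N.X ⊗ M.X) (T.dim N.X + M.m - N.m) := by
      refine T.gr_congr ?_ (T.pull_mem _ _ _ hb)
      rw [T.dim_tensor]
      ring
    have hg2 : T.cp (T.cp N.p (T.tr b)) M.p ∈ hom N M := by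
      refine ⟨?_, ?_⟩
      · refine T.gr_congr ?_ (T.cp_mem (T.cp_mem N.deg hg) M.deg)
        ring
      · rw [← T.cp_assoc N.p, ← T.cp_assoc N.p, N.idem, T.cp_assoc _ M.p M.p, M.idem]
    have h1 := (trace_zero_iff _).1 (hf ⟨_, hg2⟩)
    rw [comp_val] at h1
    change T.trc (T.cp f.1 (T.cp (T.cp N.p (T.tr b)) M.p)) = 0 at h1
    rw [← T.cp_assoc, ← T.cp_assoc, cp_p f.2, T.trc_comm, ← T.cp_assoc, p_cp f.2, T.trc_cp,
      T.tr_tr] at h1
    exact h1
  · intro hf g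
    rw [trace_zero_iff, comp_val, T.trc_cp]
    refine hf _ ?_
    refine T.gr_congr ?_ (T.pull_mem _ _ _ g.2.1)
    rw [T.dim_tensor]
    ring

end Mot

end CHM
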