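import Mathlib

/-!
# Chow groups, Frobenius, Weil cohomology and Chow motives in plain terms
(MP_6c4da4_ag, project CHM)

The statements of the hand-ins are formulated with the definitions of this file.  Operations are
plain functions.
-/

set_option autoImplicit false

open CategoryTheory MonoidalCategory CartesianMonoidalCategory Limits TensorProduct

universe v u w x

namespace CHM

/-- Chow groups with rational coefficients.  `V` is the category of the smooth projective varieties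
of pure dimension over a field (possibly not connected), `X ⊗ Y` is the product, `𝟙_ V` the point.
All fields are in Fulton, Intersection Theory, Chapters 1 - 8. -/
structure Chow (V : Type u) [Category.{v} V] [CartesianMonoidalCategory V] where
  /-- the dimension -/
  dim : V → ℤ
  dim_unit : dim (𝟙_ V) = 0
  dim_tensor : ∀ X Y : V, dim (X ⊗ Y) = dim X + dim Y
  /-- the Chow ring `CH^*(X)_ℚ` -/
  CH : V → Type w
  /-- `gr i a` says that `a` is in `CH^i(X)_ℚ` (codimension `i`) -/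
  gr : ∀ {X : V}, ℤ → CH X → Prop
  zero : ∀ {X : V}, CH X
  one : ∀ {X : V}, CH X
  add : ∀ {X : V}, CH X → CH X → CH X
  mul : ∀ {X : V}, CH X → CH X → CH X
  smul : ∀ {X : V}, ℚ → CH X → CH X
  /-- these are the operations of a commutative graded `ℚ`-algebra -/
  algebra : ∀ X : V, ∃ (_ : CommRing (CH X)) (_ : Algebra ℚ (CH X)) (G : ℤ → Submodule ℚ (CH X))
    (_ : GradedAlgebra G), (∀ (i : ℤ) (a : CH X), gr i a ↔ a ∈ G i) ∧ (zero : CH X) = 0 ∧
      (one : CH X) = 1 ∧ (∀ a b : CH X, add a b = a + b) ∧ (∀ a b : CH X, mul a b = a * b) ∧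
      ∀ (r : ℚ) (a : CH X), smul r a = r • a
  /-- the pullback `f^*`, a homomorphism of graded algebras -/
  pull : ∀ {X Y : V}, (X ⟶ Y) → CH Y → CH X
  pull_id : ∀ (X : V) (a : CH X), pull (𝟙 X) a = a
  pull_comp : ∀ {X Y Z : V} (f : X ⟶ Y) (g : Y ⟶ Z) (a : CH Z), pull (f ≫ g) a = pull f (pull g a)
  pull_one : ∀ {X Y : V} (f : X ⟶ Y), pull f one = one
  pull_add : ∀ {X Y : V} (f : X ⟶ Y) (a b : CH Y), pull f (add a b) = add (pull f a) (pull f b)
  pull_mul : ∀ {X Y : V} (f : X ⟶ Y) (a b : CH Y), pull f (mul a b) = mul (pull f a) (pull f b)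
  pull_smul : ∀ {X Y : V} (f : X ⟶ Y) (r : ℚ) (a : CH Y), pull f (smul r a) = smul r (pull f a)
  pull_gr : ∀ {X Y : V} (f : X ⟶ Y) (i : ℤ) (a : CH Y), gr i a → gr i (pull f a)
  /-- the pushforward `f_*`, linear, it respects the dimension of cycles -/
  push : ∀ {X Y : V}, (X ⟶ Y) → CH X → CH Y
  push_id : ∀ (X : V) (a : CH X), push (𝟙 X) a = a
  push_comp : ∀ {X Y Z : V} (f : X ⟶ Y) (g : Y ⟶ Z) (a : CH X), push (f ≫ g) a = push g (push f a)
  push_add : ∀ {X Y : V} (f : X ⟶ Y) (a b : CH X), push f (add a b) = add (push f a) (push f b)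
  push_smul : ∀ {X Y : V} (f : X ⟶ Y) (r : ℚ) (a : CH X), push f (smul r a) = smul r (push f a)
  push_gr : ∀ {X Y : V} (f : X ⟶ Y) (i : ℤ) (a : CH X), gr i a → gr (i + dim Y - dim X) (push f a)
  /-- the projection formula `f_* (f^* b · a) = b · f_* a` -/
  projection : ∀ {X Y : V} (f : X ⟶ Y) (a : CH X) (b : CH Y),
    push f (mul (pull f b) a) = mul b (push f a)
  /-- base change: `g^* f_* = f'_* g'^*` for cartesian squares in which `g` is the projection of a
  product to a factor (up to an isomorphism) -/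
  base_change : ∀ {P X Y Z B : V} (g' : P ⟶ X) (f' : P ⟶ Z) (f : X ⟶ Y) (g : Z ⟶ Y)
    (e : Z ≅ Y ⊗ B), IsPullback g' f' f g → g = e.hom ≫ fst Y B →
      ∀ a : CH X, pull g (push f a) = push f' (pull g' a)
  /-- the Chow ring of the point is `ℚ` -/
  point : ∀ a : CH (𝟙_ V), ∃! r : ℚ, a = smul r one
  /-- the disjoint union `Z` of two varieties `X`, `Y` of the same dimension:
  `CH^k(W × Z) = CH^k(W × X) × CH^k(W × Y)` -/
  union : ∀ X Y : V, dim X = dim Y → ∃ (Z : V) (i : X ⟶ Z) (j : Y ⟶ Z), dim Z = dim X ∧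
    ∀ W : V, (∀ a : CH (W ⊗ Z), pull (W ◁ i) a = zero → pull (W ◁ j) a = zero → a = zero) ∧
      ∀ (k : ℤ) (b : CH (W ⊗ X)) (c : CH (W ⊗ Y)), gr k b → gr k c →
        ∃ a : CH (W ⊗ Z), gr k a ∧ pull (W ◁ i) a = b ∧ pull (W ◁ j) a = c
  /-- the projective line `E` and the class `c` of a rational point -/
  line : ∃ (E : V) (c : CH E), dim E = 1 ∧ gr 1 c ∧ push (toUnit E) c = one

namespace Chow

variable {V : Type u} [Category.{v} V] [CartesianMonoidalCategory V] (L : Chow.{v, u, w} V)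

/-- The composition of correspondences: `pr₁₃_* (pr₁₂^* f · pr₂₃^* g)`. -/
def comp {X Y Z : V} (f : L.CH (X ⊗ Y)) (g : L.CH (Y ⊗ Z)) : L.CH (X ⊗ Z) :=
  L.push (lift (fst (X ⊗ Y) Z ≫ fst X Y) (snd (X ⊗ Y) Z))
    (L.mul (L.pull (fst (X ⊗ Y) Z) f) (L.pull (lift (fst (X ⊗ Y) Z ≫ snd X Y) (snd (X ⊗ Y) Z)) g))

/-- The class on `X × X` of the cycle `a` on the diagonal, for instance the diagonal itself for
`a = 1`; as a correspondence it is the multiplication by `a`. -/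
def onDiag {X : V} (a : L.CH X) : L.CH (X ⊗ X) := L.push (lift (𝟙 X) (𝟙 X)) a

/-- The transposed graph of `φ : Y ⟶ X`, a correspondence from `X` to `Y`: the pullback. -/
def graph {X Y : V} (φ : Y ⟶ X) : L.CH (X ⊗ Y) := L.push (lift φ (𝟙 Y)) L.one

/-- The tensor product of correspondences. -/
def tensor {X Y X' Y' : V} (f : L.CH (X ⊗ Y)) (f' : L.CH (X' ⊗ Y')) :
    L.CH ((X ⊗ X') ⊗ (Y ⊗ Y')) :=
  L.mul (L.pull (fst X X' ⊗ₘ fst Y Y') f) (L.pull (snd X X' ⊗ₘ snd Y Y') f')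

/-- The action of a correspondence on cycles: `a ↦ pr₂_* (pr₁^* a · f)`. -/
def act {X Y : V} (f : L.CH (X ⊗ Y)) (a : L.CH X) : L.CH Y :=
  L.push (snd X Y) (L.mul (L.pull (fst X Y) a) f)

/-- `b · l ^ k` -/
def mulPow {X : V} (l : L.CH X) (k : ℕ) (b : L.CH X) : L.CH X := (fun c => L.mul c l)^[k] b

/-- The degree of `a` is zero. -/
def DegZero {X : V} (a : L.CH X) : Prop := L.push (toUnit X) a = L.zero

/-- Chow motives with rational coefficients: triples `(X, p, m)` with `p ∈ CH^(dim X)(X × X)`,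
`p ∘ p = p`, `m` an integer. -/
structure Motive where
  X : V
  p : L.CH (X ⊗ X)
  m : ℤ
  deg : L.gr (L.dim X) p
  idem : L.comp p p = p

/-- `f` is a morphism `(X, p, m) ⟶ (Y, q, n)`: it is in `CH^(dim X + n - m)(X × Y)` and
`q ∘ f ∘ p = f`. -/
def IsHom (M N : L.Motive) (f : L.CH (M.X ⊗ N.X)) : Prop :=
  L.gr (L.dim M.X + N.m - M.m) f ∧ L.comp (L.comp M.p f) N.p = f

/-- `k : K ⟶ M` is a kernel of `f : M ⟶ N`. -/
def IsKernel (K M N : L.Motive) (k : L.CH (K.X ⊗ M.X)) (f : L.CH (M.X ⊗ N.X)) : Prop :=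
  L.IsHom K M k ∧ L.comp k f = L.zero ∧ ∀ (A : L.Motive) (a : L.CH (A.X ⊗ M.X)), L.IsHom A M a →
    L.comp a f = L.zero → ∃! b : L.CH (A.X ⊗ K.X), L.IsHom A K b ∧ L.comp b k = a

/-- `c : N ⟶ C` is a cokernel of `f : M ⟶ N`. -/
def IsCokernel (M N C : L.Motive) (f : L.CH (M.X ⊗ N.X)) (c : L.CH (N.X ⊗ C.X)) : Prop :=
  L.IsHom N C c ∧ L.comp f c = L.zero ∧ ∀ (A : L.Motive) (a : L.CH (N.X ⊗ A.X)), L.IsHom N A a →
    L.comp f a = L.zero → ∃! b : L.CH (C.X ⊗ A.X), L.IsHom C A b ∧ L.comp c b = a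

/-- The category of Chow motives is abelian: every morphism `f : M ⟶ N` has a kernel `k` and a
cokernel `c`, and `f = i ∘ e` with `e` a cokernel of `k` (the coimage) and `i` a kernel of `c` (the
image). -/
def IsAbelian : Prop :=
  ∀ (M N : L.Motive) (f : L.CH (M.X ⊗ N.X)), L.IsHom M N f →
    ∃ (K C I : L.Motive) (k : L.CH (K.X ⊗ M.X)) (c : L.CH (N.X ⊗ C.X)) (e : L.CH (M.X ⊗ I.X))
      (i : L.CH (I.X ⊗ N.X)), L.IsKernel K M N k f ∧ L.IsCokernel M N C f c ∧
        L.IsCokernel K M I k e ∧ L.IsKernel I N C i c ∧ L.comp e i = f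

end Chow

variable {V : Type u} [Category.{v} V] [CartesianMonoidalCategory V]

/-- The Frobenius endomorphisms over the field with `q` elements. -/
structure Frob (L : Chow.{v, u, w} V) where
  q : ℕ
  one_lt : 1 < q
  Fr : ∀ X : V, X ⟶ X
  natural : ∀ {X Y : V} (f : X ⟶ Y), f ≫ Fr Y = Fr X ≫ f
  pull_Fr : ∀ (X : V) (i : ℤ) (a : L.CH X), L.gr i a → L.pull (Fr X) a = L.smul ((q : ℚ) ^ i) a
  push_Fr : ∀ X : V, L.push (Fr X) L.one = L.smul ((q : ℚ) ^ L.dim X) L.one

/-- A Weil cohomology with complex coefficients and with weights. -/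
structure Weil (L : Chow.{v, u, w} V) (R : Frob L) where
  /-- the cohomology `H^*(X)` -/
  H : V → Type x
  /-- `gr i y` says that `y` is in `H^i(X)` -/
  gr : ∀ {X : V}, ℤ → H X → Prop
  zero : ∀ {X : V}, H X
  add : ∀ {X : V}, H X → H X → H X
  smul : ∀ {X : V}, ℂ → H X → H X
  /-- the action of a correspondence from `X` to `Y`: `y ↦ pr₂_* (pr₁^* y ∪ cl f)` -/
  act : ∀ {X Y : V}, L.CH (X ⊗ Y) → H X → H Y
  /-- these are the operations of a graded vector space of finite dimension; trace formula: the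
  degree of the intersection of `f ∈ CH^(dim X)(X × X)` with the diagonal is the alternating sum of
  the traces of `f` on the `H^i(X)` -/
  space : ∀ X : V, ∃ (_ : AddCommGroup (H X)) (_ : Module ℂ (H X)) (G : ℤ → Submodule ℂ (H X)),
    Module.Finite ℂ (H X) ∧ DirectSum.IsInternal G ∧ (∀ (i : ℤ) (y : H X), gr i y ↔ y ∈ G i) ∧
      (zero : H X) = 0 ∧ (∀ y z : H X, add y z = y + z) ∧ (∀ (c : ℂ) (y : H X), smul c y = c • y) ∧
      ∀ (f : L.CH (X ⊗ X)) (r : ℚ), L.gr (L.dim X) f →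
        L.push (toUnit X) (L.pull (lift (𝟙 X) (𝟙 X)) f) = L.smul r L.one →
        ∃ A : H X →ₗ[ℂ] H X, (∀ (i : ℤ) (y : H X), gr i y → A y = (-1 : ℂ) ^ i • act f y) ∧
          LinearMap.trace ℂ (H X) A = r
  act_add : ∀ {X Y : V} (f g : L.CH (X ⊗ Y)) (y : H X), act (L.add f g) y = add (act f y) (act g y)
  act_add' : ∀ {X Y : V} (f : L.CH (X ⊗ Y)) (y z : H X), act f (add y z) = add (act f y) (act f z)
  act_smul : ∀ {X Y : V} (f : L.CH (X ⊗ Y)) (c : ℂ) (y : H X), act f (smul c y) = smul c (act f y)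
  act_diag : ∀ (X : V) (y : H X), act (L.onDiag L.one) y = y
  act_comp : ∀ {X Y Z : V} (f : L.CH (X ⊗ Y)) (g : L.CH (Y ⊗ Z)) (y : H X),
    act (L.comp f g) y = act g (act f y)
  act_gr : ∀ {X Y : V} (r i : ℤ) (f : L.CH (X ⊗ Y)) (y : H X), L.gr (L.dim X + r) f → gr i y →
    gr (i + 2 * r) (act f y)
  /-- the exterior product; it is the tensor product of `H X` and `H Y` (Kuenneth formula) -/
  prod : ∀ {X Y : V}, H X → H Y → H (X ⊗ Y)
  add_prod : ∀ {X Y : V} (y y' : H X) (z : H Y), prod (add y y') z = add (prod y z) (prod y' z)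
  prod_add : ∀ {X Y : V} (y : H X) (z z' : H Y), prod y (add z z') = add (prod y z) (prod y z')
  smul_prod : ∀ {X Y : V} (c : ℂ) (y : H X) (z : H Y), prod (smul c y) z = smul c (prod y z)
  prod_smul : ∀ {X Y : V} (c : ℂ) (y : H X) (z : H Y), prod y (smul c z) = smul c (prod y z)
  kunneth_surj : ∀ (X Y : V) (P : H (X ⊗ Y) → Prop), P zero → (∀ (y : H X) (z : H Y), P (prod y z)) →
    (∀ s t, P s → P t → P (add s t)) → ∀ s, P s
  kunneth_inj : ∀ (X Y : V) (b : H X → H Y → ℂ),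
    (∀ y y' z, b (add y y') z = b y z + b y' z) → (∀ y z z', b y (add z z') = b y z + b y z') →
    (∀ c y z, b (smul c y) z = c * b y z) → (∀ c y z, b y (smul c z) = c * b y z) →
    ∃ l : H (X ⊗ Y) → ℂ, (∀ s t, l (add s t) = l s + l t) ∧ ∀ y z, l (prod y z) = b y z
  act_tensor : ∀ {X Y X' Y' : V} (f : L.CH (X ⊗ Y)) (f' : L.CH (X' ⊗ Y')) (y : H X) (y' : H X'),
    act (L.tensor f f') (prod y y') = prod (act f y) (act f' y')
  /-- weights: the eigenvalues of Frobenius on `H^i(X)` have absolute value `q ^ (i / 2)` -/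
  weight : ∀ (X : V) (i : ℤ) (y : H X) (c : ℂ), gr i y → y ≠ zero →
    act (L.graph (R.Fr X)) y = smul c y → ‖c‖ ^ 2 = (R.q : ℝ) ^ i

/-- `l ∈ CH^1(X)` satisfies the hard Lefschetz theorem: for `j + k = dim X`, the multiplication
with `l ^ k` is a bijection of `H^j(X)` onto `H^(j+2k)(X)`. -/
def Weil.HardLefschetz {L : Chow.{v, u, w} V} {R : Frob L} (K : Weil.{v, u, w, x} L R) (X : V)
    (l : L.CH X) : Prop :=
  ∀ (j : ℤ) (k : ℕ), j + k = L.dim X →
    (∀ y, K.gr j y → K.act (L.onDiag (L.mulPow l k L.one)) y = K.zero → y = K.zero) ∧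
      ∀ z, K.gr (j + 2 * k) z → ∃ y, K.gr j y ∧ K.act (L.onDiag (L.mulPow l k L.one)) y = z

end CHM
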