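import Pool.Agent.CHM.Num

/-!
# Rational and numerical equivalence for generated motives (MP_6c4da4_ag, project CHM)
-/

set_option autoImplicit false

open CategoryTheory MonoidalCategory CartesianMonoidalCategory Limits

universe v u w

namespace CHM

variable {V : Type u} [Category.{v} V] [CartesianMonoidalCategory V]

namespace Mot

variable {T : ChowTheory.{v, u, w} V}

theorem trace_zero_of_zero {M : Mot T} (f : M ⟶ M) (h : f = 0) : _root_.Mot.trace f = 0 := by
  rw [trace_zero_iff, h, zero_val, ChowTheory.trc, map_zero, map_zero]

/-- If numerically trivial morphisms between generated motives vanish, then rational and numerical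
equivalence agree on the varieties with a generated motive. -/
theorem num_eq_bot {W : MotP.Frobenius (Mot T)}
    (hn : ∀ (M N : Mot T) (f : M ⟶ N), Mot73.Generated W M → Mot73.Generated W N →
      MotP.NumTrivial f → f = 0) {X : V} {m : ℤ} (hX : Mot73.Generated W (h T X m)) (i : ℤ) :
    T.num X i = ⊥ := by
  rw [eq_bot_iff]
  intro a ha
  rw [Submodule.mem_bot]
  have h1 : secEquiv T X i a = 0 := by
    refine hn _ _ _ Mot73.Generated.unit (gen_shift hX i) ?_
    intro g
    exact trace_zero_of_zero _ ((nt_iff a).2 ha g)
  exact (map_eq_zero_iff _ (secEquiv T X i).injective).1 h1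

/-- The main theorem on rational and numerical equivalence: `A` is the category of the generated
motives.  If all Chow motives form an abelian category, so does `A`; `A` is abelian if and only if
rational and numerical equivalence agree on the Hom spaces of `A`; and then they agree on all
varieties `X` with `h(X)` in `A`. -/
theorem ratNum (W : MotP.Frobenius (Mot T)) :
    (MotP.IsAbelian (Mot T) → MotP.IsAbelian (Mot73.GeneratedCategory W)) ∧
    (MotP.IsAbelian (Mot73.GeneratedCategory W) ↔
      ∀ (M N : Mot T), Mot73.Generated W M → Mot73.Generated W N → ∀ f : M ⟶ N,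
        (⟨f.1, f.2.1⟩ : T.gr (M.X ⊗ N.X) (T.dim M.X + N.m - M.m)) ∈ T.num _ _ → f = 0) ∧
    (MotP.IsAbelian (Mot73.GeneratedCategory W) →
      ∀ (X : V) (m : ℤ), Mot73.Generated W (h T X m) → ∀ i, T.num X i = ⊥) := by
  obtain ⟨h1, h2⟩ := Mot73.main W
  refine ⟨h1, h2.trans ?_, ?_⟩
  · constructor
    · intro h3 M N hM hN f hf
      exact h3 M N f hM hN ((numTrivial_iff f).2 hf)
    · intro h3 M N f hM hN hf
      exact h3 M N hM hN f ((numTrivial_iff f).1 hf)
  · intro hA X m hX i
    exact num_eq_bot (h2.1 hA) hX i

end Mot

end CHM
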