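import Pool.Agent.MotC.Cons

/-!
# Reflection of monomorphisms and epimorphisms, without a monoidal functor (MP_6c4da4_ag, CHM)

A variant of `Pool.Agent.MotC.Cons`: `H` is a functor such that tensor products of split
monomorphisms (epimorphisms) are split, and `H g = 0` implies that the trace of `g` is zero.
-/

set_option autoImplicit false

open CategoryTheory MonoidalCategory BraidedCategory Limits Mot MotC

universe v u v' u'

namespace CHM

noncomputable section

variable {C : Type u} [Category.{v} C] [Abelian C] [Linear ℚ C] [MonoidalCategory C]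
  [SymmetricCategory C] [MonoidalPreadditive C] [MonoidalLinear ℚ C] [RightRigidCategory C]

/-- The properties of a realization which are used. -/
structure Realization (C : Type u) [Category.{v} C] [Abelian C] [Linear ℚ C] [MonoidalCategory C]
    [SymmetricCategory C] [MonoidalPreadditive C] [MonoidalLinear ℚ C] [RightRigidCategory C]
    (D : Type u') [Category.{v'} D] [Preadditive D] where
  H : C ⥤ D
  map_zero : ∀ X Y : C, H.map (0 : X ⟶ Y) = 0
  mono : ∀ {P Q X Y : C} (a : P ⟶ Q) (f : X ⟶ Y), IsSplitMono (H.map a) → IsSplitMono (H.map f) →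
    IsSplitMono (H.map (a ⊗ₘ f))
  epi : ∀ {P Q X Y : C} (a : P ⟶ Q) (f : X ⟶ Y), IsSplitEpi (H.map a) → IsSplitEpi (H.map f) →
    IsSplitEpi (H.map (a ⊗ₘ f))
  trace : ∀ {X : C} (g : X ⟶ X), H.map g = 0 → tr X g = 0

namespace Realization

variable {D : Type u'} [Category.{v'} D] [Preadditive D] (K : Realization C D) (W : Frob C)

theorem mono_Tm {X Y : C} (f : X ⟶ Y) (hf : IsSplitMono (K.H.map f)) (n : ℕ) :
    IsSplitMono (K.H.map (Tm f n)) := by
  induction n with
  | zero =>
    have h : IsSplitMono (K.H.map (𝟙 (𝟙_ C))) := inferInstance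
    exact h
  | succ n ih => exact K.mono _ _ ih hf

theorem epi_Tm {X Y : C} (f : X ⟶ Y) (hf : IsSplitEpi (K.H.map f)) (n : ℕ) :
    IsSplitEpi (K.H.map (Tm f n)) := by
  induction n with
  | zero =>
    have h : IsSplitEpi (K.H.map (𝟙 (𝟙_ C))) := inferInstance
    exact h
  | succ n ih => exact K.epi _ _ ih hf

include W in
/-- the image of the top projector is non-zero -/
theorem top_ne {ε : ℤ} (hε : ε = 1 ∨ ε = -1) {X : C} (hX : Ty W ε X) (n : ℕ)
    (hn : W.tv X = n + 1) : K.H.map (pj (ε : ℚ) X (n + 1)) ≠ 0 := by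
  have hε' : (ε : ℚ) * ε = 1 := by
    rcases hε with h5 | h5 <;> subst h5 <;> norm_num
  obtain ⟨γ, hγ, ht⟩ := ty_gamma W hε hX
  have h0 : W.t X 0 = (ε : ℚ) * ((n + 1 : ℕ) : ℚ) := by
    have h1 := ht 0
    simp only [pow_zero, Multiset.map_const', Multiset.sum_replicate, nsmul_eq_mul, mul_one] at h1
    rw [hγ, hn] at h1
    exact_mod_cast h1
  intro h
  exact tr_top W hε' X n h0 (K.trace _ h)

include W in
/-- the case of objects of one type, monomorphisms -/
theorem mono_of_ty {ε : ℤ} (hε : ε = 1 ∨ ε = -1) {X Y : C} (hX : Ty W ε X)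
    (hY : Ty W ε Y) (f : X ⟶ Y) (hf : IsSplitMono (K.H.map f)) : Mono f := by
  have hε' : (ε : ℚ) * ε = 1 := by
    rcases hε with h5 | h5 <;> subst h5 <;> norm_num
  set B := Abelian.image f with hB
  set p : X ⟶ B := Abelian.factorThruImage f with hp
  set i : B ⟶ Y := Abelian.image.ι f with hi
  have hpi : p ≫ i = f := Abelian.image.fac f
  have hBt : Ty W ε B := ty_of_mono W hε hY i
  obtain ⟨γ, hγ, ht⟩ := ty_gamma W hε hBt
  have hX' : W.tv X ≤ W.tv B := by
    by_contra hcon
    obtain ⟨n, hn⟩ : ∃ n, W.tv X = n + 1 := ⟨W.tv X - 1, by omega⟩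
    have h1 : Tm f (n + 1) ≫ pj (ε : ℚ) Y (n + 1) = 0 := by
      rw [← hpi, Tm_comp, Category.assoc, pj_nat, W.pj_zero hε' B γ ht n (by omega),
        Limits.zero_comp, Limits.comp_zero]
    rw [pj_nat] at h1
    obtain ⟨⟨s, hs⟩⟩ := K.mono_Tm f hf (n + 1)
    have h3 : K.H.map (pj (ε : ℚ) X (n + 1)) ≫ K.H.map (Tm f (n + 1)) = 0 := by
      rw [← K.H.map_comp, h1, K.map_zero]
    have h4 : K.H.map (pj (ε : ℚ) X (n + 1)) = 0 := by
      have h5 : (K.H.map (pj (ε : ℚ) X (n + 1)) ≫ K.H.map (Tm f (n + 1))) ≫ s = 0 := by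
        rw [h3, Limits.zero_comp]
      rw [Category.assoc, hs, Category.comp_id] at h5
      exact h5
    exact K.top_ne W hε hX n hn h4
  have hS : (ShortComplex.mk (kernel.ι p) p (kernel.condition p)).ShortExact :=
    { exact := ShortComplex.exact_kernel p
      mono_f := inferInstanceAs (Mono (kernel.ι p))
      epi_g := inferInstanceAs (Epi (Abelian.factorThruImage f)) }
  have h1 := W.tv_add hS
  change W.tv X = W.tv (kernel p) + W.tv B at h1
  have h2 : IsZero (kernel p) := by
    by_contra h3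
    have := W.tv_pos h3
    omega
  have h3 : Mono p := Abelian.mono_of_kernel_ι_eq_zero p (h2.eq_of_src _ _)
  have h4 : Mono i := inferInstanceAs (Mono (Abelian.image.ι f))
  rw [← hpi]
  exact mono_comp p i

include W in
/-- the case of objects of one type, epimorphisms -/
theorem epi_of_ty {ε : ℤ} (hε : ε = 1 ∨ ε = -1) {X Y : C}
    (hY : Ty W ε Y) (f : X ⟶ Y) (hf : IsSplitEpi (K.H.map f)) : Epi f := by
  have hε' : (ε : ℚ) * ε = 1 := by
    rcases hε with h5 | h5 <;> subst h5 <;> norm_num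
  set B := Abelian.image f with hB
  set p : X ⟶ B := Abelian.factorThruImage f with hp
  set i : B ⟶ Y := Abelian.image.ι f with hi
  have hpi : p ≫ i = f := Abelian.image.fac f
  have hBt : Ty W ε B := ty_of_mono W hε hY i
  obtain ⟨γ, hγ, ht⟩ := ty_gamma W hε hBt
  have hY' : W.tv Y ≤ W.tv B := by
    by_contra hcon
    obtain ⟨n, hn⟩ : ∃ n, W.tv Y = n + 1 := ⟨W.tv Y - 1, by omega⟩
    have h1 : Tm f (n + 1) ≫ pj (ε : ℚ) Y (n + 1) = 0 := by
      rw [← hpi, Tm_comp, Category.assoc, pj_nat, W.pj_zero hε' B γ ht n (by omega),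
        Limits.zero_comp, Limits.comp_zero]
    obtain ⟨⟨s, hs⟩⟩ := K.epi_Tm f hf (n + 1)
    have h3 : K.H.map (Tm f (n + 1)) ≫ K.H.map (pj (ε : ℚ) Y (n + 1)) = 0 := by
      rw [← K.H.map_comp, h1, K.map_zero]
    have h4 : K.H.map (pj (ε : ℚ) Y (n + 1)) = 0 := by
      have h5 : s ≫ (K.H.map (Tm f (n + 1)) ≫ K.H.map (pj (ε : ℚ) Y (n + 1))) = 0 := by
        rw [h3, Limits.comp_zero]
      rw [← Category.assoc, hs, Category.id_comp] at h5
      exact h5
    exact K.top_ne W hε hY n hn h4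
  have hS : (ShortComplex.mk i (cokernel.π i) (cokernel.condition i)).ShortExact :=
    { exact := ShortComplex.exact_cokernel i
      mono_f := inferInstanceAs (Mono (Abelian.image.ι f))
      epi_g := inferInstanceAs (Epi (cokernel.π i)) }
  have h1 := W.tv_add hS
  change W.tv Y = W.tv B + W.tv (cokernel i) at h1
  have h2 : IsZero (cokernel i) := by
    by_contra h3
    have := W.tv_pos h3
    omega
  have h3 : Epi i := Abelian.epi_of_cokernel_π_eq_zero i (h2.eq_of_tgt _ _)
  have h4 : Epi p := inferInstanceAs (Epi (Abelian.factorThruImage f))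
  rw [← hpi]
  exact epi_comp p i

include W in
/-- `H` reflects monomorphisms which split in `D` -/
theorem reflects_mono {X Y : C} (f : X ⟶ Y) (hf : IsSplitMono (K.H.map f)) : Mono f := by
  obtain ⟨⟨r, hr⟩⟩ := hf
  obtain ⟨A, B, A', B', e, e', a, b, hA, hA', hB, hB', hfe⟩ := block W f
  have hae : biprod.inl ≫ e.inv ≫ f = a ≫ biprod.inl ≫ e'.inv := by
    rw [hfe, e.inv_hom_id_assoc, ← Category.assoc, biprod.inl_map, Category.assoc]
  have hbe : biprod.inr ≫ e.inv ≫ f = b ≫ biprod.inr ≫ e'.inv := by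
    rw [hfe, e.inv_hom_id_assoc, ← Category.assoc, biprod.inr_map, Category.assoc]
  have ha : K.H.map a ≫ (K.H.map (biprod.inl ≫ e'.inv) ≫ r ≫ K.H.map (e.hom ≫ biprod.fst)) =
      𝟙 _ := by
    rw [← Category.assoc, ← K.H.map_comp, ← hae, ← Category.assoc biprod.inl, K.H.map_comp,
      Category.assoc, ← Category.assoc (K.H.map f), hr, Category.id_comp, ← K.H.map_comp]
    simp
  have hb : K.H.map b ≫ (K.H.map (biprod.inr ≫ e'.inv) ≫ r ≫ K.H.map (e.hom ≫ biprod.snd)) =
      𝟙 _ := by
    rw [← Category.assoc, ← K.H.map_comp, ← hbe, ← Category.assoc biprod.inr, K.H.map_comp,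
      Category.assoc, ← Category.assoc (K.H.map f), hr, Category.id_comp, ← K.H.map_comp]
    simp
  have ha1 : Mono a := K.mono_of_ty W (Or.inl rfl) hA hA' a ⟨⟨_, ha⟩⟩
  have hb1 : Mono b := K.mono_of_ty W (Or.inr rfl) hB hB' b ⟨⟨_, hb⟩⟩
  have hm : Mono (biprod.map a b) := by
    constructor
    intro Z u v huv
    ext
    · rw [← cancel_mono a]
      have h1 := congrArg (fun w => w ≫ biprod.fst) huv
      simpa using h1
    · rw [← cancel_mono b]
      have h1 := congrArg (fun w => w ≫ biprod.snd) huv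
      simpa using h1
  rw [hfe]
  infer_instance

include W in
/-- `H` reflects epimorphisms which split in `D` -/
theorem reflects_epi {X Y : C} (f : X ⟶ Y) (hf : IsSplitEpi (K.H.map f)) : Epi f := by
  obtain ⟨⟨r, hr⟩⟩ := hf
  obtain ⟨A, B, A', B', e, e', a, b, hA, hA', hB, hB', hfe⟩ := block W f
  have hae : f ≫ e'.hom ≫ biprod.fst = e.hom ≫ biprod.fst ≫ a := by
    rw [hfe]
    simp
  have hbe : f ≫ e'.hom ≫ biprod.snd = e.hom ≫ biprod.snd ≫ b := by
    rw [hfe]
    simp
  have ha : (K.H.map (biprod.inl ≫ e'.inv) ≫ r ≫ K.H.map (e.hom ≫ biprod.fst)) ≫ K.H.map a =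
      𝟙 _ := by
    rw [Category.assoc, Category.assoc, ← K.H.map_comp, Category.assoc, ← hae, K.H.map_comp f,
      ← Category.assoc r, hr, Category.id_comp, ← K.H.map_comp]
    simp
  have hb : (K.H.map (biprod.inr ≫ e'.inv) ≫ r ≫ K.H.map (e.hom ≫ biprod.snd)) ≫ K.H.map b =
      𝟙 _ := by
    rw [Category.assoc, Category.assoc, ← K.H.map_comp, Category.assoc, ← hbe, K.H.map_comp f,
      ← Category.assoc r, hr, Category.id_comp, ← K.H.map_comp]
    simp
  have ha1 : Epi a := K.epi_of_ty W (Or.inl rfl) hA' a ⟨⟨_, ha⟩⟩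
  have hb1 : Epi b := K.epi_of_ty W (Or.inr rfl) hB' b ⟨⟨_, hb⟩⟩
  have hm : Epi (biprod.map a b) := by
    constructor
    intro Z u v huv
    ext
    · rw [← cancel_epi a]
      have h1 := congrArg (fun w => biprod.inl ≫ w) huv
      simpa using h1
    · rw [← cancel_epi b]
      have h1 := congrArg (fun w => biprod.inr ≫ w) huv
      simpa using h1
  rw [hfe]
  infer_instance

end Realization

end

end CHM
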