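import Pool.Agent.CHM.Rig
import Pool.Agent.MotP.Defs

/-!
# The trace of an endomorphism of a Chow motive (MP_6c4da4_ag, project CHM)
-/

set_option autoImplicit false

open CategoryTheory MonoidalCategory CartesianMonoidalCategory Limits

universe v u w

namespace CHM

variable {V : Type u} [Category.{v} V] [CartesianMonoidalCategory V]

namespace ChowTheory

variable (T : ChowTheory.{v, u, w} V)

/-- The degree of a cycle: the pushforward to the point. -/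
noncomputable def deg {X : V} : T.CH X →ₗ[ℚ] ℚ :=
  (LinearEquiv.ofBijective (Algebra.linearMap ℚ (T.CH (𝟙_ V))) T.point).symm.toLinearMap ∘ₗ
    T.push (toUnit X)

theorem algebraMap_deg {X : V} (a : T.CH X) :
    algebraMap ℚ (T.CH (𝟙_ V)) (T.deg a) = T.push (toUnit X) a := by
  have h := (LinearEquiv.ofBijective (Algebra.linearMap ℚ (T.CH (𝟙_ V))) T.point).apply_symm_apply
    (T.push (toUnit X) a)
  exact h

theorem point_exists (a : T.CH (𝟙_ V)) : ∃ r : ℚ, algebraMap ℚ _ r = a := T.point.2 a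

theorem coev_ev {X : V} (f : T.CH (X ⊗ X)) :
    T.cp (T.coev f) (T.ev (T.diag X)) = algebraMap ℚ _ (T.deg (T.pull (lift (𝟙 X) (𝟙 X)) f)) := by
  rw [T.ev_diag, ← T.cp_assoc, T.cp_gr', T.cp_gra, coev, ← T.pull_comp]
  have h1 : algebraMap ℚ (T.CH (𝟙_ V ⊗ 𝟙_ V)) (T.deg (T.pull (lift (𝟙 X) (𝟙 X)) f)) =
      T.pull (snd (𝟙_ V) (𝟙_ V)) (T.push (toUnit X) (T.pull (lift (𝟙 X) (𝟙 X)) f)) := by
    rw [← T.algebraMap_deg, AlgHom.commutes]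
  rw [h1, T.bc (P := 𝟙_ V ⊗ X) (snd _ _) (𝟙_ V ◁ toUnit X) (toUnit X) (snd (𝟙_ V) (𝟙_ V))
    (fst _ _) ⟨lift (snd _ _) (fst _ _), by ext, by ext⟩
    ⟨lift (snd _ _) (fst _ _), by ext; simp, by ext; simp⟩ (by ext), ← T.pull_comp]
  exact T.push_congr rfl (T.pull_congr (by ext <;> simp [leftUnitor_hom]) _)

theorem cp_coev_ev {X : V} (f g : T.CH (X ⊗ X)) :
    T.cp (T.coev f) (T.ev (T.tr g)) =
      algebraMap ℚ _ (T.deg (T.pull (lift (𝟙 X) (𝟙 X)) (T.cp f g))) := by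
  have h : T.ev (T.tr g) = T.cp (T.ten (T.diag X) g) (T.ev (T.diag X)) := by
    rw [T.ten_ev, T.cp_diag, T.diag_cp]
  rw [h, ← T.cp_assoc, T.coev_ten, T.tr_diag, T.diag_cp, T.coev_ev]

end ChowTheory

namespace Mot

variable {T : ChowTheory.{v, u, w} V}

/-- The trace of an endomorphism of a Chow motive is the degree of its intersection with the
diagonal. -/
theorem trace_eq {M : Mot T} (f : M ⟶ M) :
    _root_.Mot.trace f = T.deg (T.pull (lift (𝟙 M.X) (𝟙 M.X)) f.1) • 𝟙 (𝟙_ (Mot T)) := by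
  apply Subtype.ext
  have h1 : (_root_.Mot.trace f).1 = T.cp (T.coev (T.tr M.p)) (T.cp (T.ten f.1 (T.tr M.p))
      (T.cp (T.cp (T.ten M.p (T.tr M.p)) (T.gr' (ChowTheory.swap M.X M.X).inv))
        (T.ev (T.tr M.p)))) := rfl
  have hq : T.cp (T.tr M.p) (T.tr M.p) = T.tr M.p := (dual M).idem
  have hf : T.cp M.p f.1 = f.1 := p_cp f.2
  have hf' : T.cp f.1 M.p = f.1 := cp_p f.2
  have hf2 : T.cp (T.tr f.1) (T.tr M.p) = T.tr f.1 := by rw [← T.tr_cp, hf]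
  have hf3 : T.cp (T.tr M.p) (T.tr f.1) = T.tr f.1 := by rw [← T.tr_cp, hf']
  have h2 : T.cp (T.coev (T.tr f.1)) (T.gr' (ChowTheory.swap M.X M.X).inv) = T.coev f.1 := by
    rw [T.cp_gr', ChowTheory.coev, ChowTheory.coev, ChowTheory.tr, ← T.pull_comp, ← T.pull_comp]
    refine T.pull_congr ?_ _
    ext <;> simp [ChowTheory.swap, leftUnitor_hom]
  have h3 : (T.deg (T.pull (lift (𝟙 M.X) (𝟙 M.X)) f.1) • 𝟙 (𝟙_ (Mot T))).1 =
      algebraMap ℚ _ (T.deg (T.pull (lift (𝟙 M.X) (𝟙 M.X)) f.1)) := by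
    rw [smul_val, id_val, Algebra.algebraMap_eq_smul_one, ← T.diag_unit]
    rfl
  rw [h1, h3, ← T.cp_assoc, T.coev_ten, hf2, hf2, ← T.cp_assoc, ← T.cp_assoc, T.coev_ten, hf3, hf2,
    h2, T.cp_coev_ev, hf']
  rfl

theorem scalar (f : 𝟙_ (Mot T) ⟶ 𝟙_ (Mot T)) : ∃ r : ℚ, f = r • 𝟙 (𝟙_ (Mot T)) := by
  have i : IsIso (lift (𝟙 (𝟙_ V)) (𝟙 (𝟙_ V))) := ⟨fst _ _, by simp, by ext⟩
  obtain ⟨r, hr⟩ := T.point_exists (T.pull (lift (𝟙 (𝟙_ V)) (𝟙 (𝟙_ V))) f.1)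
  refine ⟨r, Subtype.ext ?_⟩
  have h : f.1 = T.pull (fst (𝟙_ V) (𝟙_ V)) (T.pull (lift (𝟙 (𝟙_ V)) (𝟙 (𝟙_ V))) f.1) := by
    rw [← T.pull_comp]
    have e : fst (𝟙_ V) (𝟙_ V) ≫ lift (𝟙 (𝟙_ V)) (𝟙 (𝟙_ V)) = 𝟙 _ := by ext
    rw [e, T.pull_id]
  rw [h, ← hr, AlgHom.commutes, smul_val, id_val, Algebra.algebraMap_eq_smul_one, ← T.diag_unit]
  rfl

theorem unit_ne : 𝟙 (𝟙_ (Mot T)) ≠ 0 := by
  intro h
  have h1 : T.diag (𝟙_ V) = 0 := congrArg Subtype.val h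
  rw [T.diag_unit] at h1
  have i : IsIso (lift (𝟙 (𝟙_ V)) (𝟙 (𝟙_ V))) := ⟨fst _ _, by simp, by ext⟩
  have h2 := congrArg (T.pull (lift (𝟙 (𝟙_ V)) (𝟙 (𝟙_ V)))) h1
  rw [T.pull_one, map_zero] at h2
  have h3 : algebraMap ℚ (T.CH (𝟙_ V)) 1 = algebraMap ℚ (T.CH (𝟙_ V)) 0 := by
    rw [map_one, map_zero, h2]
  exact one_ne_zero (T.point.1 h3)

end Mot

end CHM
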