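import Pool.Agent.CHM.Sums
import Pool.Agent.CHM.Trace

/-!
# Chow groups as Hom spaces of Chow motives (MP_6c4da4_ag, project CHM)
-/

set_option autoImplicit false

open CategoryTheory MonoidalCategory CartesianMonoidalCategory Limits

universe v u w

namespace CHM

variable {V : Type u} [Category.{v} V] [CartesianMonoidalCategory V]

theorem ChowTheory.gr_congr (T : ChowTheory.{v, u, w} V) {X : V} {i j : ℤ} (e : i = j)
    {a : T.CH X} (h : a ∈ T.gr X i) : a ∈ T.gr X j := e ▸ h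

namespace Mot

variable {T : ChowTheory.{v, u, w} V}

/-- `Hom(1, h(X)(i)) = CH^i(X)` -/
def secEquiv (T : ChowTheory.{v, u, w} V) (X : V) (i : ℤ) :
    T.gr X i ≃ₗ[ℚ] (𝟙_ (Mot T) ⟶ h T X i) where
  toFun a := ⟨T.pull (snd (𝟙_ V) X) a.1, mem_hom_h.2 (by
    have h1 := T.pull_mem (snd (𝟙_ V) X) _ _ a.2
    exact T.gr_congr (by rw [T.dim_unit]; ring) h1)⟩
  map_add' a b := Subtype.ext (map_add (T.pull _) _ _)
  map_smul' r a := Subtype.ext (map_smul (T.pull _) _ _)
  invFun f := ⟨T.pull (lift (toUnit X) (𝟙 X)) f.1, by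
    have h1 := T.pull_mem (lift (toUnit X) (𝟙 X)) _ _ (mem_hom_h.1 f.2)
    exact T.gr_congr (by rw [T.dim_unit]; ring) h1⟩
  left_inv a := by
    apply Subtype.ext
    change T.pull _ (T.pull _ a.1) = a.1
    rw [← T.pull_comp, lift_snd, T.pull_id]
  right_inv f := by
    apply Subtype.ext
    change T.pull (snd (𝟙_ V) X) (T.pull _ f.1) = f.1
    rw [← T.pull_comp]
    have e : snd (𝟙_ V) X ≫ lift (toUnit X) (𝟙 X) = 𝟙 _ := by ext; simp
    rw [e, T.pull_id]

/-- `Hom(h(X)(i), 1) = CH^(dim X - i)(X)` -/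
def cosecEquiv (T : ChowTheory.{v, u, w} V) (X : V) (i : ℤ) :
    T.gr X (T.dim X - i) ≃ₗ[ℚ] (h T X i ⟶ 𝟙_ (Mot T)) where
  toFun a := ⟨T.pull (fst X (𝟙_ V)) a.1, mem_hom_h.2 (by
    have h1 := T.pull_mem (fst X (𝟙_ V)) _ _ a.2
    exact T.gr_congr (by ring) h1)⟩
  map_add' a b := Subtype.ext (map_add (T.pull _) _ _)
  map_smul' r a := Subtype.ext (map_smul (T.pull _) _ _)
  invFun f := ⟨T.pull (lift (𝟙 X) (toUnit X)) f.1, by
    have h1 := T.pull_mem (lift (𝟙 X) (toUnit X)) _ _ (mem_hom_h.1 f.2)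
    exact T.gr_congr (by ring) h1⟩
  left_inv a := by
    apply Subtype.ext
    change T.pull _ (T.pull _ a.1) = a.1
    rw [← T.pull_comp, lift_fst, T.pull_id]
  right_inv f := by
    apply Subtype.ext
    change T.pull (fst X (𝟙_ V)) (T.pull _ f.1) = f.1
    rw [← T.pull_comp]
    have e : fst X (𝟙_ V) ≫ lift (𝟙 X) (toUnit X) = 𝟙 _ := by ext; simp
    rw [e, T.pull_id]

/-- the composition of a section and a cosection is the degree of the intersection product -/
theorem sec_cosec {X : V} {i : ℤ} (a : T.gr X i) (b : T.gr X (T.dim X - i)) :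
    secEquiv T X i a ≫ cosecEquiv T X i b = T.deg (a.1 * b.1) • 𝟙 (𝟙_ (Mot T)) := by
  apply Subtype.ext
  change T.cp (T.pull (snd (𝟙_ V) X) a.1) (T.pull (fst X (𝟙_ V)) b.1) =
    T.deg (a.1 * b.1) • T.diag (𝟙_ V)
  rw [T.cp_pt, ← T.algebraMap_deg, Algebra.algebraMap_eq_smul_one, map_smul, ChowTheory.diag]

end Mot

namespace ChowTheory

variable (T : ChowTheory.{v, u, w} V)

/-- The numerically trivial cycles of codimension `i` on `X`: `a ∈ CH^i(X)` with `deg (a b) = 0` for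
all `b ∈ CH^(dim X - i)(X)`. -/
def num (X : V) (i : ℤ) : Submodule ℚ (T.gr X i) where
  carrier := {a | ∀ b ∈ T.gr X (T.dim X - i), T.deg (a.1 * b) = 0}
  add_mem' {a a'} ha ha' b hb := by
    change T.deg ((a.1 + a'.1) * b) = 0
    rw [add_mul, map_add, ha b hb, ha' b hb, add_zero]
  zero_mem' b hb := by
    change T.deg (0 * b) = 0
    rw [zero_mul, map_zero]
  smul_mem' r a ha b hb := by
    change T.deg ((r • a.1) * b) = 0
    rw [smul_mul_assoc, map_smul, ha b hb, smul_zero]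

end ChowTheory

end CHM
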