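import Pool.Agent.CHM.Weil
import Pool.Agent.CHM.Ref
import Pool.Agent.CHM.Sections
import Pool.Agent.MotP.Eq

/-!
# Cohomology as a realization of Chow motives (MP_6c4da4_ag, project CHM)
-/

set_option autoImplicit false

open CategoryTheory MonoidalCategory CartesianMonoidalCategory Limits TensorProduct

universe v u w x

namespace CHM

variable {V : Type u} [Category.{v} V] [CartesianMonoidalCategory V]

namespace Cohomology

variable {T : ChowTheory.{v, u, w} V} {R : FrobeniusMaps T} (K : Cohomology.{v, u, w, x} T R)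

/-- The cohomology of the motive `(X, p, m)`: the part of `H X` cut out by `p`. -/
def HM (M : Mot T) : Submodule ℂ (K.H M.X) := LinearMap.eqLocus (K.act M.p) LinearMap.id

theorem mem_HM {M : Mot T} {x : K.H M.X} : x ∈ K.HM M ↔ K.act M.p x = x := Iff.rfl

theorem act_mem_HM {M N : Mot T} (f : M ⟶ N) (x : K.H M.X) : K.act f.1 x ∈ K.HM N :=
  K.act_p_act f x

theorem act_act_p {M N : Mot T} (f : M ⟶ N) (x : K.H M.X) :
    K.act f.1 (K.act M.p x) = K.act f.1 x := by
  rw [← K.act_cp, Mot.p_cp f.2]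

/-- The action of a morphism of motives on cohomology. -/
def HMmap {M N : Mot T} (f : M ⟶ N) : K.HM M →ₗ[ℂ] K.HM N :=
  (K.act f.1).restrict fun x _ => K.act_mem_HM f x

theorem HMmap_val {M N : Mot T} (f : M ⟶ N) (x : K.HM M) : (K.HMmap f x).1 = K.act f.1 x.1 := rfl

theorem HMmap_id (M : Mot T) (x : K.HM M) : K.HMmap (𝟙 M) x = x :=
  Subtype.ext x.2

theorem HMmap_comp {M N L : Mot T} (f : M ⟶ N) (g : N ⟶ L) (x : K.HM M) :
    K.HMmap (f ≫ g) x = K.HMmap g (K.HMmap f x) :=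
  Subtype.ext (K.act_cp f.1 g.1 x.1)

theorem HMmap_zero (M N : Mot T) (x : K.HM M) : K.HMmap (0 : M ⟶ N) x = 0 := by
  apply Subtype.ext
  change K.act (0 : T.CH (M.X ⊗ N.X)) x.1 = 0
  rw [map_zero]
  rfl

theorem HMmap_sub {M N : Mot T} (f g : M ⟶ N) (x : K.HM M) :
    K.HMmap (f - g) x = K.HMmap f x - K.HMmap g x := by
  apply Subtype.ext
  change K.act (f.1 - g.1) x.1 = K.act f.1 x.1 - K.act g.1 x.1
  rw [map_sub]
  rfl

/-- Cohomology as a functor. -/
noncomputable def functor : Mot T ⥤ ModuleCat.{x} ℂ where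
  obj M := ModuleCat.of ℂ (K.HM M)
  map f := ModuleCat.ofHom (K.HMmap f)
  map_id M := by
    ext x
    exact congrArg Subtype.val (K.HMmap_id M x)
  map_comp f g := by
    ext x
    exact congrArg Subtype.val (K.HMmap_comp f g x)

theorem act_ten {X Y X' Y' : V} (f : T.CH (X ⊗ Y)) (f' : T.CH (X' ⊗ Y')) :
    K.act (T.ten f f') ∘ₗ (K.kunneth X X').toLinearMap =
      (K.kunneth Y Y').toLinearMap ∘ₗ TensorProduct.map (K.act f) (K.act f') := by
  apply TensorProduct.ext'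
  intro x x'
  change K.act (T.ten f f') (K.kunneth X X' (x ⊗ₜ x')) = _
  rw [K.kunneth_act]
  rfl

theorem splitMono_iff {M N : Mot T} (f : M ⟶ N) : IsSplitMono (K.functor.map f) ↔
    ∃ r : K.H N.X →ₗ[ℂ] K.H M.X, r ∘ₗ K.act f.1 = K.act M.p := by
  constructor
  · rintro ⟨⟨s, hs⟩⟩
    let q : K.H N.X →ₗ[ℂ] K.HM N := (K.act N.p).codRestrict (K.HM N)
      (fun y => K.act_mem_HM (𝟙 N) y)
    refine ⟨(K.HM M).subtype ∘ₗ s.hom ∘ₗ q, ?_⟩
    ext x
    have h1 : q (K.act f.1 x) = K.HMmap f ⟨K.act M.p x, K.act_mem_HM (𝟙 M) x⟩ := by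
      apply Subtype.ext
      change K.act N.p (K.act f.1 x) = K.act f.1 (K.act M.p x)
      rw [K.act_p_act, K.act_act_p]
    have h2 := congrArg (fun g => g.hom ⟨K.act M.p x, K.act_mem_HM (𝟙 M) x⟩) hs
    have h3 : s.hom (K.HMmap f ⟨K.act M.p x, K.act_mem_HM (𝟙 M) x⟩) =
        ⟨K.act M.p x, K.act_mem_HM (𝟙 M) x⟩ := h2
    change (s.hom (q (K.act f.1 x))).1 = K.act M.p x
    rw [h1]
    exact congrArg Subtype.val h3
  · rintro ⟨r, hr⟩
    have hr' : ∀ x, r (K.act f.1 x) = K.act M.p x := fun x => LinearMap.congr_fun hr x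
    let s : K.HM N →ₗ[ℂ] K.HM M :=
      ((K.act M.p).codRestrict (K.HM M) (fun y => K.act_mem_HM (𝟙 M) y)) ∘ₗ r ∘ₗ (K.HM N).subtype
    refine ⟨⟨ModuleCat.ofHom s, ?_⟩⟩
    ext x
    apply Subtype.ext
    change K.act M.p (r (K.act f.1 x.1)) = x.1
    rw [hr', K.mem_HM.1 x.2, K.mem_HM.1 x.2]

theorem splitEpi_iff {M N : Mot T} (f : M ⟶ N) : IsSplitEpi (K.functor.map f) ↔
    ∃ r : K.H N.X →ₗ[ℂ] K.H M.X, K.act f.1 ∘ₗ r = K.act N.p := by
  constructor
  · rintro ⟨⟨s, hs⟩⟩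
    let q : K.H N.X →ₗ[ℂ] K.HM N := (K.act N.p).codRestrict (K.HM N)
      (fun y => K.act_mem_HM (𝟙 N) y)
    refine ⟨(K.HM M).subtype ∘ₗ s.hom ∘ₗ q, ?_⟩
    ext y
    have h2 := congrArg (fun g => g.hom (q y)) hs
    have h3 : K.HMmap f (s.hom (q y)) = q y := h2
    exact congrArg Subtype.val h3
  · rintro ⟨r, hr⟩
    have hr' : ∀ y, K.act f.1 (r y) = K.act N.p y := fun y => LinearMap.congr_fun hr y
    let s : K.HM N →ₗ[ℂ] K.HM M :=
      ((K.act M.p).codRestrict (K.HM M) (fun y => K.act_mem_HM (𝟙 M) y)) ∘ₗ r ∘ₗ (K.HM N).subtype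
    refine ⟨⟨ModuleCat.ofHom s, ?_⟩⟩
    ext y
    apply Subtype.ext
    change K.act f.1 (K.act M.p (r y.1)) = y.1
    rw [K.act_act_p, hr', K.mem_HM.1 y.2]

theorem splitMono_ten {M N M' N' : Mot T} (f : M ⟶ N) (f' : M' ⟶ N')
    (h : IsSplitMono (K.functor.map f)) (h' : IsSplitMono (K.functor.map f')) :
    IsSplitMono (K.functor.map (f ⊗ₘ f')) := by
  rw [K.splitMono_iff] at h h' ⊢
  obtain ⟨r, hr⟩ := h
  obtain ⟨r', hr'⟩ := h'
  refine ⟨(K.kunneth M.X M'.X).toLinearMap ∘ₗ TensorProduct.map r r' ∘ₗ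
    (K.kunneth N.X N'.X).symm.toLinearMap, ?_⟩
  have h1 := K.act_ten f.1 f'.1
  have h2 := K.act_ten M.p M'.p
  change ((K.kunneth M.X M'.X).toLinearMap ∘ₗ TensorProduct.map r r' ∘ₗ
    (K.kunneth N.X N'.X).symm.toLinearMap) ∘ₗ K.act (T.ten f.1 f'.1) = K.act (T.ten M.p M'.p)
  rw [← LinearMap.cancel_right (K.kunneth M.X M'.X).surjective, h2, LinearMap.comp_assoc, h1,
    LinearMap.comp_assoc, LinearMap.comp_assoc, ← LinearMap.comp_assoc _ _
    (K.kunneth N.X N'.X).symm.toLinearMap]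
  have h3 : (K.kunneth N.X N'.X).symm.toLinearMap ∘ₗ (K.kunneth N.X N'.X).toLinearMap =
      LinearMap.id := by
    ext z
    simp
  rw [h3, LinearMap.id_comp, ← TensorProduct.map_comp, hr, hr']

theorem splitEpi_ten {M N M' N' : Mot T} (f : M ⟶ N) (f' : M' ⟶ N')
    (h : IsSplitEpi (K.functor.map f)) (h' : IsSplitEpi (K.functor.map f')) :
    IsSplitEpi (K.functor.map (f ⊗ₘ f')) := by
  rw [K.splitEpi_iff] at h h' ⊢
  obtain ⟨r, hr⟩ := h
  obtain ⟨r', hr'⟩ := h'
  refine ⟨(K.kunneth M.X M'.X).toLinearMap ∘ₗ TensorProduct.map r r' ∘ₗ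
    (K.kunneth N.X N'.X).symm.toLinearMap, ?_⟩
  have h1 := K.act_ten f.1 f'.1
  have h2 := K.act_ten N.p N'.p
  change K.act (T.ten f.1 f'.1) ∘ₗ ((K.kunneth M.X M'.X).toLinearMap ∘ₗ TensorProduct.map r r' ∘ₗ
    (K.kunneth N.X N'.X).symm.toLinearMap) = K.act (T.ten N.p N'.p)
  have h3 : (K.kunneth N.X N'.X).symm.toLinearMap ∘ₗ (K.kunneth N.X N'.X).toLinearMap =
      LinearMap.id := by
    ext z
    simp
  rw [← LinearMap.cancel_right (K.kunneth N.X N'.X).surjective, h2, LinearMap.comp_assoc,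
    LinearMap.comp_assoc, LinearMap.comp_assoc, h3, LinearMap.comp_id, ← LinearMap.comp_assoc, h1,
    LinearMap.comp_assoc, ← TensorProduct.map_comp, hr, hr']

theorem trace_zero {M : Mot T} (g : M ⟶ M) (hg : K.functor.map g = 0) :
    _root_.Mot.trace g = 0 := by
  have h0 : ∀ x : K.HM M, K.act g.1 x.1 = 0 := by
    intro x
    have h1 : K.HMmap g x = 0 := by
      have h2 := congrArg (fun t => t.hom x) hg
      exact h2
    exact congrArg Subtype.val h1
  have h1 := K.trace_eq g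
  have h2 : K.onEven g = 0 := by
    ext x
    exact h0 ⟨x.1, (K.mem_evenPart.1 x.2).1⟩
  have h3 : K.onOdd g = 0 := by
    ext x
    exact h0 ⟨x.1, (K.mem_oddPart.1 x.2).1⟩
  rw [h2, h3, map_zero, map_zero, sub_zero] at h1
  have h4 : T.deg (T.pull (lift (𝟙 M.X) (𝟙 M.X)) g.1) = 0 := by exact_mod_cast h1
  rw [Mot.trace_eq, h4, zero_smul]

/-- In the abelian case, morphisms which are injective on cohomology are monomorphisms. -/
theorem mono_of (hA : MotP.IsAbelian (Mot T)) {M N : Mot T} (f : M ⟶ N)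
    (hf : IsSplitMono (K.functor.map f)) : Mono f := by
  obtain ⟨hK, hCK, hcomp⟩ := hA
  have hc : ∀ {X Y : Mot T} (f : X ⟶ Y), IsIso (Abelian.coimageImageComparison f) :=
    fun f => hcomp _ _ f
  let _ : Abelian (Mot T) := Abelian.ofCoimageImageComparisonIsIso
  let Z : Realization (Mot T) (ModuleCat.{x} ℂ) :=
    { H := K.functor
      map_zero := fun X Y => by
        ext x
        exact K.HMmap_zero X Y x
      mono := fun a f h h' => K.splitMono_ten a f h h'
      epi := fun a f h h' => K.splitEpi_ten a f h h'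
      trace := fun g hg => K.trace_zero g hg }
  exact Z.reflects_mono K.frobenius.toMot f hf

/-- In the abelian case, morphisms which are surjective on cohomology are epimorphisms. -/
theorem epi_of (hA : MotP.IsAbelian (Mot T)) {M N : Mot T} (f : M ⟶ N)
    (hf : IsSplitEpi (K.functor.map f)) : Epi f := by
  obtain ⟨hK, hCK, hcomp⟩ := hA
  have hc : ∀ {X Y : Mot T} (f : X ⟶ Y), IsIso (Abelian.coimageImageComparison f) :=
    fun f => hcomp _ _ f
  let _ : Abelian (Mot T) := Abelian.ofCoimageImageComparisonIsIso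
  let Z : Realization (Mot T) (ModuleCat.{x} ℂ) :=
    { H := K.functor
      map_zero := fun X Y => by
        ext x
        exact K.HMmap_zero X Y x
      mono := fun a f h h' => K.splitMono_ten a f h h'
      epi := fun a f h h' => K.splitEpi_ten a f h h'
      trace := fun g hg => K.trace_zero g hg }
  exact Z.reflects_epi K.frobenius.toMot f hf

/-- A morphism which is bijective on cohomology is an isomorphism, in the abelian case. -/
theorem iso_of (hA : MotP.IsAbelian (Mot T)) {M N : Mot T} (f : M ⟶ N)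
    (h1 : IsSplitMono (K.functor.map f)) (h2 : IsSplitEpi (K.functor.map f)) : IsIso f := by
  have hm := K.mono_of hA f h1
  have he := K.epi_of hA f h2
  obtain ⟨hK, hCK, hcomp⟩ := hA
  have hc : ∀ {X Y : Mot T} (f : X ⟶ Y), IsIso (Abelian.coimageImageComparison f) :=
    fun f => hcomp _ _ f
  let _ : Abelian (Mot T) := Abelian.ofCoimageImageComparisonIsIso
  exact isIso_of_mono_of_epi f

theorem splitMono_of_injective {M N : Mot T} (f : M ⟶ N)
    (h : ∀ x : K.HM M, K.HMmap f x = 0 → x = 0) : IsSplitMono (K.functor.map f) := by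
  obtain ⟨s, hs⟩ := LinearMap.exists_leftInverse_of_injective (K.HMmap f)
    (LinearMap.ker_eq_bot'.2 h)
  refine ⟨⟨ModuleCat.ofHom s, ?_⟩⟩
  ext x
  exact LinearMap.congr_fun hs x

theorem splitEpi_of_surjective {M N : Mot T} (f : M ⟶ N)
    (h : ∀ y : K.HM N, ∃ x, K.HMmap f x = y) : IsSplitEpi (K.functor.map f) := by
  obtain ⟨s, hs⟩ := LinearMap.exists_rightInverse_of_surjective (K.HMmap f)
    (LinearMap.range_eq_top.2 h)
  refine ⟨⟨ModuleCat.ofHom s, ?_⟩⟩
  ext x
  exact LinearMap.congr_fun hs x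

end Cohomology

end CHM
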