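import Pool.Agent.CHM.Mon

/-!
# Duals of Chow motives and the trace (MP_6c4da4_ag, project CHM)
-/

set_option autoImplicit false

open CategoryTheory MonoidalCategory CartesianMonoidalCategory Limits

universe v u w

namespace CHM

variable {V : Type u} [Category.{v} V] [CartesianMonoidalCategory V]

namespace ChowTheory

variable (T : ChowTheory.{v, u, w} V)

/-- The class of the graph of `φ : Y ⟶ X`, a correspondence from `Y` to `X`. -/
def gra {X Y : V} (φ : Y ⟶ X) : T.CH (Y ⊗ X) := T.tr (T.gr' φ)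

theorem gra_cp {X Y Z : V} (φ : Y ⟶ X) (b : T.CH (X ⊗ Z)) :
    T.cp (T.gra φ) b = T.pull (φ ▷ Z) b := by
  have h : T.cp (T.gra φ) b = T.tr (T.cp (T.tr b) (T.gr' φ)) := by
    rw [T.tr_cp, T.tr_tr, gra]
  rw [h, T.cp_gr', tr, tr, ← T.pull_comp, ← T.pull_comp]
  exact T.pull_congr (by ext <;> simp) _

theorem isIso_swap (X Y : V) : IsIso (lift (snd X Y) (fst X Y)) :=
  ⟨lift (snd Y X) (fst Y X), by ext <;> simp, by ext <;> simp⟩

theorem inv_swap (X Y : V) : @inv _ _ _ _ (lift (snd X Y) (fst X Y)) (isIso_swap X Y) =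
    lift (snd Y X) (fst Y X) := by
  have := isIso_swap X Y
  rw [IsIso.inv_eq_of_hom_inv_id]
  ext <;> simp

theorem cp_gra {W X Y : V} (a : T.CH (W ⊗ Y)) (φ : Y ⟶ X) :
    T.cp a (T.gra φ) = T.push (W ◁ φ) a := by
  have h : T.cp a (T.gra φ) = T.tr (T.cp (T.gr' φ) (T.tr a)) := by
    rw [T.tr_cp, T.tr_tr, gra]
  rw [h, T.gr'_cp, tr, T.pull_push_iso _ _ (isIso_swap W X), inv_swap,
    T.push_reparam _ _ (isIso_swap W Y), tr, ← T.pull_comp]
  refine T.push_congr (by ext <;> simp) ?_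
  have e : lift (snd W Y) (fst W Y) ≫ lift (snd Y W) (fst Y W) = 𝟙 _ := by ext <;> simp
  rw [e, T.pull_id]

theorem gra_comp {X Y Z : V} (φ : Y ⟶ X) (ψ : Z ⟶ Y) :
    T.cp (T.gra ψ) (T.gra φ) = T.gra (ψ ≫ φ) := by
  rw [gra, gra, ← T.tr_cp, T.gr'_comp, gra]

theorem tr_ten {X Y X' Y' : V} (f : T.CH (X ⊗ Y)) (f' : T.CH (X' ⊗ Y')) :
    T.tr (T.ten f f') = T.ten (T.tr f) (T.tr f') := by
  simp only [tr, ten, map_mul, ← T.pull_comp]
  refine congr_arg₂ (· * ·) ?_ ?_ <;> exact T.pull_congr (by ext <;> simp) _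

theorem ten_gra {X Y X' Y' : V} (φ : Y ⟶ X) (ψ : Y' ⟶ X') :
    T.ten (T.gra φ) (T.gra ψ) = T.gra (φ ⊗ₘ ψ) := by
  rw [gra, gra, ← T.tr_ten, T.ten_gr', gra]

theorem gra_id (X : V) : T.gra (𝟙 X) = T.diag X := by
  have h := T.gra_cp (𝟙 X) (T.diag X)
  rwa [T.cp_diag, MonoidalCategory.id_whiskerRight, T.pull_id] at h

theorem tr_diag (X : V) : T.tr (T.diag X) = T.diag X := T.gra_id X

/-- A correspondence from `X` to `B` as a correspondence from the point to `X × B`. -/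
def coev {X B : V} (h : T.CH (X ⊗ B)) : T.CH (𝟙_ V ⊗ (X ⊗ B)) := T.pull (snd _ _) h

/-- A correspondence from `X` to `Y` as a correspondence from `X × Y` to the point. -/
def ev {X Y : V} (g : T.CH (X ⊗ Y)) : T.CH ((X ⊗ Y) ⊗ 𝟙_ V) := T.pull (fst _ _) g

/-- the evaluation as a composition of graphs -/
theorem ev_diag (X : V) : T.ev (T.diag X) =
    T.cp (T.gr' (lift (𝟙 X) (𝟙 X))) (T.gra (toUnit X)) := by
  rw [T.gr'_cp, ev, diag]
  rw [T.bc (P := X ⊗ 𝟙_ V) (fst _ _) (lift (𝟙 X) (𝟙 X) ▷ 𝟙_ V) (lift (𝟙 X) (𝟙 X))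
      (fst (X ⊗ X) (𝟙_ V)) (snd (X ⊗ X) (𝟙_ V))
      (by simp; infer_instance)
      ⟨lift (fst _ _) (toUnit _), by ext; simp, by ext; simp⟩
      (whiskerRight_fst _ _).symm]
  refine T.push_congr rfl ?_
  rw [T.pull_one]
  have h := T.gra_cp (toUnit X) (T.diag (𝟙_ V))
  rw [T.cp_diag, T.diag_unit, T.pull_one] at h
  exact h.symm

/-- The basic computation with an evaluation: a snake. -/
theorem snake {A X B : V} (f : T.CH (A ⊗ X)) (h : T.CH (X ⊗ B)) :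
    T.cp (T.cp (T.ten f (T.coev h)) (T.gr' (α_ X X B).hom)) (T.ten (T.ev (T.diag X)) (T.diag B)) =
      T.pull (fst A (𝟙_ V) ⊗ₘ snd (𝟙_ V) B) (T.cp f h) := by
  rw [T.ev_diag, ← T.cp_diag (T.diag B), ← T.ten_cp, ← T.gr'_id B, T.ten_gr', T.gr'_id B,
    ← T.gra_id B, T.ten_gra, ← T.cp_assoc, T.cp_gr', T.cp_gr', T.cp_gra]
  unfold cp ten coev
  have e1 : IsIso (fst A (𝟙_ V) ⊗ₘ snd (𝟙_ V) B) :=
    ⟨lift (lift (fst _ _) (toUnit _)) (lift (toUnit _) (snd _ _)), by ext <;> simp,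
      by ext <;> simp⟩
  have e2 : inv (fst A (𝟙_ V) ⊗ₘ snd (𝟙_ V) B) =
      lift (lift (fst _ _) (toUnit _)) (lift (toUnit _) (snd _ _)) := by
    rw [IsIso.inv_eq_of_hom_inv_id]
    ext <;> simp
  have e3 : IsIso (lift (lift (fst _ _ ≫ fst _ _) (toUnit _)) (lift (fst _ _ ≫ snd _ _) (snd _ _)) :
      (A ⊗ X) ⊗ B ⟶ (A ⊗ 𝟙_ V) ⊗ (X ⊗ B)) :=
    ⟨lift (lift (fst _ _ ≫ fst _ _) (snd _ _ ≫ fst _ _)) (snd _ _ ≫ snd _ _), by ext <;> simp,
      by ext <;> simp⟩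
  rw [T.pull_push_iso _ _ e1, e2, T.push_reparam _ _ e3]
  refine T.push_congr (by
    ext <;> simp only [Category.assoc, comp_lift, lift_fst, lift_snd, lift_snd_assoc,
      whiskerLeft_fst, whiskerLeft_snd, tensorHom_snd, comp_toUnit, Category.comp_id]) ?_
  simp only [map_mul, ← T.pull_comp]
  refine congr_arg₂ (· * ·) ?_ ?_
  · refine T.pull_congr ?_ _
    ext <;> simp only [Category.assoc, lift_fst, lift_fst_assoc, lift_snd_assoc, tensorHom_fst,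
      tensorHom_snd, whiskerLeft_fst_assoc, whiskerLeft_snd_assoc, tensorHom_fst_assoc,
      associator_hom_fst, Category.comp_id]
  · refine T.pull_congr ?_ _
    ext <;> simp only [Category.assoc, lift_fst, lift_snd, lift_snd_assoc, tensorHom_snd,
      tensorHom_fst_assoc, whiskerLeft_snd_assoc, associator_hom_snd_fst, associator_hom_snd_snd, Category.comp_id]

/-- The second snake. -/
theorem snake' {A X B : V} (f : T.CH (A ⊗ X)) (h : T.CH (B ⊗ X)) :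
    T.cp (T.cp (T.ten (T.coev h) f) (T.gr' (α_ B X X).inv)) (T.ten (T.diag B) (T.ev (T.diag X))) =
      T.pull (snd (𝟙_ V) A ⊗ₘ fst B (𝟙_ V)) (T.cp f (T.tr h)) := by
  rw [T.ev_diag, ← T.cp_diag (T.diag B), ← T.ten_cp, ← T.gr'_id B, T.ten_gr', T.gr'_id B,
    ← T.gra_id B, T.ten_gra, ← T.cp_assoc, T.cp_gr', T.cp_gr', T.cp_gra]
  unfold cp ten coev
  have e1 : IsIso (snd (𝟙_ V) A ⊗ₘ fst B (𝟙_ V)) :=
    ⟨lift (lift (toUnit _) (fst _ _)) (lift (snd _ _) (toUnit _)), by ext <;> simp,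
      by ext <;> simp⟩
  have e2 : inv (snd (𝟙_ V) A ⊗ₘ fst B (𝟙_ V)) =
      lift (lift (toUnit _) (fst _ _)) (lift (snd _ _) (toUnit _)) := by
    rw [IsIso.inv_eq_of_hom_inv_id]
    ext <;> simp
  have e3 : IsIso (lift (lift (toUnit _) (fst _ _ ≫ fst _ _)) (lift (snd _ _) (fst _ _ ≫ snd _ _)) :
      (A ⊗ X) ⊗ B ⟶ (𝟙_ V ⊗ A) ⊗ (B ⊗ X)) :=
    ⟨lift (lift (fst _ _ ≫ snd _ _) (snd _ _ ≫ snd _ _)) (snd _ _ ≫ fst _ _), by ext <;> simp,
      by ext <;> simp⟩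
  rw [T.pull_push_iso _ _ e1, e2, T.push_reparam _ _ e3]
  refine T.push_congr (by
    ext <;> simp only [Category.assoc, comp_lift, lift_fst, lift_snd, lift_snd_assoc,
      whiskerLeft_fst, whiskerLeft_snd, tensorHom_fst, comp_toUnit, Category.comp_id]) ?_
  simp only [map_mul, ← T.pull_comp]
  rw [mul_comm]
  refine congr_arg₂ (· * ·) ?_ ?_
  · refine T.pull_congr ?_ _
    ext <;> simp only [Category.assoc, lift_snd, lift_fst_assoc, lift_snd_assoc,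
      tensorHom_fst, tensorHom_snd, whiskerLeft_fst_assoc, whiskerLeft_snd_assoc, tensorHom_snd_assoc,
      associator_inv_snd, Category.comp_id]
  · rw [tr, ← T.pull_comp]
    refine T.pull_congr ?_ _
    ext <;> simp only [Category.assoc, lift_fst, lift_snd, lift_snd_assoc, tensorHom_snd,
      tensorHom_snd_assoc, comp_lift, whiskerLeft_snd_assoc, associator_inv_fst_fst, associator_inv_fst_snd, Category.comp_id,
      tensorHom_fst]

theorem coev_ten {X Y X' Y' : V} (k : T.CH (X ⊗ Y)) (f : T.CH (X ⊗ X')) (g : T.CH (Y ⊗ Y')) :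
    T.cp (T.coev k) (T.ten f g) = T.coev (T.cp (T.cp (T.tr f) k) g) := by
  unfold cp ten coev tr
  have e1 : IsIso (snd (𝟙_ V) (X' ⊗ Y')) := ⟨lift (toUnit _) (𝟙 _), by ext <;> simp, by simp⟩
  have e2 : inv (snd (𝟙_ V) (X' ⊗ Y')) = lift (toUnit _) (𝟙 _) := by
    rw [IsIso.inv_eq_of_hom_inv_id]
    ext <;> simp
  rw [T.bc (P := ((X' ⊗ X) ⊗ Y) ⊗ Y') (fst _ _)
    (lift (fst (X' ⊗ X) Y ≫ fst X' X) (snd (X' ⊗ X) Y) ▷ Y') _ _ (snd _ _)
    (by simp; infer_instance) (by simp; infer_instance) (by simp)]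
  rw [mul_comm (T.push _ _) (T.pull _ _), ← T.projection, ← T.push_comp,
    T.pull_push_iso _ _ e1, e2]
  have e3 : IsIso (lift (lift (toUnit _) (lift (fst _ _ ≫ fst _ _ ≫ snd _ _)
      (fst _ _ ≫ snd _ _))) (lift (fst _ _ ≫ fst _ _ ≫ fst _ _) (snd _ _)) :
      ((X' ⊗ X) ⊗ Y) ⊗ Y' ⟶ (𝟙_ V ⊗ (X ⊗ Y)) ⊗ (X' ⊗ Y')) :=
    ⟨lift (lift (lift (snd _ _ ≫ fst _ _) (fst _ _ ≫ snd _ _ ≫ fst _ _))
      (fst _ _ ≫ snd _ _ ≫ snd _ _)) (snd _ _ ≫ snd _ _), by ext <;> simp, by ext <;> simp⟩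
  rw [T.push_reparam _ _ e3]
  refine T.push_congr (by ext <;> simp) ?_
  simp only [map_mul, ← T.pull_comp]
  have hr : ∀ a b c : T.CH (((X' ⊗ X) ⊗ Y) ⊗ Y'), a * (b * c) = c * (b * a) := by
    intro a b c
    ring
  rw [hr]
  refine congr_arg₂ (· * ·) ?_ (congr_arg₂ (· * ·) ?_ ?_) <;>
    exact T.pull_congr (by ext <;> simp) _

theorem tr_ev {X Y : V} (k : T.CH (X ⊗ Y)) : T.tr (T.ev k) = T.coev k := by
  rw [tr, ev, coev, ← T.pull_comp]
  exact T.pull_congr (by ext <;> simp) _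

theorem ten_ev {X Y X' Y' : V} (f : T.CH (X ⊗ X')) (g : T.CH (Y ⊗ Y')) (k : T.CH (X' ⊗ Y')) :
    T.cp (T.ten f g) (T.ev k) = T.ev (T.cp (T.cp f k) (T.tr g)) := by
  have h : T.tr (T.cp (T.ten f g) (T.ev k)) = T.tr (T.ev (T.cp (T.cp f k) (T.tr g))) := by
    rw [T.tr_cp, T.tr_ten, T.tr_ev, T.coev_ten, T.tr_ev, T.tr_tr]
  rw [← T.tr_tr (T.cp (T.ten f g) (T.ev k)), h, T.tr_tr]

theorem cp_cp_idem {A X B : V} {q : T.CH (X ⊗ X)} (hq : T.cp q q = q) (a : T.CH (A ⊗ X))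
    (b : T.CH (X ⊗ B)) : T.cp (T.cp a q) (T.cp q b) = T.cp (T.cp a q) b := by
  rw [← T.cp_assoc, T.cp_assoc a q q, hq]

/-- The snake with a correspondence `g` from `X` to `Y` as evaluation. -/
theorem snake_gen {A X Y B C : V} (f : T.CH (A ⊗ X)) (h : T.CH (Y ⊗ B)) (g : T.CH (X ⊗ Y))
    (k : T.CH (B ⊗ C)) :
    T.cp (T.cp (T.ten f (T.coev h)) (T.gr' (α_ X Y B).hom)) (T.ten (T.ev g) k) =
      T.pull (fst A (𝟙_ V) ⊗ₘ snd (𝟙_ V) C) (T.cp (T.cp f g) (T.cp h k)) := by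
  have h1 : T.ten (T.ev g) k =
      T.cp (T.ten (T.ten g (T.diag Y)) k) (T.ten (T.ev (T.diag Y)) (T.diag C)) := by
    rw [T.ten_cp, T.ten_ev, T.cp_diag, T.cp_diag, T.tr_diag, T.cp_diag]
  have h2 : T.cp (T.gr' (α_ X Y B).hom) (T.ten (T.ten g (T.diag Y)) k) =
      T.cp (T.ten g (T.ten (T.diag Y) k)) (T.gr' (α_ Y Y C).hom) := by
    have h3 := T.ten_assoc g (T.diag Y) k
    have h4 : T.cp (T.gr' (α_ X Y B).hom) (T.gr' (α_ X Y B).inv) = T.diag _ := by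
      rw [T.gr'_comp, Iso.inv_hom_id, T.gr'_id]
    have h5 : T.cp (T.gr' (α_ Y Y C).inv) (T.gr' (α_ Y Y C).hom) = T.diag _ := by
      rw [T.gr'_comp, Iso.hom_inv_id, T.gr'_id]
    rw [← T.cp_diag (T.ten (T.ten g (T.diag Y)) k), ← h5, ← T.cp_assoc, ← T.cp_assoc,
      T.cp_assoc (T.gr' _) (T.ten (T.ten g (T.diag Y)) k), h3, ← T.cp_assoc, h4, T.diag_cp]
  rw [h1, ← T.cp_assoc, T.cp_assoc (T.ten f (T.coev h)), h2, ← T.cp_assoc, T.ten_cp, T.coev_ten,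
    T.tr_diag, T.diag_cp, T.snake]

/-- The second snake with a correspondence `g` from `X` to `Y` as evaluation. -/
theorem snake_gen' {A X Y B C : V} (f : T.CH (A ⊗ Y)) (h : T.CH (B ⊗ X)) (g : T.CH (X ⊗ Y))
    (k : T.CH (B ⊗ C)) :
    T.cp (T.cp (T.ten (T.coev h) f) (T.gr' (α_ B X Y).inv)) (T.ten k (T.ev g)) =
      T.pull (snd (𝟙_ V) A ⊗ₘ fst C (𝟙_ V)) (T.cp (T.cp f (T.tr g)) (T.cp (T.tr h) k)) := by
  have h1 : T.ten k (T.ev g) =
      T.cp (T.ten k (T.ten (T.diag X) (T.tr g))) (T.ten (T.diag C) (T.ev (T.diag X))) := by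
    rw [T.ten_cp, T.ten_ev, T.cp_diag, T.cp_diag, T.tr_tr, T.diag_cp]
  have h2 : T.cp (T.gr' (α_ B X Y).inv) (T.ten k (T.ten (T.diag X) (T.tr g))) =
      T.cp (T.ten (T.ten k (T.diag X)) (T.tr g)) (T.gr' (α_ C X X).inv) :=
    (T.ten_assoc _ _ _).symm
  rw [h1, ← T.cp_assoc, T.cp_assoc (T.ten (T.coev h) f), h2, ← T.cp_assoc, T.ten_cp, T.coev_ten,
    T.cp_diag, T.snake', T.tr_cp, T.tr_tr]

end ChowTheory

namespace Mot

variable {T : ChowTheory.{v, u, w} V}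

/-- The dual motive `(X, p, m)' = (X, transpose of p, dim X - m)`. -/
@[reducible] def dual (M : Mot T) : Mot T where
  X := M.X
  p := T.tr M.p
  m := T.dim M.X - M.m
  deg := T.pull_mem _ _ _ M.deg
  idem := by rw [← T.tr_cp, M.idem]

/-- The coevaluation of `M`. -/
def coevM (M : Mot T) : 𝟙_ (Mot T) ⟶ M ⊗ dual M :=
  ⟨T.coev (T.tr M.p), by
    refine ⟨?_, ?_⟩
    · have h : T.coev (T.tr M.p) ∈ _ := T.pull_mem (snd (𝟙_ V) _) _ _ (dual M).deg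
      have e : T.dim M.X = T.dim (𝟙_ (Mot T)).X + (M ⊗ dual M).m - (𝟙_ (Mot T)).m := by
        change T.dim M.X = T.dim (𝟙_ V) + (M.m + (T.dim M.X - M.m)) - 0
        rw [T.dim_unit]
        ring
      rwa [e] at h
    · change T.cp (T.cp (T.diag (𝟙_ V)) (T.coev (T.tr M.p))) (T.ten M.p (T.tr M.p)) = _
      rw [T.diag_cp, T.coev_ten, ← T.tr_cp, ← T.tr_cp, M.idem, M.idem]⟩

/-- The evaluation of `M`. -/
def evM (M : Mot T) : dual M ⊗ M ⟶ 𝟙_ (Mot T) :=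
  ⟨T.ev (T.tr M.p), by
    refine ⟨?_, ?_⟩
    · have h : T.ev (T.tr M.p) ∈ _ := T.pull_mem (fst _ (𝟙_ V)) _ _ (dual M).deg
      have e : T.dim M.X = T.dim (dual M ⊗ M).X + (𝟙_ (Mot T)).m - (dual M ⊗ M).m := by
        change T.dim M.X = T.dim (M.X ⊗ M.X) + 0 - (T.dim M.X - M.m + M.m)
        rw [T.dim_tensor]
        ring
      rwa [e] at h
    · change T.cp (T.cp (T.ten (T.tr M.p) M.p) (T.ev (T.tr M.p))) (T.diag (𝟙_ V)) = _
      rw [T.cp_diag, T.ten_ev, ← T.tr_cp, ← T.tr_cp, M.idem, M.idem]⟩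

instance exactPairing (M : Mot T) : ExactPairing M (dual M) where
  coevaluation' := coevM M
  evaluation' := evM M
  coevaluation_evaluation' := by
    apply Subtype.ext
    have hq : T.cp (T.tr M.p) (T.tr M.p) = T.tr M.p := (dual M).idem
    have h1 : (dual M ◁ coevM M ≫ (α_ (dual M) M (dual M)).inv ≫ evM M ▷ dual M).1 =
        T.cp (T.cp (T.ten (T.tr M.p) (T.coev (T.tr M.p))) (T.gr' (α_ M.X M.X M.X).hom))
          (T.ten (T.ev (T.tr M.p)) (T.tr M.p)) := by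
      have h2 : (dual M ◁ coevM M ≫ (α_ (dual M) M (dual M)).inv ≫ evM M ▷ dual M).1 =
          T.cp (T.ten (T.tr M.p) (T.coev (T.tr M.p)))
            (T.cp (T.cp (T.ten (T.tr M.p) (T.ten M.p (T.tr M.p))) (T.gr' (α_ M.X M.X M.X).hom))
              (T.ten (T.ev (T.tr M.p)) (T.tr M.p))) := rfl
      rw [h2, ← T.cp_assoc, ← T.cp_assoc, T.ten_cp, hq, T.coev_ten, ← T.tr_cp, M.idem, hq]
    have h3 : ((ρ_ (dual M)).hom ≫ (λ_ (dual M)).inv).1 =
        T.cp (T.cp (T.ten (T.tr M.p) (T.diag _)) (T.gr' (ρ_ M.X).inv))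
          (T.cp (T.tr M.p) (T.gr' (λ_ M.X).hom)) := rfl
    rw [h1, h3, T.snake_gen, hq, hq, T.ten_right, T.cp_cp_idem hq, T.cp_gr']
    have h4 := T.gr'_cp_iso (ρ_ M.X).symm (T.tr M.p)
    rw [Iso.symm_hom] at h4
    rw [h4, ← T.pull_comp]
    exact T.pull_congr (by ext <;> simp [rightUnitor_hom]) _
  evaluation_coevaluation' := by
    apply Subtype.ext
    have hq : T.cp (T.tr M.p) (T.tr M.p) = T.tr M.p := (dual M).idem
    have h1 : (coevM M ▷ M ≫ (α_ M (dual M) M).hom ≫ M ◁ evM M).1 =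
        T.cp (T.cp (T.ten (T.coev (T.tr M.p)) M.p) (T.gr' (α_ M.X M.X M.X).inv))
          (T.ten M.p (T.ev (T.tr M.p))) := by
      have h2 : (coevM M ▷ M ≫ (α_ M (dual M) M).hom ≫ M ◁ evM M).1 =
          T.cp (T.ten (T.coev (T.tr M.p)) M.p)
            (T.cp (T.cp (T.ten (T.ten M.p (T.tr M.p)) M.p) (T.gr' (α_ M.X M.X M.X).inv))
              (T.ten M.p (T.ev (T.tr M.p)))) := rfl
      rw [h2, ← T.cp_assoc, ← T.cp_assoc, T.ten_cp, M.idem, T.coev_ten, ← T.tr_cp, M.idem, hq]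
    have h3 : ((λ_ M).hom ≫ (ρ_ M).inv).1 =
        T.cp (T.cp (T.ten (T.diag _) M.p) (T.gr' (λ_ M.X).inv))
          (T.cp M.p (T.gr' (ρ_ M.X).hom)) := rfl
    rw [h1, h3, T.snake_gen', T.tr_tr, M.idem, M.idem, T.ten_left, T.cp_cp_idem M.idem, T.cp_gr']
    have h4 := T.gr'_cp_iso (λ_ M.X).symm M.p
    rw [Iso.symm_hom] at h4
    rw [h4, ← T.pull_comp]
    refine T.pull_congr ?_ _
    ext <;> simp only [Category.assoc, tensorHom_fst, tensorHom_snd, whiskerRight_fst,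
      whiskerRight_snd, whiskerLeft_fst_assoc, whiskerLeft_snd, leftUnitor_hom, rightUnitor_hom,
      Iso.symm_inv]

instance : RightRigidCategory (Mot T) where
  rightDual M := ⟨dual M⟩

end Mot

end CHM
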