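import Pool.Agent.CHM.Mult
import Pool.Agent.CHM.RatNum

/-!
# The spectrum of a Chow motive and Tate's formula (MP_6c4da4_ag, project CHM)
-/

set_option autoImplicit false

open CategoryTheory MonoidalCategory CartesianMonoidalCategory Limits

universe v u w x

namespace CHM

variable {V : Type u} [Category.{v} V] [CartesianMonoidalCategory V]

namespace Cohomology

variable {T : ChowTheory.{v, u, w} V} {R : FrobeniusMaps T} (K : Cohomology.{v, u, w, x} T R)

/-- The cohomology of the motive `(X, p, m)`: the image of `p` in the cohomology of `X`. -/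
def real (M : Mot T) : Submodule ℂ (K.H M.X) where
  carrier := {x | K.act M.p x = x}
  add_mem' {a b} ha hb := by
    change K.act M.p (a + b) = a + b
    rw [map_add, ha, hb]
  zero_mem' := map_zero _
  smul_mem' c a ha := by
    change K.act M.p (c • a) = c • a
    rw [map_smul, ha]

theorem mem_real {M : Mot T} {x : K.H M.X} : x ∈ K.real M ↔ K.act M.p x = x := Iff.rfl

/-- The Frobenius endomorphism on the cohomology of the motive `M`. -/
noncomputable def frobM (M : Mot T) : K.real M →ₗ[ℂ] K.real M :=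
  (K.act (R.onMot M).1).restrict (fun x _ => K.act_p_act (R.onMot M) x)

/-- The multiplicity of `z` as an eigenvalue of Frobenius on the cohomology of `M`. -/
noncomputable def multM (M : Mot T) (z : ℂ) : ℕ := (K.frobM M).charpoly.rootMultiplicity z

theorem finrank_restrict {E : Type x} [AddCommGroup E] [Module ℂ E] [Module.Finite ℂ E]
    (A : Module.End ℂ E) (P : Submodule ℂ E) (hA : ∀ x ∈ P, A x ∈ P) (a : ℂ) :
    (LinearMap.restrict A hA).charpoly.rootMultiplicity a =
      Module.finrank ℂ (P ⊓ A.maxGenEigenspace a : Submodule ℂ E) := by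
  have h3 := LinearMap.finrank_maxGenEigenspace_eq (LinearMap.restrict A hA) a
  have h4 : Module.End.maxGenEigenspace (LinearMap.restrict A hA) a =
      Submodule.comap P.subtype (A.maxGenEigenspace a) :=
    Module.End.genEigenspace_restrict A P ⊤ a hA
  rw [← h3, h4, ← Submodule.map_comap_subtype]
  exact (Submodule.equivMapOfInjective P.subtype P.injective_subtype _).finrank_eq

theorem count_even_eq (M : Mot T) (z : ℂ) : (K.frobenius.even M).count z =
    Module.finrank ℂ (K.evenPart M ⊓ Module.End.maxGenEigenspace (K.act (R.onMot M).1) z :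
      Submodule ℂ (K.H M.X)) := by
  change (K.onEven (R.onMot M)).charpoly.roots.count z = _
  rw [Polynomial.count_roots]
  exact finrank_restrict _ _ _ _

theorem count_odd_eq (M : Mot T) (z : ℂ) : (K.frobenius.odd M).count z =
    Module.finrank ℂ (K.oddPart M ⊓ Module.End.maxGenEigenspace (K.act (R.onMot M).1) z :
      Submodule ℂ (K.H M.X)) := by
  change (K.onOdd (R.onMot M)).charpoly.roots.count z = _
  rw [Polynomial.count_roots]
  exact finrank_restrict _ _ _ _

theorem multM_eq (M : Mot T) (z : ℂ) : K.multM M z =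
    Module.finrank ℂ (K.real M ⊓ Module.End.maxGenEigenspace (K.act (R.onMot M).1) z :
      Submodule ℂ (K.H M.X)) :=
  finrank_restrict _ _ _ _

theorem sgn_gen (M : Mot T) (z : ℂ) (y : K.H M.X)
    (hy : y ∈ Module.End.maxGenEigenspace (K.act (R.onMot M).1) z) :
    K.sgn M.X y ∈ Module.End.maxGenEigenspace (K.act (R.onMot M).1) z := by
  have hc : Commute (K.act (R.onMot M).1 : Module.End ℂ (K.H M.X)) (K.sgn M.X) := by
    refine LinearMap.ext fun x => ?_
    exact (K.sgn_act (deg_end (R.onMot M)) x).symm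
  exact Module.End.mapsTo_maxGenEigenspace_of_comm hc z hy

theorem sgn_real (M : Mot T) (y : K.H M.X) (hy : y ∈ K.real M) : K.sgn M.X y ∈ K.real M := by
  rw [mem_real] at hy ⊢
  have h0' : M.p ∈ T.gr (M.X ⊗ M.X) (T.dim M.X + 0) := by
    rw [add_zero]
    exact M.deg
  rw [← K.sgn_act h0', hy]

/-- the multiplicities on the even and on the odd part add up -/
theorem multM_add (M : Mot T) (z : ℂ) : K.multM M z =
    (K.frobenius.even M).count z + (K.frobenius.odd M).count z := by
  rw [multM_eq, count_even_eq, count_odd_eq, ← Submodule.finrank_sup_add_finrank_inf_eq]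
  have h1 : (K.evenPart M ⊓ Module.End.maxGenEigenspace (K.act (R.onMot M).1) z) ⊓
      (K.oddPart M ⊓ Module.End.maxGenEigenspace (K.act (R.onMot M).1) z) = ⊥ := by
    rw [eq_bot_iff]
    rintro y ⟨⟨h1, -⟩, h2, -⟩
    have h3 : y = -y := by
      rw [← (K.mem_oddPart.1 h2).2]
      exact (K.mem_evenPart.1 h1).2.symm
    rw [Submodule.mem_bot]
    have h4 : (2 : ℂ) • y = 0 := by
      rw [two_smul]
      nth_rewrite 1 [h3]
      exact neg_add_cancel y
    rcases smul_eq_zero.1 h4 with h5 | h5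
    · norm_num at h5
    · exact h5
  have h2 : K.real M ⊓ Module.End.maxGenEigenspace (K.act (R.onMot M).1) z =
      (K.evenPart M ⊓ Module.End.maxGenEigenspace (K.act (R.onMot M).1) z) ⊔
        (K.oddPart M ⊓ Module.End.maxGenEigenspace (K.act (R.onMot M).1) z) := by
    refine le_antisymm ?_ ?_
    · rintro y ⟨hy1, hy2⟩
      have h5 := K.sgn_real M y hy1
      have h6 := K.sgn_gen M z y hy2
      have h7 : y = (2⁻¹ : ℂ) • (y + K.sgn M.X y) + (2⁻¹ : ℂ) • (y - K.sgn M.X y) := by
        rw [← smul_add, add_add_sub_cancel, ← two_smul ℂ y, smul_smul]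
        norm_num
      rw [h7]
      refine Submodule.add_mem_sup ⟨?_, ?_⟩ ⟨?_, ?_⟩
      · rw [SetLike.mem_coe, mem_evenPart]
        refine ⟨?_, ?_⟩
        · rw [map_smul, map_add, K.mem_real.1 hy1, K.mem_real.1 h5]
        · rw [map_smul, map_add, K.sgn_sgn, add_comm]
      · exact Submodule.smul_mem _ _ (add_mem hy2 h6)
      · rw [SetLike.mem_coe, mem_oddPart]
        refine ⟨?_, ?_⟩
        · rw [map_smul, map_sub, K.mem_real.1 hy1, K.mem_real.1 h5]
        · rw [map_smul, map_sub, K.sgn_sgn, ← smul_neg, neg_sub]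
      · exact Submodule.smul_mem _ _ (sub_mem hy2 h6)
    · rw [sup_le_iff]
      refine ⟨?_, ?_⟩
      · rintro y ⟨h1, h2⟩
        exact ⟨(K.mem_evenPart.1 h1).1, h2⟩
      · rintro y ⟨h1, h2⟩
        exact ⟨(K.mem_oddPart.1 h1).1, h2⟩
  rw [h1, h2, finrank_bot, add_zero]

theorem weight_aux (M : Mot T) (x : K.H M.X) (z ε : ℂ) (hx0 : x ≠ 0) (hp : K.act M.p x = x)
    (hs : K.sgn M.X x = ε • x) (hz : K.act (R.onMot M).1 x = z • x) :
    ∃ j : ℤ, (-1 : ℂ) ^ j = ε ∧ ‖(R.q : ℂ) ^ M.m * z‖ ^ 2 = (R.q : ℝ) ^ j := by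
  have hq : (R.q : ℂ) ≠ 0 := by
    have := R.q_ne
    exact_mod_cast this
  rw [K.act_onMot M x hp] at hz
  have h1 : K.fr M.X x = ((R.q : ℂ) ^ M.m * z) • x := by
    rw [mul_smul, ← hz, smul_smul, ← zpow_add₀ hq, add_neg_cancel, zpow_zero, one_smul]
    rfl
  obtain ⟨s, y, hy, hxy⟩ := K.exists_sum M.X x
  obtain ⟨j, hj, hne⟩ : ∃ j ∈ s, y j ≠ 0 := by
    by_contra hcon
    push Not at hcon
    exact hx0 (hxy.trans (Finset.sum_eq_zero hcon))
  refine ⟨j, ?_, ?_⟩
  · have h2 := K.sum_eq_zero M.X s (fun i => (-1 : ℂ) ^ i • y i - ε • y i)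
      (fun i => sub_mem (Submodule.smul_mem _ _ (hy i)) (Submodule.smul_mem _ _ (hy i))) (by
        have h3 : ∑ i ∈ s, (-1 : ℂ) ^ i • y i = K.sgn M.X x := by
          rw [hxy, map_sum]
          exact Finset.sum_congr rfl fun i _ => (K.sgn_apply M.X i _ (hy i)).symm
        rw [Finset.sum_sub_distrib, h3, ← Finset.smul_sum, ← hxy, hs, sub_self]) j hj
    have h3 : ((-1 : ℂ) ^ j - ε) • y j = 0 := by
      rw [sub_smul]
      exact h2
    rcases smul_eq_zero.1 h3 with h4 | h4
    · exact sub_eq_zero.1 h4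
    · exact absurd h4 hne
  · have h2 := K.sum_eq_zero M.X s (fun i => K.fr M.X (y i) - ((R.q : ℂ) ^ M.m * z) • y i)
      (fun i => sub_mem (K.fr_mem M.X i _ (hy i)) (Submodule.smul_mem _ _ (hy i))) (by
        rw [Finset.sum_sub_distrib, ← map_sum, ← Finset.smul_sum, ← hxy, h1, sub_self]) j hj
    exact K.weight M.X j (y j) _ (hy j) hne (sub_eq_zero.1 h2)

/-- the weights of the eigenvalues on the even part -/
theorem weight_even {M : Mot T} {z : ℂ} (h : z ∈ K.frobenius.even M) :
    ∃ j : ℤ, (-1 : ℂ) ^ j = 1 ∧ ‖(R.q : ℂ) ^ M.m * z‖ ^ 2 = (R.q : ℝ) ^ j := by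
  change z ∈ (K.onEven (R.onMot M)).charpoly.roots at h
  rw [Polynomial.mem_roots (LinearMap.charpoly_monic _).ne_zero,
    ← Module.End.hasEigenvalue_iff_isRoot_charpoly] at h
  obtain ⟨x, hx⟩ := h.exists_hasEigenvector
  have hx2 := K.mem_evenPart.1 x.2
  refine K.weight_aux M x.1 z 1 (fun h0 => hx.2 (Subtype.ext h0)) hx2.1 ?_ ?_
  · rw [hx2.2, one_smul]
  · exact congrArg Subtype.val hx.apply_eq_smul

/-- the weights of the eigenvalues on the odd part -/
theorem weight_odd {M : Mot T} {z : ℂ} (h : z ∈ K.frobenius.odd M) :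
    ∃ j : ℤ, (-1 : ℂ) ^ j = -1 ∧ ‖(R.q : ℂ) ^ M.m * z‖ ^ 2 = (R.q : ℝ) ^ j := by
  change z ∈ (K.onOdd (R.onMot M)).charpoly.roots at h
  rw [Polynomial.mem_roots (LinearMap.charpoly_monic _).ne_zero,
    ← Module.End.hasEigenvalue_iff_isRoot_charpoly] at h
  obtain ⟨x, hx⟩ := h.exists_hasEigenvector
  have hx2 := K.mem_oddPart.1 x.2
  refine K.weight_aux M x.1 z (-1) (fun h0 => hx.2 (Subtype.ext h0)) hx2.1 ?_ ?_
  · rw [hx2.2, neg_one_smul]
  · exact congrArg Subtype.val hx.apply_eq_smul

/-- even and odd eigenvalues are different -/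
theorem even_odd_disjoint {M : Mot T} {z : ℂ} (h1 : z ∈ K.frobenius.even M)
    (h2 : z ∈ K.frobenius.odd M) : False := by
  obtain ⟨i, hi, hi'⟩ := K.weight_even h1
  obtain ⟨j, hj, hj'⟩ := K.weight_odd h2
  rw [hi'] at hj'
  have hq1 : (1 : ℝ) < R.q := by exact_mod_cast R.one_lt
  have h5 := zpow_right_injective₀ (by linarith) (ne_of_gt hq1) hj'
  have h6 : (1 : ℂ) = -1 := hi.symm.trans ((congrArg (fun k : ℤ => (-1 : ℂ) ^ k) h5).trans hj)
  norm_num at h6

/-- the square of the net multiplicity is the square of the multiplicity -/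
theorem nu_sq (M : Mot T) (z : ℂ) :
    MotP.M73.ν K.frobenius M z ^ 2 = ((K.multM M z : ℕ) : ℤ) ^ 2 := by
  rw [multM_add]
  change (((K.frobenius.even M).count z : ℤ) - ((K.frobenius.odd M).count z : ℤ)) ^ 2 = _
  by_cases h1 : z ∈ K.frobenius.even M
  · have h2 : (K.frobenius.odd M).count z = 0 :=
      Multiset.count_eq_zero.2 (fun h2 => K.even_odd_disjoint h1 h2)
    rw [h2]
    push_cast
    ring
  · have h2 : (K.frobenius.even M).count z = 0 := Multiset.count_eq_zero.2 h1
    rw [h2]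
    push_cast
    ring

/-- the eigenvalues of Frobenius on the cohomology of `M` -/
theorem roots_frobM (M : Mot T) :
    (K.frobM M).charpoly.roots = K.frobenius.even M + K.frobenius.odd M := by
  ext z
  rw [Multiset.count_add, ← multM_add, Polynomial.count_roots]
  rfl

/-- the multiplicity of `1` in `M ⊗ M'` is the sum of the squares of the multiplicities of `M` -/
theorem count_square (M : Mot T) : (K.frobenius.even (M ⊗ Mᘁ)).count 1 =
    ∑ z ∈ (K.frobM M).charpoly.roots.toFinset, K.multM M z ^ 2 := by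
  have h1 := MotP.M73.mult_square K.frobenius M
  have h2 : MotP.M73.S K.frobenius M = (K.frobM M).charpoly.roots.toFinset := by
    rw [roots_frobM]
    rfl
  rw [h2, Finset.sum_congr rfl (fun z _ => K.nu_sq M z)] at h1
  have h3 : (MotP.M73.mult K.frobenius (M ⊗ Mᘁ) : ℤ) =
      ((∑ z ∈ (K.frobM M).charpoly.roots.toFinset, K.multM M z ^ 2 : ℕ) : ℤ) := by
    rw [h1]
    push_cast
    rfl
  exact_mod_cast h3

end Cohomology

end CHM
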