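import Pool.Agent.CHM.Mon

/-!
# Direct sums and split idempotents in the category of Chow motives (MP_6c4da4_ag, project CHM)
-/

set_option autoImplicit false

open CategoryTheory MonoidalCategory CartesianMonoidalCategory Limits

universe v u w

namespace CHM

section general

variable {C : Type u} [Category.{v} C] [Preadditive C]

/-- `M` and `N` have a direct sum. -/
def HasSum (M N : C) : Prop :=
  ∃ (Z : C) (i : M ⟶ Z) (j : N ⟶ Z) (p : Z ⟶ M) (q : Z ⟶ N), i ≫ p = 𝟙 M ∧ j ≫ q = 𝟙 N ∧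
    i ≫ q = 0 ∧ j ≫ p = 0 ∧ p ≫ i + q ≫ j = 𝟙 Z

theorem HasSum.biproduct {M N : C} (h : HasSum M N) : HasBinaryBiproduct M N := by
  obtain ⟨Z, i, j, p, q, h1, h2, h3, h4, h5⟩ := h
  exact hasBinaryBiproduct_of_total
    { pt := Z, fst := p, snd := q, inl := i, inr := j, inl_fst := h1, inl_snd := h3,
      inr_fst := h4, inr_snd := h2 } h5

/-- retracts of objects with a direct sum have a direct sum -/
theorem HasSum.retract [IsIdempotentComplete C] {M N A B : C} (i : M ⟶ A) (r : A ⟶ M)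
    (hi : i ≫ r = 𝟙 M) (j : N ⟶ B) (s : B ⟶ N) (hj : j ≫ s = 𝟙 N) (h : HasSum A B) :
    HasSum M N := by
  obtain ⟨Z, a, b, p, q, h1, h2, h3, h4, h5⟩ := h
  obtain ⟨Y, y, z, hy, hz⟩ := IsIdempotentComplete.idempotents_split Z
    (p ≫ r ≫ i ≫ a + q ≫ s ≫ j ≫ b) (by
      simp only [Preadditive.add_comp, Preadditive.comp_add, Category.assoc]
      rw [reassoc_of% h1, reassoc_of% h2, reassoc_of% h3, reassoc_of% h4, reassoc_of% hi,
        reassoc_of% hj]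
      simp)
  refine ⟨Y, i ≫ a ≫ z, j ≫ b ≫ z, y ≫ p ≫ r, y ≫ q ≫ s, ?_, ?_, ?_, ?_, ?_⟩
  · simp only [Category.assoc]
    rw [reassoc_of% hz]
    simp [reassoc_of% h1, reassoc_of% h4, hi]
  · simp only [Category.assoc]
    rw [reassoc_of% hz]
    simp [reassoc_of% h2, reassoc_of% h3, hj]
  · simp only [Category.assoc]
    rw [reassoc_of% hz]
    simp [reassoc_of% h2, reassoc_of% h3]
  · simp only [Category.assoc]
    rw [reassoc_of% hz]
    simp [reassoc_of% h1, reassoc_of% h4]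
  · have h6 : y ≫ (p ≫ r ≫ i ≫ a + q ≫ s ≫ j ≫ b) ≫ z = 𝟙 Y := by
      rw [← hz]
      simp only [Category.assoc]
      rw [reassoc_of% hy, hy]
    rw [← h6]
    simp only [Preadditive.add_comp, Preadditive.comp_add, Category.assoc]

end general

variable {V : Type u} [Category.{v} V] [CartesianMonoidalCategory V]

namespace Mot

variable {T : ChowTheory.{v, u, w} V}

instance : IsIdempotentComplete (Mot T) where
  idempotents_split M e he := by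
    have h1 : T.cp e.1 e.1 = e.1 := congrArg Subtype.val he
    have h2 : T.cp M.p e.1 = e.1 := p_cp e.2
    have h3 : T.cp e.1 M.p = e.1 := cp_p e.2
    have hd : e.1 ∈ T.gr (M.X ⊗ M.X) (T.dim M.X) := by
      have h := e.2.1
      have e' : T.dim M.X + M.m - M.m = T.dim M.X := by ring
      rwa [e'] at h
    refine ⟨⟨M.X, e.1, M.m, hd, h1⟩, ⟨e.1, ?_, ?_⟩, ⟨e.1, ?_, ?_⟩, ?_, ?_⟩
    · exact e.2.1
    · change T.cp (T.cp e.1 e.1) M.p = e.1
      rw [h1, h3]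
    · exact e.2.1
    · change T.cp (T.cp M.p e.1) e.1 = e.1
      rw [h2, h1]
    · exact Subtype.ext h1
    · exact Subtype.ext h1

/-- The motive `h(X)(m) = (X, id, m)`. -/
@[reducible] def h (T : ChowTheory.{v, u, w} V) (X : V) (m : ℤ) : Mot T :=
  ⟨X, T.diag X, m, T.diag_mem X, T.cp_diag _⟩

theorem mem_hom_h {X Y : V} {m n : ℤ} {f : T.CH (X ⊗ Y)} :
    f ∈ hom (h T X m) (h T Y n) ↔ f ∈ T.gr (X ⊗ Y) (T.dim X + n - m) := by
  rw [mem_hom]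
  constructor
  · exact fun hf => hf.1
  · intro hf
    refine ⟨hf, ?_⟩
    change T.cp (T.cp (T.diag X) f) (T.diag Y) = f
    rw [T.diag_cp, T.cp_diag]

/-- `(X, p, m)` is a direct summand of `h(X)(m)`. -/
theorem retract_h (M : Mot T) : ∃ (i : M ⟶ h T M.X M.m) (r : h T M.X M.m ⟶ M), i ≫ r = 𝟙 M := by
  have hd : M.p ∈ T.gr (M.X ⊗ M.X) (T.dim M.X + M.m - M.m) := by
    have h := M.deg
    have e' : T.dim M.X = T.dim M.X + M.m - M.m := by ring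
    rwa [← e']
  refine ⟨⟨M.p, hd, ?_⟩, ⟨M.p, hd, ?_⟩, Subtype.ext M.idem⟩
  · change T.cp (T.cp M.p M.p) (T.diag _) = M.p
    rw [T.cp_diag, M.idem]
  · change T.cp (T.cp (T.diag _) M.p) M.p = M.p
    rw [T.diag_cp, M.idem]

theorem retract_h' (M : Mot T) (m : ℤ) (hm : M.m = m) :
    ∃ (i : M ⟶ h T M.X m) (r : h T M.X m ⟶ M), i ≫ r = 𝟙 M := by
  subst hm
  exact retract_h M

theorem hasSum_h {X Y : V} (hd : T.dim X = T.dim Y) (m : ℤ) : HasSum (h T X m) (h T Y m) := by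
  obtain ⟨Z, i, j, hZ, hu⟩ := T.union X Y hd
  obtain ⟨a, ha, ha1, ha2⟩ := (hu X).2 (T.dim X) (T.diag X) 0 (T.diag_mem X) (zero_mem _)
  obtain ⟨b, hb, hb1, hb2⟩ := (hu Y).2 (T.dim X) 0 (T.diag Y) (zero_mem _)
    (by rw [hd]; exact T.diag_mem Y)
  refine ⟨h T Z m, ⟨a, mem_hom_h.2 ?_⟩, ⟨b, mem_hom_h.2 ?_⟩, ⟨T.gr' i, mem_hom_h.2 ?_⟩,
    ⟨T.gr' j, mem_hom_h.2 ?_⟩, ?_, ?_, ?_, ?_, ?_⟩
  · rwa [add_sub_cancel_right]
  · rwa [add_sub_cancel_right, ← hd]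
  · rw [add_sub_cancel_right]
    exact T.gr'_mem i
  · rw [add_sub_cancel_right]
    exact T.gr'_mem j
  · apply Subtype.ext
    change T.cp a (T.gr' i) = T.diag X
    rw [T.cp_gr', ha1]
  · apply Subtype.ext
    change T.cp b (T.gr' j) = T.diag Y
    rw [T.cp_gr', hb2]
  · apply Subtype.ext
    change T.cp a (T.gr' j) = 0
    rw [T.cp_gr', ha2]
  · apply Subtype.ext
    change T.cp b (T.gr' i) = 0
    rw [T.cp_gr', hb1]
  · apply Subtype.ext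
    change T.cp (T.gr' i) a + T.cp (T.gr' j) b = T.diag Z
    rw [← sub_eq_zero]
    apply (hu Z).1
    · rw [map_sub, map_add, ← T.cp_gr', ← T.cp_gr', ← T.cp_gr', T.cp_assoc, T.cp_assoc, T.cp_gr',
        T.cp_gr' b, ha1, hb1, T.cp_diag, T.diag_cp]
      simp [ChowTheory.cp]
    · rw [map_sub, map_add, ← T.cp_gr', ← T.cp_gr', ← T.cp_gr', T.cp_assoc, T.cp_assoc, T.cp_gr',
        T.cp_gr' b, ha2, hb2, T.cp_diag, T.diag_cp]
      simp [ChowTheory.cp]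

end Mot

namespace ChowTheory

variable (T : ChowTheory.{v, u, w} V)

theorem cp_pt {E : V} (a b : T.CH E) : T.cp (T.pull (snd (𝟙_ V) E) a) (T.pull (fst E (𝟙_ V)) b) =
    T.push (lift (𝟙 _) (𝟙 _)) (T.push (toUnit E) (a * b)) := by
  unfold cp
  have e : IsIso (lift (lift (toUnit E) (𝟙 E)) (toUnit E) : E ⟶ (𝟙_ V ⊗ E) ⊗ 𝟙_ V) :=
    ⟨fst _ _ ≫ snd _ _, by simp, by ext; simp⟩
  rw [T.push_reparam _ _ e, ← T.push_comp, map_mul, ← T.pull_comp, ← T.pull_comp, ← T.pull_comp,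
    ← T.pull_comp]
  refine T.push_congr (by ext) (congr_arg₂ (· * ·) ?_ ?_)
  · rw [← T.pull_id E a]
    simp
  · rw [← T.pull_id E b]
    simp

theorem pt_cp {E : V} (a b : T.CH E) : T.cp (T.pull (fst E (𝟙_ V)) b) (T.pull (snd (𝟙_ V) E) a) =
    T.pull (fst E E) b * T.pull (snd E E) a := by
  unfold cp
  have e : IsIso (lift (lift (fst E E) (toUnit _)) (snd E E) : E ⊗ E ⟶ (E ⊗ 𝟙_ V) ⊗ E) :=
    ⟨lift (fst _ _ ≫ fst _ _) (snd _ _), by ext <;> simp, by ext <;> simp⟩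
  rw [T.push_reparam _ _ e, map_mul, ← T.pull_comp, ← T.pull_comp, ← T.pull_comp, ← T.pull_comp]
  have h : lift (lift (fst E E) (toUnit _)) (snd E E) ≫
      lift (fst (E ⊗ 𝟙_ V) E ≫ fst E (𝟙_ V)) (snd (E ⊗ 𝟙_ V) E) = 𝟙 _ := by ext <;> simp
  rw [h, T.push_id]
  refine congr_arg₂ (· * ·) ?_ ?_ <;> exact T.pull_congr (by simp) _

end ChowTheory

namespace Mot

variable {T : ChowTheory.{v, u, w} V}

/-- A direct summand of the motive of the line `E`: `(E, b × a, 0) ≅ (point, id, -t)`. -/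
theorem line_iso {E : V} (hE : T.dim E = 1) {a b : T.CH E} {s t : ℤ} (hst : s + t = 1)
    (hb : b ∈ T.gr E s) (ha : a ∈ T.gr E t) (hab : T.push (toUnit E) (a * b) = 1) (m : ℤ)
    (hm : m = -t) : ∃ Q : Mot T, T.dim Q.X = 1 ∧ Q.m = 0 ∧ Nonempty (h T (𝟙_ V) m ≅ Q) := by
  have h1 : T.cp (T.pull (snd (𝟙_ V) E) a) (T.pull (fst E (𝟙_ V)) b) = T.diag (𝟙_ V) := by
    rw [T.cp_pt, hab, ChowTheory.diag]
  have hid : T.cp (T.pull (fst E E) b * T.pull (snd E E) a)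
      (T.pull (fst E E) b * T.pull (snd E E) a) = T.pull (fst E E) b * T.pull (snd E E) a := by
    rw [← T.pt_cp, T.cp_assoc, ← T.cp_assoc (T.pull (snd _ _) a), h1, T.diag_cp]
  have hP : T.pull (fst E E) b * T.pull (snd E E) a ∈ T.gr (E ⊗ E) (T.dim E) := by
    have h2 := T.mul_mem (T.pull_mem (fst E E) _ _ hb) (T.pull_mem (snd E E) _ _ ha)
    rwa [hst, ← hE] at h2
  refine ⟨⟨E, _, 0, hP, hid⟩, hE, rfl, ⟨⟨⟨T.pull (snd _ _) a, ?_, ?_⟩,
    ⟨T.pull (fst _ _) b, ?_, ?_⟩, ?_, ?_⟩⟩⟩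
  · have h2 := T.pull_mem (snd (𝟙_ V) E) _ _ ha
    have e : t = T.dim (𝟙_ V) + 0 - m := by rw [T.dim_unit, hm]; ring
    rwa [e] at h2
  · change T.cp (T.cp (T.diag (𝟙_ V)) (T.pull (snd (𝟙_ V) E) a))
      (T.pull (fst E E) b * T.pull (snd E E) a) = T.pull (snd (𝟙_ V) E) a
    rw [T.diag_cp, ← T.pt_cp, ← T.cp_assoc, h1, T.diag_cp]
  · have h2 := T.pull_mem (fst E (𝟙_ V)) _ _ hb
    have e : s = T.dim E + m - 0 := by rw [hE, hm, ← hst]; ring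
    rwa [e] at h2
  · change T.cp (T.cp (T.pull (fst E E) b * T.pull (snd E E) a) (T.pull (fst E (𝟙_ V)) b))
      (T.diag (𝟙_ V)) = T.pull (fst E (𝟙_ V)) b
    rw [T.cp_diag, ← T.pt_cp, T.cp_assoc, h1, T.cp_diag]
  · exact Subtype.ext h1
  · exact Subtype.ext (T.pt_cp a b)

theorem raise {E : V} (hE : T.dim E = 1) {a b : T.CH E} {s t : ℤ} (hst : s + t = 1)
    (hb : b ∈ T.gr E s) (ha : a ∈ T.gr E t) (hab : T.push (toUnit E) (a * b) = 1) (M : Mot T) :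
    ∃ N : Mot T, T.dim N.X = T.dim M.X + 1 ∧ N.m = M.m + t ∧ Nonempty (M ≅ N) := by
  obtain ⟨Q, hQ, hm, ⟨e⟩⟩ := line_iso hE hst hb ha hab (-t) rfl
  let M0 : Mot T := ⟨M.X, M.p, M.m + t, M.deg, M.idem⟩
  refine ⟨M0 ⊗ Q, ?_, ?_, ⟨?_⟩⟩
  · change T.dim (M.X ⊗ Q.X) = _
    rw [T.dim_tensor, hQ]
  · change M.m + t + Q.m = _
    rw [hm, add_zero]
  · exact (gIso (M := M0 ⊗ h T (𝟙_ V) (-t)) (N := M) (ρ_ M.X).symm
      (by change M.m + t + -t = M.m; ring) (T.ten_right _)).symm ≪≫ whiskerLeftIso M0 e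

theorem raise_dim (M : Mot T) : ∃ N : Mot T, T.dim N.X = T.dim M.X + 1 ∧ N.m = M.m ∧
    Nonempty (M ≅ N) := by
  obtain ⟨E, c, hE, hc, hd⟩ := T.line
  obtain ⟨N, h1, h2, h3⟩ := raise hE (by norm_num) hc (T.one_mem E) (by rwa [one_mul]) M
  exact ⟨N, h1, by rw [h2, add_zero], h3⟩

theorem raise_both (M : Mot T) : ∃ N : Mot T, T.dim N.X = T.dim M.X + 1 ∧ N.m = M.m + 1 ∧
    Nonempty (M ≅ N) := by
  obtain ⟨E, c, hE, hc, hd⟩ := T.line
  exact raise hE (by norm_num) (T.one_mem E) hc (by rwa [mul_one]) M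

theorem raise_dims (n : ℕ) (M : Mot T) : ∃ N : Mot T, T.dim N.X = T.dim M.X + n ∧ N.m = M.m ∧
    Nonempty (M ≅ N) := by
  induction n with
  | zero => exact ⟨M, by simp, rfl, ⟨Iso.refl _⟩⟩
  | succ n ih =>
    obtain ⟨N, h1, h2, ⟨e⟩⟩ := ih
    obtain ⟨L, h3, h4, ⟨e'⟩⟩ := raise_dim N
    exact ⟨L, by rw [h3, h1]; push_cast; ring, by rw [h4, h2], ⟨e ≪≫ e'⟩⟩

theorem raise_boths (n : ℕ) (M : Mot T) : ∃ N : Mot T, T.dim N.X = T.dim M.X + n ∧
    N.m = M.m + n ∧ Nonempty (M ≅ N) := by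
  induction n with
  | zero => exact ⟨M, by simp, by simp, ⟨Iso.refl _⟩⟩
  | succ n ih =>
    obtain ⟨N, h1, h2, ⟨e⟩⟩ := ih
    obtain ⟨L, h3, h4, ⟨e'⟩⟩ := raise_both N
    exact ⟨L, by rw [h3, h1]; push_cast; ring, by rw [h4, h2]; push_cast; ring, ⟨e ≪≫ e'⟩⟩

/-- Any two motives have a direct sum. -/
theorem hasSum (M N : Mot T) : HasSum M N := by
  obtain ⟨M1, a1, b1, ⟨e1⟩⟩ := raise_boths (N.m - M.m).toNat M
  obtain ⟨N1, c1, d1, ⟨f1⟩⟩ := raise_boths (M.m - N.m).toNat N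
  obtain ⟨M2, a2, b2, ⟨e2⟩⟩ := raise_dims (T.dim N1.X - T.dim M1.X).toNat M1
  obtain ⟨N2, c2, d2, ⟨f2⟩⟩ := raise_dims (T.dim M1.X - T.dim N1.X).toNat N1
  have hm : M2.m = N2.m := by omega
  have hd : T.dim M2.X = T.dim N2.X := by omega
  obtain ⟨i, r, hi⟩ := retract_h' M2 M2.m rfl
  obtain ⟨j, s, hj⟩ := retract_h' N2 M2.m hm.symm
  have h1 := (hasSum_h hd M2.m).retract i r hi j s hj
  exact h1.retract (e1 ≪≫ e2).hom (e1 ≪≫ e2).inv (by simp) (f1 ≪≫ f2).hom (f1 ≪≫ f2).inv (by simp)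

/-- The zero motive. -/
def zeroM (T : ChowTheory.{v, u, w} V) : Mot T :=
  ⟨𝟙_ V, 0, 0, zero_mem _, by simp [ChowTheory.cp]⟩

theorem isZero_zeroM : IsZero (zeroM T) := by
  rw [IsZero.iff_id_eq_zero]
  rfl

instance : HasZeroObject (Mot T) := ⟨zeroM T, isZero_zeroM⟩

instance : HasBinaryBiproducts (Mot T) where
  has_binary_biproduct M N := (hasSum M N).biproduct

instance : HasFiniteBiproducts (Mot T) := by
  have : HasFiniteProducts (Mot T) := hasFiniteProducts_of_has_binary_and_terminal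
  exact HasFiniteBiproducts.of_hasFiniteProducts

end Mot

end CHM
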