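import Pool.Agent.CHM.Spec

/-!
# Tate's formula for the endomorphisms of a Chow motive and the generated motives
(MP_6c4da4_ag, project CHM)
-/

set_option autoImplicit false

open CategoryTheory MonoidalCategory CartesianMonoidalCategory Limits

universe v u w x

namespace CHM

variable {V : Type u} [Category.{v} V] [CartesianMonoidalCategory V]

namespace Mot

variable {T : ChowTheory.{v, u, w} V}

/-- The numerically trivial morphisms `(X, p, m) ⟶ (Y, q, n)`: those which are numerically trivial
cycles on `X × Y`. -/
def numHom (M N : Mot T) : Submodule ℚ (M ⟶ N) where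
  carrier := {f | ∀ b ∈ T.gr (M.X ⊗ N.X) (T.dim (M.X ⊗ N.X) - (T.dim M.X + N.m - M.m)),
    T.deg (f.1 * b) = 0}
  add_mem' {f g} hf hg b hb := by
    rw [add_val, add_mul, map_add, hf b hb, hg b hb, add_zero]
  zero_mem' b hb := by rw [zero_val, zero_mul, map_zero]
  smul_mem' r f hf b hb := by rw [smul_val, smul_mul_assoc, map_smul, hf b hb, smul_zero]

theorem mem_numHom {M N : Mot T} (f : M ⟶ N) : f ∈ numHom M N ↔ MotP.NumTrivial f :=
  (numTrivial_iff f).symm

end Mot

namespace Cohomology

variable {T : ChowTheory.{v, u, w} V} {R : FrobeniusMaps T} (K : Cohomology.{v, u, w, x} T R)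

/-- The space of the endomorphisms of `M` modulo the numerically trivial ones. -/
theorem rank_end (M : Mot T) :
    Module.rank ℚ ((𝟙_ (Mot T) ⟶ M ⊗ Mᘁ) ⧸ MotP.ntSections (M ⊗ Mᘁ)) =
      Module.rank ℚ ((M ⟶ M) ⧸ Mot.numHom M M) := by
  have hb : Function.Bijective (MotP.nmL M M) :=
    ⟨fun f g h => MotP.nm_inj h, MotP.nm_surj⟩
  refine (Submodule.Quotient.equiv (Mot.numHom M M) (MotP.ntSections (M ⊗ Mᘁ))
    (LinearEquiv.ofBijective _ hb) ?_).rank_eq.symm
  have key : ∀ f : M ⟶ M, MotP.nm f ∈ MotP.ntSections (M ⊗ Mᘁ) ↔ f ∈ Mot.numHom M M := by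
    intro f
    rw [Mot.mem_numHom]
    refine (MotP.M73.nm_mem_iff (f : End M)).trans ?_
    constructor
    · intro h g
      have h1 := h g
      rw [MotP.M73.tr_mul_comm] at h1
      exact h1
    · intro h g
      rw [MotP.M73.tr_mul_comm]
      exact h g
  ext s
  constructor
  · rintro ⟨f, hf, rfl⟩
    exact (key f).2 hf
  · intro hs
    obtain ⟨f, rfl⟩ := MotP.nm_surj s
    exact ⟨f, (key f).1 hs, rfl⟩

/-- Tate's formula for the endomorphisms of the Chow motive `M`: the dimension of the space of the
endomorphisms modulo the numerically trivial ones is the sum of the squares of the multiplicities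
of the eigenvalues of Frobenius on the cohomology of `M`. -/
def TateFormula (M : Mot T) : Prop :=
  Module.rank ℚ ((M ⟶ M) ⧸ Mot.numHom M M) =
    ((∑ z ∈ (K.frobM M).charpoly.roots.toFinset, K.multM M z ^ 2 : ℕ) : Cardinal)

theorem tateFormula_iff (M : Mot T) : K.TateFormula M ↔ Mot84.TateSquare K.frobenius M := by
  unfold TateFormula Mot84.TateSquare
  rw [rank_end, count_square]

/-- The Chow motives generated, under tensor products, duals, direct sums and direct summands, by
those with Tate's formula and by those with a simple spectrum (all eigenvalues of Frobenius on the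
cohomology of `M` are simple roots of its characteristic polynomial). -/
inductive Gen : Mot T → Prop
  | tate (M : Mot T) : K.TateFormula M → Gen M
  | simple (M : Mot T) : (K.frobM M).charpoly.roots.Nodup → Gen M
  | unit : Gen (𝟙_ (Mot T))
  | tensor (M N : Mot T) : Gen M → Gen N → Gen (M ⊗ N)
  | dual (M : Mot T) : Gen M → Gen Mᘁ
  | sum (M N : Mot T) : Gen M → Gen N → Gen (M ⊞ N)
  | summand (M N : Mot T) (i : N ⟶ M) (p : M ⟶ N) : i ≫ p = 𝟙 N → Gen M → Gen N

theorem gen_iff (M : Mot T) : K.Gen M ↔ Mot73.Generated K.frobenius M := by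
  constructor
  · intro h
    induction h with
    | tate M h => exact Mot73.Generated.tate M ((K.tateFormula_iff M).1 h)
    | simple M h =>
      refine Mot73.Generated.simple M ?_
      rw [roots_frobM] at h
      exact h
    | unit => exact Mot73.Generated.unit
    | tensor M N _ _ hM hN => exact Mot73.Generated.tensor M N hM hN
    | dual M _ hM => exact Mot73.Generated.dual M hM
    | sum M N _ _ hM hN =>
      exact Mot73.Generated.sum M N (M ⊞ N) biprod.inl biprod.fst biprod.inr biprod.snd
        biprod.inl_fst biprod.inr_snd biprod.total hM hN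
    | summand M N i p h _ hM => exact Mot73.Generated.summand M N i p h hM
  · intro h
    induction h with
    | tate M h => exact Gen.tate M ((K.tateFormula_iff M).2 h)
    | simple M h =>
      refine Gen.simple M ?_
      rw [roots_frobM]
      exact h
    | unit => exact Gen.unit
    | tensor M N _ _ hM hN => exact Gen.tensor M N hM hN
    | dual M _ hM => exact Gen.dual M hM
    | sum M N Z i p j q h1 h2 h3 _ _ hM hN =>
      refine Gen.summand (M ⊞ N) Z (p ≫ biprod.inl + q ≫ biprod.inr)
        (biprod.fst ≫ i + biprod.snd ≫ j) ?_ (Gen.sum M N hM hN)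
      rw [← h3]
      simp
    | summand M N i p h _ hM => exact Gen.summand M N i p h hM

/-- The full subcategory of the generated motives. -/
abbrev GenCat : Type _ := ObjectProperty.FullSubcategory (fun M : Mot T => K.Gen M)

/-- Rational and numerical equivalence. -/
theorem ratNum :
    (MotP.IsAbelian (Mot T) → MotP.IsAbelian K.GenCat) ∧
    (MotP.IsAbelian K.GenCat ↔
      ∀ M N : Mot T, K.Gen M → K.Gen N → Mot.numHom M N = ⊥) ∧
    (MotP.IsAbelian K.GenCat → ∀ (X : V), K.Gen (Mot.h T X 0) → ∀ i, T.num X i = ⊥) := by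
  have h : (fun M : Mot T => K.Gen M : ObjectProperty (Mot T)) =
      fun M : Mot T => Mot73.Generated K.frobenius M := by
    funext M
    exact propext (K.gen_iff M)
  have h1 : MotP.IsAbelian K.GenCat ↔ MotP.IsAbelian (Mot73.GeneratedCategory K.frobenius) :=
    Mot73.isAbelian_congr h
  obtain ⟨h2, h3, h4⟩ := Mot.ratNum K.frobenius
  refine ⟨fun hA => h1.2 (h2 hA), h1.trans (h3.trans ?_), ?_⟩
  · constructor
    · intro h5 M N hM hN
      rw [eq_bot_iff]
      intro f hf
      rw [Submodule.mem_bot]
      exact h5 M N ((K.gen_iff M).1 hM) ((K.gen_iff N).1 hN) f hf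
    · intro h5 M N hM hN f hf
      have h6 := h5 M N ((K.gen_iff M).2 hM) ((K.gen_iff N).2 hN)
      have h7 : f ∈ Mot.numHom M N := hf
      rw [h6] at h7
      exact (Submodule.mem_bot ℚ).1 h7
  · intro hA X hX i
    exact h4 (h1.1 hA) X 0 ((K.gen_iff _).1 hX) i

end Cohomology

end CHM
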