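import Pool.Agent.CHM.Corr

/-!
# Correspondences: tensor product, naturality of the structure maps, duality (MP_6c4da4_ag, CHM)
-/

set_option autoImplicit false

open CategoryTheory MonoidalCategory CartesianMonoidalCategory Limits

universe v u w

namespace CHM

variable {V : Type u} [Category.{v} V] [CartesianMonoidalCategory V] (T : ChowTheory.{v, u, w} V)

namespace ChowTheory

theorem push_congr {X Y : V} {f g : X ⟶ Y} (h : f = g) {a b : T.CH X} (hab : a = b) :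
    T.push f a = T.push g b := by rw [h, hab]

theorem pull_congr {X Y : V} {f g : X ⟶ Y} (h : f = g) (a : T.CH Y) :
    T.pull f a = T.pull g a := by rw [h]

theorem pull_one {X Y : V} (f : X ⟶ Y) : T.pull f 1 = 1 := map_one _

theorem diag_unit : T.diag (𝟙_ V) = 1 := by
  have i : IsIso (lift (𝟙 (𝟙_ V)) (𝟙 (𝟙_ V))) :=
    ⟨fst _ _, by simp, by ext⟩
  have h := T.push_iso (asIso (lift (𝟙 (𝟙_ V)) (𝟙 (𝟙_ V)))) 1
  rw [pull_one] at h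
  exact h

/-- The exterior product of two correspondences. -/
def ten {X Y X' Y' : V} (f : T.CH (X ⊗ Y)) (f' : T.CH (X' ⊗ Y')) : T.CH ((X ⊗ X') ⊗ (Y ⊗ Y')) :=
  T.pull (fst X X' ⊗ₘ fst Y Y') f * T.pull (snd X X' ⊗ₘ snd Y Y') f'

theorem ten_cp {X Y Z X' Y' Z' : V} (f : T.CH (X ⊗ Y)) (g : T.CH (Y ⊗ Z)) (f' : T.CH (X' ⊗ Y'))
    (g' : T.CH (Y' ⊗ Z')) :
    T.cp (T.ten f f') (T.ten g g') = T.ten (T.cp f g) (T.cp f' g') := by
  unfold cp ten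
  have e : IsIso (lift (fst X X' ⊗ₘ fst Z Z') (snd X X' ⊗ₘ snd Z Z')) :=
    ⟨lift (fst _ _ ⊗ₘ fst _ _) (snd _ _ ⊗ₘ snd _ _), by ext <;> simp, by ext <;> simp⟩
  rw [T.bc (P := ((X ⊗ Y) ⊗ Z) ⊗ (X' ⊗ Z')) (fst _ _)
    (lift (lift (fst _ _ ≫ fst _ _ ≫ fst _ _) (snd _ _ ≫ fst _ _))
      (lift (fst _ _ ≫ snd _ _) (snd _ _ ≫ snd _ _)))
    (lift (fst (X ⊗ Y) Z ≫ fst X Y) (snd (X ⊗ Y) Z)) (fst X X' ⊗ₘ fst Z Z')
    (snd X X' ⊗ₘ snd Z Z') e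
    ⟨𝟙 _, by ext <;> simp, by ext <;> simp⟩ (by ext <;> simp)]
  rw [mul_comm (T.push _ _) (T.pull _ _), ← T.projection, ← T.pull_comp]
  rw [T.bc (P := ((X ⊗ X') ⊗ (Y ⊗ Y')) ⊗ (Z ⊗ Z'))
    (lift (lift (fst _ _ ≫ fst _ _ ≫ snd _ _) (fst _ _ ≫ snd _ _ ≫ snd _ _))
      (snd _ _ ≫ snd _ _))
    (lift (lift (lift (fst _ _ ≫ fst _ _ ≫ fst _ _) (fst _ _ ≫ snd _ _ ≫ fst _ _))
      (snd _ _ ≫ fst _ _)) (lift (fst _ _ ≫ fst _ _ ≫ snd _ _) (snd _ _ ≫ snd _ _)))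
    (lift (fst (X' ⊗ Y') Z' ≫ fst X' Y') (snd (X' ⊗ Y') Z'))
    _ (fst _ _)
    ⟨lift (snd _ _) (fst _ _), by ext <;> simp, by ext <;> simp⟩
    ⟨lift (lift (lift (snd _ _ ≫ fst _ _ ≫ fst _ _) (fst _ _ ≫ fst _ _ ≫ fst _ _))
      (lift (snd _ _ ≫ fst _ _ ≫ snd _ _) (fst _ _ ≫ fst _ _ ≫ snd _ _)))
      (lift (snd _ _ ≫ snd _ _) (fst _ _ ≫ snd _ _)), by ext <;> simp, by ext <;> simp⟩
    (by ext <;> simp)]
  rw [mul_comm (T.push _ _) (T.pull _ _), ← T.projection, ← T.push_comp]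
  simp only [map_mul, ← T.pull_comp]
  refine T.push_congr (by ext <;> simp) ?_
  rw [mul_mul_mul_comm]
  refine congr_arg₂ (· * ·) (congr_arg₂ (· * ·) ?_ ?_) (congr_arg₂ (· * ·) ?_ ?_) <;>
    exact T.pull_congr (by ext <;> simp) _

theorem ten_gr' {X Y X' Y' : V} (φ : Y ⟶ X) (ψ : Y' ⟶ X') :
    T.ten (T.gr' φ) (T.gr' ψ) = T.gr' (φ ⊗ₘ ψ) := by
  unfold ten gr'
  have e : IsIso (lift (fst X X' ⊗ₘ fst Y Y') (snd X X' ⊗ₘ snd Y Y')) :=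
    ⟨lift (fst _ _ ⊗ₘ fst _ _) (snd _ _ ⊗ₘ snd _ _), by ext <;> simp, by ext <;> simp⟩
  rw [T.bc (P := Y ⊗ (X' ⊗ Y')) (fst _ _)
    (lift (lift (fst _ _ ≫ φ) (snd _ _ ≫ fst _ _)) (lift (fst _ _) (snd _ _ ≫ snd _ _)))
    (lift φ (𝟙 Y)) (fst X X' ⊗ₘ fst Y Y') (snd X X' ⊗ₘ snd Y Y') e
    ⟨𝟙 _, by ext <;> simp, by ext <;> simp⟩ (by ext <;> simp)]
  rw [mul_comm (T.push _ _) (T.pull _ _), ← T.projection, T.pull_one, mul_one, ← T.pull_comp]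
  rw [T.bc (P := Y ⊗ Y') (snd _ _)
    (lift (fst _ _) (lift (snd _ _ ≫ ψ) (snd _ _)))
    (lift ψ (𝟙 Y')) _ (fst _ _)
    ⟨lift (snd _ _) (fst _ _), by ext <;> simp, by ext <;> simp⟩
    ⟨lift (snd _ _) (fst _ _), by ext <;> simp, by ext <;> simp⟩
    (by ext <;> simp)]
  rw [← T.push_comp, T.pull_one]
  exact T.push_congr (by ext <;> simp) rfl

theorem ten_diag (X Y : V) : T.ten (T.diag X) (T.diag Y) = T.diag (X ⊗ Y) := by
  rw [← T.gr'_id, ← T.gr'_id, T.ten_gr', MonoidalCategory.id_tensorHom_id, T.gr'_id]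

/-- composition with the graph of an isomorphism on the left is a pullback -/
theorem gr'_cp_iso {X Y Z : V} (φ : Y ≅ X) (b : T.CH (Y ⊗ Z)) :
    T.cp (T.gr' φ.hom) b = T.pull (φ.inv ▷ Z) b := by
  rw [T.gr'_cp]
  exact T.push_iso (whiskerRightIso φ Z) b

/-- naturality of the associator -/
theorem ten_assoc {X Y Z X' Y' Z' : V} (f : T.CH (X ⊗ X')) (g : T.CH (Y ⊗ Y'))
    (h : T.CH (Z ⊗ Z')) :
    T.cp (T.ten (T.ten f g) h) (T.gr' (α_ X' Y' Z').inv) =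
      T.cp (T.gr' (α_ X Y Z).inv) (T.ten f (T.ten g h)) := by
  rw [T.cp_gr']
  have h1 := T.gr'_cp_iso (α_ X Y Z).symm (T.ten f (T.ten g h))
  rw [Iso.symm_hom] at h1
  rw [h1]
  simp only [ten, map_mul, ← T.pull_comp]
  rw [mul_assoc]
  refine congr_arg₂ (· * ·) ?_ (congr_arg₂ (· * ·) ?_ ?_) <;>
    exact T.pull_congr (by ext <;> simp) _

/-- naturality of the left unitor -/
theorem ten_left {X Y : V} (f : T.CH (X ⊗ Y)) :
    T.cp (T.ten (T.diag (𝟙_ V)) f) (T.gr' (λ_ Y).inv) = T.cp (T.gr' (λ_ X).inv) f := by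
  have h1 := T.gr'_cp_iso (λ_ X).symm f
  rw [Iso.symm_hom] at h1
  rw [T.cp_gr', h1]
  simp only [ten, ← T.pull_comp, T.diag_unit, T.pull_one, one_mul]
  exact T.pull_congr (by ext <;> simp) _

theorem ten_right {X Y : V} (f : T.CH (X ⊗ Y)) :
    T.cp (T.ten f (T.diag (𝟙_ V))) (T.gr' (ρ_ Y).inv) = T.cp (T.gr' (ρ_ X).inv) f := by
  have h1 := T.gr'_cp_iso (ρ_ X).symm f
  rw [Iso.symm_hom] at h1
  rw [T.cp_gr', h1]
  simp only [ten, ← T.pull_comp, T.diag_unit, T.pull_one, mul_one]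
  exact T.pull_congr (by ext <;> simp [rightUnitor_hom]) _

/-- the exchange of the factors of a product -/
def swap (X Y : V) : X ⊗ Y ≅ Y ⊗ X where
  hom := lift (snd X Y) (fst X Y)
  inv := lift (snd Y X) (fst Y X)
  hom_inv_id := by ext <;> simp
  inv_hom_id := by ext <;> simp

/-- naturality of the symmetry -/
theorem ten_swap {X Y X' Y' : V} (f : T.CH (X ⊗ X')) (g : T.CH (Y ⊗ Y')) :
    T.cp (T.ten f g) (T.gr' (swap X' Y').inv) = T.cp (T.gr' (swap X Y).inv) (T.ten g f) := by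
  have h1 := T.gr'_cp_iso (swap X Y).symm (T.ten g f)
  rw [Iso.symm_hom] at h1
  rw [T.cp_gr', h1]
  simp only [ten, map_mul, ← T.pull_comp]
  rw [mul_comm]
  refine congr_arg₂ (· * ·) ?_ ?_ <;>
    exact T.pull_congr (by ext <;> simp [swap]) _

end ChowTheory

end CHM
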