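import Pool.Agent.CHM.Frob
import Pool.Agent.CHM.Lin

/-!
# Cohomology, the trace formula and the Frobenius structure on Chow motives
(MP_6c4da4_ag, project CHM)
-/

set_option autoImplicit false

open CategoryTheory MonoidalCategory CartesianMonoidalCategory Limits TensorProduct

universe v u w x

namespace CHM

variable {V : Type u} [Category.{v} V] [CartesianMonoidalCategory V]

/-- A Weil cohomology with complex coefficients and with weights: `H X` is the direct sum of the
`H^i(X)`, `gr X i = H^i(X)`; correspondences act on it; there are a Kuenneth isomorphism and a trace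
formula, and the eigenvalues of Frobenius on `H^i(X)` have absolute value `q ^ (i / 2)`.  For the
smooth projective varieties over a finite field, `l`-adic cohomology is an example (with complex
coefficients, by the choice of an isomorphism of fields). -/
structure Cohomology (T : ChowTheory.{v, u, w} V) (R : FrobeniusMaps T) where
  /-- the total cohomology of `X` -/
  H : V → Type x
  [acg : ∀ X, AddCommGroup (H X)]
  [mod : ∀ X, Module ℂ (H X)]
  [fin : ∀ X, Module.Finite ℂ (H X)]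
  /-- `gr X i = H^i(X)` -/
  gr : ∀ X : V, ℤ → Submodule ℂ (H X)
  internal : ∀ X, DirectSum.IsInternal (gr X)
  /-- the sign operator: `(-1) ^ i` on `H^i(X)` -/
  sgn : ∀ X, H X →ₗ[ℂ] H X
  sgn_apply : ∀ (X : V) (i : ℤ) (x : H X), x ∈ gr X i → sgn X x = (-1 : ℂ) ^ i • x
  /-- the action of a correspondence from `X` to `Y`: `x ↦ pr₂_* (pr₁^* x ∪ cl f)` -/
  act : ∀ {X Y : V}, T.CH (X ⊗ Y) →+ (H X →ₗ[ℂ] H Y)
  act_diag : ∀ (X : V) (x : H X), act (T.diag X) x = x
  act_cp : ∀ {X Y Z : V} (f : T.CH (X ⊗ Y)) (g : T.CH (Y ⊗ Z)) (x : H X),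
    act (T.cp f g) x = act g (act f x)
  act_mem : ∀ {X Y : V} (r i : ℤ) (f : T.CH (X ⊗ Y)) (x : H X),
    f ∈ T.gr (X ⊗ Y) (T.dim X + r) → x ∈ gr X i → act f x ∈ gr Y (i + 2 * r)
  /-- the Kuenneth isomorphism -/
  kunneth : ∀ X Y : V, (H X ⊗[ℂ] H Y) ≃ₗ[ℂ] H (X ⊗ Y)
  kunneth_act : ∀ {X Y X' Y' : V} (f : T.CH (X ⊗ Y)) (f' : T.CH (X' ⊗ Y')) (x : H X) (x' : H X'),
    act (T.ten f f') (kunneth X X' (x ⊗ₜ x')) = kunneth Y Y' (act f x ⊗ₜ act f' x')
  /-- the trace formula: the degree of the intersection with the diagonal is the trace -/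
  trace_formula : ∀ (X : V) (f : T.CH (X ⊗ X)), f ∈ T.gr (X ⊗ X) (T.dim X) →
    ((T.deg (T.pull (lift (𝟙 X) (𝟙 X)) f) : ℚ) : ℂ) = LinearMap.trace ℂ (H X) (sgn X ∘ₗ act f)
  /-- weights: the eigenvalues of Frobenius on `H^i(X)` have absolute value `q ^ (i / 2)` -/
  weight : ∀ (X : V) (i : ℤ) (x : H X) (z : ℂ), x ∈ gr X i → x ≠ 0 →
    act (T.gr' (R.Fr X)) x = z • x → ‖z‖ ^ 2 = (R.q : ℝ) ^ i

attribute [instance] Cohomology.acg Cohomology.mod Cohomology.fin

namespace Cohomology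

variable {T : ChowTheory.{v, u, w} V} {R : FrobeniusMaps T} (K : Cohomology.{v, u, w, x} T R)

theorem act_smul {X Y : V} (r : ℚ) (f : T.CH (X ⊗ Y)) : K.act (r • f) = (r : ℂ) • K.act f := by
  have h := map_ratCast_smul (K.act (X := X) (Y := Y)) ℚ ℂ r f
  simpa using h

/-- every class is the sum of its homogeneous components -/
theorem exists_sum (X : V) (x : K.H X) : ∃ (s : Finset ℤ) (y : ℤ → K.H X),
    (∀ i, y i ∈ K.gr X i) ∧ x = ∑ i ∈ s, y i := by
  classical
  obtain ⟨t, ht⟩ := (K.internal X).2 x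
  refine ⟨DFinsupp.support t, fun i => t i, fun i => (t i).2, ?_⟩
  rw [← ht, DirectSum.coeAddMonoidHom_eq_dfinsuppSum]
  rfl

/-- a sum of homogeneous elements is zero only if all of them are zero -/
theorem sum_eq_zero (X : V) (s : Finset ℤ) (y : ℤ → K.H X) (hy : ∀ i, y i ∈ K.gr X i)
    (h : ∑ i ∈ s, y i = 0) : ∀ i ∈ s, y i = 0 := by
  intro i hi
  have h1 := (K.internal X).submodule_iSupIndep
  exact (iSupIndep_iff_finsetSum_eq_zero_imp_eq_zero (K.gr X)).1 h1 s (fun j => y j)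
    (fun j _ => hy j) h i hi

theorem sgn_sgn (X : V) (x : K.H X) : K.sgn X (K.sgn X x) = x := by
  obtain ⟨s, y, hy, rfl⟩ := K.exists_sum X x
  rw [map_sum, map_sum]
  refine Finset.sum_congr rfl fun i _ => ?_
  rw [K.sgn_apply X i _ (hy i), map_smul, K.sgn_apply X i _ (hy i), smul_smul,
    ← mul_zpow, neg_one_mul, neg_neg, one_zpow, one_smul]

/-- the sign operator commutes with correspondences -/
theorem sgn_act {X Y : V} {r : ℤ} {f : T.CH (X ⊗ Y)} (hf : f ∈ T.gr (X ⊗ Y) (T.dim X + r))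
    (x : K.H X) : K.sgn Y (K.act f x) = K.act f (K.sgn X x) := by
  obtain ⟨s, y, hy, rfl⟩ := K.exists_sum X x
  simp only [map_sum]
  refine Finset.sum_congr rfl fun i _ => ?_
  rw [K.sgn_apply X i _ (hy i), map_smul, K.sgn_apply Y _ _ (K.act_mem r i f _ hf (hy i)),
    zpow_add₀ (by norm_num), zpow_mul]
  norm_num

/-- The even part of the cohomology of the motive `(X, p, m)`. -/
def evenPart (M : Mot T) : Submodule ℂ (K.H M.X) where
  carrier := {x | K.act M.p x = x ∧ K.sgn M.X x = x}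
  add_mem' {a b} ha hb := by
    refine ⟨?_, ?_⟩
    · rw [map_add, ha.1, hb.1]
    · rw [map_add, ha.2, hb.2]
  zero_mem' := ⟨map_zero _, map_zero _⟩
  smul_mem' c a ha := by
    refine ⟨?_, ?_⟩
    · rw [map_smul, ha.1]
    · rw [map_smul, ha.2]

/-- The odd part of the cohomology of the motive `(X, p, m)`. -/
def oddPart (M : Mot T) : Submodule ℂ (K.H M.X) where
  carrier := {x | K.act M.p x = x ∧ K.sgn M.X x = -x}
  add_mem' {a b} ha hb := by
    refine ⟨?_, ?_⟩
    · rw [map_add, ha.1, hb.1]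
    · rw [map_add, ha.2, hb.2, neg_add]
  zero_mem' := ⟨map_zero _, by rw [map_zero, neg_zero]⟩
  smul_mem' c a ha := by
    refine ⟨?_, ?_⟩
    · rw [map_smul, ha.1]
    · rw [map_smul, ha.2, smul_neg]

theorem mem_evenPart {M : Mot T} {x : K.H M.X} :
    x ∈ K.evenPart M ↔ K.act M.p x = x ∧ K.sgn M.X x = x := Iff.rfl

theorem mem_oddPart {M : Mot T} {x : K.H M.X} :
    x ∈ K.oddPart M ↔ K.act M.p x = x ∧ K.sgn M.X x = -x := Iff.rfl

theorem deg_end {M : Mot T} (f : M ⟶ M) : f.1 ∈ T.gr (M.X ⊗ M.X) (T.dim M.X + 0) := by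
  have h := f.2.1
  have e : T.dim M.X + M.m - M.m = T.dim M.X + 0 := by ring
  rwa [e] at h

theorem act_p_act {M N : Mot T} (f : M ⟶ N) (x : K.H M.X) :
    K.act N.p (K.act f.1 x) = K.act f.1 x := by
  rw [← K.act_cp, Mot.cp_p f.2]

theorem act_even {M : Mot T} (f : M ⟶ M) : ∀ x ∈ K.evenPart M, K.act f.1 x ∈ K.evenPart M := by
  intro x hx
  rw [mem_evenPart] at hx ⊢
  refine ⟨K.act_p_act f x, ?_⟩
  rw [K.sgn_act (deg_end f), hx.2]

theorem act_odd {M : Mot T} (f : M ⟶ M) : ∀ x ∈ K.oddPart M, K.act f.1 x ∈ K.oddPart M := by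
  intro x hx
  rw [mem_oddPart] at hx ⊢
  refine ⟨K.act_p_act f x, ?_⟩
  rw [K.sgn_act (deg_end f), hx.2, map_neg]

/-- The action of an endomorphism on the even part of the cohomology. -/
def onEven {M : Mot T} (f : M ⟶ M) : K.evenPart M →ₗ[ℂ] K.evenPart M :=
  (K.act f.1).restrict (K.act_even f)

/-- The action of an endomorphism on the odd part of the cohomology. -/
def onOdd {M : Mot T} (f : M ⟶ M) : K.oddPart M →ₗ[ℂ] K.oddPart M :=
  (K.act f.1).restrict (K.act_odd f)

/-- the trace formula for motives -/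
theorem trace_eq {M : Mot T} (f : M ⟶ M) :
    ((T.deg (T.pull (lift (𝟙 M.X) (𝟙 M.X)) f.1) : ℚ) : ℂ) =
      LinearMap.trace ℂ _ (K.onEven f) - LinearMap.trace ℂ _ (K.onOdd f) := by
  have h0 : f.1 ∈ T.gr (M.X ⊗ M.X) (T.dim M.X) := by
    have h := deg_end f
    rwa [add_zero] at h
  have h0' : M.p ∈ T.gr (M.X ⊗ M.X) (T.dim M.X + 0) := by
    rw [add_zero]
    exact M.deg
  rw [K.trace_formula M.X f.1 h0]
  refine Lin.trace_sgn (K.sgn M.X) (K.act M.p) (K.act f.1) ?_ ?_ ?_ ?_ (K.evenPart M)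
    (K.oddPart M) (fun x => K.mem_evenPart) (fun x => K.mem_oddPart) _ _
  · ext x
    exact K.sgn_sgn _ x
  · ext x
    exact K.sgn_act h0' x
  · ext x
    exact K.act_p_act f x
  · ext x
    exact K.sgn_act (deg_end f) x

theorem onEven_pow {M : Mot T} (f : End M) (n : ℕ) :
    K.onEven (f ^ n : End M) = K.onEven (f : M ⟶ M) ^ n := by
  induction n with
  | zero =>
    ext x
    change K.act M.p x = x
    exact (K.mem_evenPart.1 x.2).1
  | succ n ih =>
    rw [pow_succ', pow_succ', ← ih]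
    ext x
    change K.act (T.cp (f ^ n : End M).1 f.1) x = K.act f.1 (K.act (f ^ n : End M).1 x)
    rw [K.act_cp]

theorem onOdd_pow {M : Mot T} (f : End M) (n : ℕ) :
    K.onOdd (f ^ n : End M) = K.onOdd (f : M ⟶ M) ^ n := by
  induction n with
  | zero =>
    ext x
    change K.act M.p x = x
    exact (K.mem_oddPart.1 x.2).1
  | succ n ih =>
    rw [pow_succ', pow_succ', ← ih]
    ext x
    change K.act (T.cp (f ^ n : End M).1 f.1) x = K.act f.1 (K.act (f ^ n : End M).1 x)
    rw [K.act_cp]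

/-- The action of Frobenius of the motive `M = (X, p, m)` on the part of the cohomology of `X` cut
out by `p` is `q ^ (-m)` times that of the Frobenius endomorphism of `X`. -/
theorem act_onMot (M : Mot T) (x : K.H M.X) (hx : K.act M.p x = x) :
    K.act (R.onMot M).1 x = ((R.q : ℂ) ^ (-M.m)) • K.act (T.gr' (R.Fr M.X)) x := by
  rw [R.onMot_val, K.act_smul, LinearMap.smul_apply, K.act_cp, hx]
  push_cast
  rfl

/-- `1` is not an eigenvalue of Frobenius on the odd part. -/
theorem one_not_odd (M : Mot T) (x : K.H M.X) (hx : x ∈ K.oddPart M)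
    (h : K.act (R.onMot M).1 x = x) : x = 0 := by
  rw [mem_oddPart] at hx
  rw [K.act_onMot M x hx.1] at h
  have hq : (R.q : ℂ) ≠ 0 := by
    have := R.q_ne
    exact_mod_cast this
  have h1 : K.act (T.gr' (R.Fr M.X)) x = (R.q : ℂ) ^ M.m • x := by
    conv_rhs => rw [← h]
    rw [smul_smul, ← zpow_add₀ hq, add_neg_cancel, zpow_zero, one_smul]
  have hgr : T.gr' (R.Fr M.X) ∈ T.gr (M.X ⊗ M.X) (T.dim M.X + 0) := by
    rw [add_zero]
    exact T.gr'_mem _
  obtain ⟨s, y, hy, hxy⟩ := K.exists_sum M.X x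
  rw [hxy]
  refine Finset.sum_eq_zero fun i hi => ?_
  have hs : ∀ i ∈ s, (-1 : ℂ) ^ i • y i + y i = 0 := by
    refine K.sum_eq_zero M.X s (fun i => (-1 : ℂ) ^ i • y i + y i)
      (fun i => add_mem (Submodule.smul_mem _ _ (hy i)) (hy i)) ?_
    rw [Finset.sum_add_distrib, ← hxy]
    have h2 : ∑ i ∈ s, (-1 : ℂ) ^ i • y i = K.sgn M.X x := by
      rw [hxy, map_sum]
      exact Finset.sum_congr rfl fun i _ => (K.sgn_apply M.X i _ (hy i)).symm
    rw [h2, hx.2, neg_add_cancel]
  have hF : ∀ i ∈ s, K.act (T.gr' (R.Fr M.X)) (y i) - (R.q : ℂ) ^ M.m • y i = 0 := by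
    refine K.sum_eq_zero M.X s
      (fun i => K.act (T.gr' (R.Fr M.X)) (y i) - (R.q : ℂ) ^ M.m • y i) (fun i => ?_) ?_
    · have h2 := K.act_mem 0 i _ (y i) hgr (hy i)
      rw [mul_zero, add_zero] at h2
      exact sub_mem h2 (Submodule.smul_mem _ _ (hy i))
    · rw [Finset.sum_sub_distrib, ← map_sum, ← Finset.smul_sum, ← hxy, h1, sub_self]
  by_contra hne
  have hodd : (-1 : ℂ) ^ i = -1 := by
    have h2 := hs i hi
    have h3 : ((-1 : ℂ) ^ i + 1) • y i = 0 := by
      rw [add_smul, one_smul]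
      exact h2
    rcases smul_eq_zero.1 h3 with h4 | h4
    · exact eq_neg_of_add_eq_zero_left h4
    · exact absurd h4 hne
  have hw := K.weight M.X i (y i) ((R.q : ℂ) ^ M.m) (hy i) hne (sub_eq_zero.1 (hF i hi))
  rw [norm_zpow, Complex.norm_natCast, ← zpow_natCast, ← zpow_mul] at hw
  have hq1 : (1 : ℝ) < R.q := by exact_mod_cast R.one_lt
  have h5 : M.m * (2 : ℕ) = i := zpow_right_injective₀ (by linarith) (ne_of_gt hq1) hw
  rw [← h5, zpow_mul] at hodd
  have h6 : ((-1 : ℂ) ^ M.m) ^ ((2 : ℕ) : ℤ) = 1 := by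
    rw [← zpow_mul, mul_comm, zpow_mul]
    norm_num
  rw [h6] at hodd
  norm_num at hodd

/-- The Frobenius structure on the category of Chow motives. -/
noncomputable def frobenius : MotP.Frobenius (Mot T) where
  scalar := Mot.scalar
  unit_ne := Mot.unit_ne
  F := R.F
  F_unit := R.onMot_unit
  F_tensor := R.onMot_tensor
  even M := (K.onEven (R.onMot M)).charpoly.roots
  odd M := (K.onOdd (R.onMot M)).charpoly.roots
  trace_formula := by
    intro M n r h
    rw [Mot.trace_eq] at h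
    have h1 : T.deg (T.pull (lift (𝟙 M.X) (𝟙 M.X))
        (_root_.Mot.component R.F M ^ n : End M).1) = r := by
      have h2 : (T.deg (T.pull (lift (𝟙 M.X) (𝟙 M.X))
          (_root_.Mot.component R.F M ^ n : End M).1) - r) • 𝟙 (𝟙_ (Mot T)) = 0 := by
        rw [sub_smul, h, sub_self]
      rcases smul_eq_zero.1 h2 with h3 | h3
      · exact sub_eq_zero.1 h3
      · exact absurd h3 Mot.unit_ne
    rw [← h1, K.trace_eq (_root_.Mot.component R.F M ^ n : End M), K.onEven_pow, K.onOdd_pow,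
      Lin.trace_pow_eq, Lin.trace_pow_eq]
    rfl
  one_not_odd := by
    intro M h
    rw [Polynomial.mem_roots (LinearMap.charpoly_monic _).ne_zero,
      ← Module.End.hasEigenvalue_iff_isRoot_charpoly] at h
    obtain ⟨x, hx⟩ := h.exists_hasEigenvector
    have h1 : K.onOdd (R.onMot M) x = x := by
      have := hx.apply_eq_smul
      rwa [one_smul] at this
    have h2 := K.one_not_odd M x.1 x.2 (congrArg Subtype.val h1)
    exact hx.2 (Subtype.ext h2)

end Cohomology

end CHM
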